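import Pool.Agent.Helper89.HF.U3

/-! Graphs with a universal vertex `w` such that `H - w` is not a disjoint union of cliques. -/

namespace Pool.Agent.Helper89.HF

open Pool.Agent.H22.CT Pool.Agent.H38.NP Pool.Agent.H36.Par SimpleGraph Function

variable {m : ℕ}

theorem cnt_on {C : Fin m → Prop} {R : Fin m → Fin m → Prop} (φ : Fin m → Fin m)
    (inj : ∀ i j, C i → C j → φ i = φ j → i = j) (hR : ∀ i j, R i j → C i ∧ C j)
    (h : ∀ i j, R i j → R (φ i) (φ j)) {a b : Fin m} (hab : R a b) :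
    ∃ i j, R i j ∧ φ i = a ∧ φ j = b := by
  classical
  have hi : Set.InjOn (Prod.map φ φ) (Finset.univ.filter fun p : Fin m × Fin m => R p.1 p.2) := by
    rintro ⟨i, j⟩ h1 ⟨i', j'⟩ h2 e
    have h1' : R i j := by simpa using h1
    have h2' : R i' j' := by simpa using h2
    simp only [Prod.map, Prod.mk.injEq] at e
    exact Prod.ext (inj _ _ (hR _ _ h1').1 (hR _ _ h2').1 e.1)
      (inj _ _ (hR _ _ h1').2 (hR _ _ h2').2 e.2)
  have he : (Finset.univ.filter fun p : Fin m × Fin m => R p.1 p.2).image (Prod.map φ φ) =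
      Finset.univ.filter fun p : Fin m × Fin m => R p.1 p.2 := by
    refine Finset.eq_of_subset_of_card_le ?_ (Finset.card_image_of_injOn hi).ge
    intro p hp
    obtain ⟨⟨i, j⟩, h1, rfl⟩ := Finset.mem_image.1 hp
    simpa using h i j (by simpa using h1)
  have : (a, b) ∈ Finset.univ.filter fun p : Fin m × Fin m => R p.1 p.2 := by simpa using hab
  rw [← he] at this
  obtain ⟨⟨i, j⟩, h1, e⟩ := Finset.mem_image.1 this
  simp only [Prod.map, Prod.mk.injEq] at e
  exact ⟨i, j, by simpa using h1, e.1, e.2⟩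

section
variable {P : Par m} {f : Prop} {inc : ℕ → ℕ × ℕ → Prop} {t t' i i' : ℕ} {p p' d d' : Fin m}
  {c c' : ℕ × ℕ}

theorem a_rr : ¬ AdV P f inc .root .root := by simp [AdV]
theorem a_rm : AdV P f inc .root (.mid t) := by simp [AdV, rel]
theorem a_rs : ¬ AdV P f inc .root (.set t) := by simp [AdV, rel]
theorem a_rc : AdV P f inc .root (.cp p c) ↔ P.H.Adj P.u p ∨ (f ∧ p = P.q) := by simp [AdV, rel]
theorem a_ra : AdV P f inc .root (.att d p c i) ↔ P.N1 p := by simp [AdV, rel]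
theorem a_mr : AdV P f inc (.mid t) .root := by simp [AdV, rel]
theorem a_mm : ¬ AdV P f inc (.mid t) (.mid t') := by simp [AdV, rel]
theorem a_ms : AdV P f inc (.mid t) (.set t') ↔ t = t' := by simp [AdV, rel]
theorem a_mc : ¬ AdV P f inc (.mid t) (.cp p c) := by simp [AdV, rel]
theorem a_ma : ¬ AdV P f inc (.mid t) (.att d p c i) := by simp [AdV, rel]
theorem a_sr : ¬ AdV P f inc (.set t) .root := by simp [AdV, rel]
theorem a_sm : AdV P f inc (.set t) (.mid t') ↔ t' = t := by simp [AdV, rel]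
theorem a_ss : ¬ AdV P f inc (.set t) (.set t') := by simp [AdV, rel]
theorem a_sc : AdV P f inc (.set t) (.cp p c) ↔ p = P.q ∧ inc t c := by simp [AdV, rel]
theorem a_sa : ¬ AdV P f inc (.set t) (.att d p c i) := by simp [AdV, rel]
theorem a_cr : AdV P f inc (.cp p c) .root ↔ P.H.Adj P.u p ∨ (f ∧ p = P.q) := by simp [AdV, rel]
theorem a_cm : ¬ AdV P f inc (.cp p c) (.mid t) := by simp [AdV, rel]
theorem a_cs : AdV P f inc (.cp p c) (.set t) ↔ p = P.q ∧ inc t c := by simp [AdV, rel]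
theorem a_ca : AdV P f inc (.cp p c) (.att d p' c' i) ↔ c = c' ∧ p = d ∧ P.N2 p' := by
  simp [AdV, rel]
theorem a_ar : AdV P f inc (.att d p c i) .root ↔ P.N1 p := by simp [AdV, rel]
theorem a_am : ¬ AdV P f inc (.att d p c i) (.mid t) := by simp [AdV, rel]
theorem a_as : ¬ AdV P f inc (.att d p c i) (.set t) := by simp [AdV, rel]
theorem a_ac : AdV P f inc (.att d p' c' i) (.cp p c) ↔ c = c' ∧ p = d ∧ P.N2 p' := by
  simp [AdV, rel]
theorem a_aa : AdV P f inc (.att d p c i) (.att d' p' c' i') ↔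
    d = d' ∧ c = c' ∧ i = i' ∧ P.H.Adj p p' := by
  simp only [AdV, rel]
  constructor
  · rintro ⟨-, h | h⟩
    · exact h
    · exact ⟨h.1.symm, h.2.1.symm, h.2.2.1.symm, h.2.2.2.symm⟩
  · rintro ⟨rfl, rfl, rfl, h⟩
    exact ⟨by simp [h.ne], Or.inl ⟨rfl, rfl, rfl, h⟩⟩
theorem a_cc (hX : ∀ p p', P.X p p' → P.X p' p) : AdV P f inc (.cp p c) (.cp p' c') ↔
    (c = c' ∧ P.H.Adj p p') ∨ (c ≠ c' ∧ P.X p p') := by
  simp only [AdV, rel]
  constructor
  · rintro ⟨-, h | h⟩
    · exact h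
    · exact h.imp (fun h => ⟨h.1.symm, h.2.symm⟩) fun h => ⟨h.1.symm, hX _ _ h.2⟩
  · intro h
    refine ⟨fun e => ?_, Or.inl h⟩
    simp only [VX.cp.injEq] at e
    obtain ⟨rfl, rfl⟩ := e
    rcases h with h | h
    · exact h.2.ne rfl
    · exact h.1 rfl

end

/-- an induced copy in the final graph -/
structure Em (P : Par m) (inc : ℕ → ℕ × ℕ → Prop) (f : Fin m → VX m) : Prop where
  inj : Injective f
  good : ∀ i, Good P (f i)
  adj : ∀ i j, i ≠ j → (AdV P True inc (f i) (f j) ↔ P.H.Adj i j)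

/-- the neighbours of an inner vertex of a copy -/
theorem cp_case {P : Par m} (hF : Fit P) {inc : ℕ → ℕ × ℕ → Prop} {f : Fin m → VX m}
    (hf : Em P inc f) {w : Fin m} (hw : ∀ v, v ≠ w → P.H.Adj w v) (hn : ¬ P.H.Adj P.u P.q)
    {p : Fin m} {c : ℕ × ℕ} (hz : f w = .cp p c) (hd : ¬ P.Dg p) (hX : ∀ p', ¬ P.X p p') :
    False := by
  have hpq : p ≠ P.q := fun e => hd (e ▸ hF.dq)
  have key : ∀ i, f i = .root ∨ ∃ p', p' ≠ P.u ∧ f i = .cp p' c := fun i => by
    by_cases e : i = w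
    · exact Or.inr ⟨p, by have := hf.good w; rwa [hz] at this, e ▸ hz⟩
    have h1 := (hf.adj w i (Ne.symm e)).2 (hw i e)
    have h2 := hf.good i
    rw [hz] at h1
    cases hi : f i with
    | root => exact Or.inl rfl
    | mid t => rw [hi] at h1; exact absurd h1 a_cm
    | set t => rw [hi, a_cs] at h1; exact absurd h1.1 hpq
    | cp p' c' =>
      rw [hi, a_cc hF.xs] at h1
      rw [hi] at h2
      rcases h1 with h1 | h1
      · exact Or.inr ⟨p', h2, by rw [h1.1]⟩
      · exact absurd h1.2 (hX p')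
    | att d p' c' i' =>
      rw [hi, a_ca] at h1
      rw [hi] at h2
      exact absurd h2.1 (h1.2.1 ▸ hd)
  let φ : Fin m → Fin m := fun i => match f i with
    | .cp p' _ => p'
    | _ => P.u
  have φr : ∀ i, f i = .root → φ i = P.u := fun i h => by simp only [φ, h]
  have φc : ∀ i p' c', f i = .cp p' c' → φ i = p' := fun i p' c' h => by simp only [φ, h]
  have inj : ∀ i j, φ i = φ j → i = j := fun i j e => by
    apply hf.inj
    rcases key i with h | ⟨p', h, h'⟩ <;> rcases key j with g | ⟨q', g, g'⟩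
    · rw [h, g]
    · exact absurd ((φr i h).symm.trans (e.trans (φc j _ _ g'))).symm g
    · exact absurd ((φc i _ _ h').symm.trans (e.trans (φr j g))) h
    · rw [h', g', ← φc i _ _ h', e, ← φc j _ _ g']
  have R : ∀ i j, (i ≠ j ∧ ¬ P.H.Adj i j) → (φ i ≠ φ j ∧ ¬ P.H.Adj (φ i) (φ j)) := fun i j hij => by
    have hadj := hf.adj i j hij.1
    refine ⟨fun e => hij.1 (inj i j e), fun hA => hij.2 (hadj.1 ?_)⟩
    rcases key i with h | ⟨p', h, h'⟩ <;> rcases key j with g | ⟨q', g, g'⟩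
    · rw [φr i h, φr j g] at hA; exact absurd hA (SimpleGraph.irrefl _)
    · rw [φr i h, φc j _ _ g'] at hA; rw [h, g', a_rc]; exact Or.inl hA
    · rw [φr j g, φc i _ _ h'] at hA; rw [g, h', a_cr]; exact Or.inl hA.symm
    · rw [φc i _ _ h', φc j _ _ g'] at hA
      rw [h', g', a_cc hF.xs]; exact Or.inl ⟨rfl, hA⟩
  obtain ⟨i, j, ⟨-, hij⟩, e1, e2⟩ := cnt_on (C := fun _ => True)
    (R := fun i j => i ≠ j ∧ ¬ P.H.Adj i j) φ (fun i j _ _ => inj i j)
    (fun _ _ _ => ⟨trivial, trivial⟩) R (a := P.u) (b := P.q) ⟨hF.qu.symm, hn⟩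
  have hi : f i = .root := by
    rcases key i with h | ⟨p', h, h'⟩
    · exact h
    · exact absurd ((φc i p' c h').symm.trans e1) h
  have hj : f j = .cp P.q c := by
    rcases key j with h | ⟨p', h, h'⟩
    · exact absurd ((φr j h).symm.trans e2) hF.qu.symm
    · rw [h', ← φc j p' c h', e2]
  have hne : i ≠ j := fun e => by rw [e, hj] at hi; cases hi
  refine hij ((hf.adj i j hne).1 ?_)
  rw [hi, hj, a_rc]; exact Or.inr ⟨trivial, rfl⟩

/-- the neighbours of a vertex of an attached copy -/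
theorem att_case {P : Par m} {inc : ℕ → ℕ × ℕ → Prop} {f : Fin m → VX m}
    (hf : Em P inc f) {w : Fin m} (hw : ∀ v, v ≠ w → P.H.Adj w v) (hxw : P.x ≠ w)
    (h1 : ∀ p, P.N1 p ↔ p = w) (h2 : ∀ p, P.N2 p ↔ p ≠ w ∧ P.H.Adj P.x p)
    {n : Fin m} (hnw : n ≠ w) (hn : P.H.Adj P.x n)
    {d p : Fin m} {c : ℕ × ℕ} {l : ℕ} (hz : f w = .att d p c l) : False := by
  have hp : p ≠ P.x := by have := hf.good w; rw [hz] at this; exact this.2
  -- the vertex that plays the role of `x`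
  have key : ∀ i, ((f i = .root ∧ p = w) ∨ (f i = .cp d c ∧ p ≠ w)) ∨
      ∃ p', p' ≠ P.x ∧ f i = .att d p' c l := fun i => by
    by_cases e : i = w
    · exact Or.inr ⟨p, hp, e ▸ hz⟩
    have h3 := (hf.adj w i (Ne.symm e)).2 (hw i e)
    have h4 := hf.good i
    rw [hz] at h3
    cases hi : f i with
    | root => rw [hi, a_ar, h1] at h3; exact Or.inl (Or.inl ⟨rfl, h3⟩)
    | mid t => rw [hi] at h3; exact absurd h3 a_am
    | set t => rw [hi] at h3; exact absurd h3 a_as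
    | cp p' c' =>
      rw [hi, a_ac, h2] at h3
      exact Or.inl (Or.inr ⟨by rw [h3.1, h3.2.1], h3.2.2.1⟩)
    | att d' p' c' i' =>
      rw [hi, a_aa] at h3
      rw [hi] at h4
      exact Or.inr ⟨p', h4.2, by rw [h3.1, h3.2.1, h3.2.2.1]⟩
  let φ : Fin m → Fin m := fun i => match f i with
    | .att _ p' _ _ => p'
    | _ => P.x
  have φr : ∀ i, ((f i = .root ∧ p = w) ∨ (f i = .cp d c ∧ p ≠ w)) → φ i = P.x := fun i h => by
    rcases h with h | h <;> simp only [φ, h.1]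
  have φc : ∀ i p', f i = .att d p' c l → φ i = p' := fun i p' h => by simp only [φ, h]
  have same : ∀ i j, ((f i = .root ∧ p = w) ∨ (f i = .cp d c ∧ p ≠ w)) →
      ((f j = .root ∧ p = w) ∨ (f j = .cp d c ∧ p ≠ w)) → f i = f j := fun i j h h' => by
    rcases h with h | h <;> rcases h' with h' | h'
    · rw [h.1, h'.1]
    · exact absurd h.2 h'.2
    · exact absurd h'.2 h.2
    · rw [h.1, h'.1]
  have inj : ∀ i j, φ i = φ j → i = j := fun i j e => by
    apply hf.inj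
    rcases key i with h | ⟨p', h, h'⟩ <;> rcases key j with g | ⟨q', g, g'⟩
    · exact same i j h g
    · exact absurd ((φr i h).symm.trans (e.trans (φc j _ g'))).symm g
    · exact absurd ((φc i _ h').symm.trans (e.trans (φr j g))) h
    · rw [h', g', ← φc i _ h', e, ← φc j _ g']
  have half : ∀ i j q', ((f i = .root ∧ p = w) ∨ (f i = .cp d c ∧ p ≠ w)) → q' ≠ P.x →
      f j = .att d q' c l → P.H.Adj i j → P.H.Adj P.x q' ∧ (p = w ↔ q' = w) :=
    fun i j q' h g g' hij => by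
    have h3 := (hf.adj i j hij.ne).2 hij
    rcases h with h | h
    · rw [h.1, g', a_ra, h1] at h3
      exact ⟨h3 ▸ (hw _ hxw).symm, iff_of_true h.2 h3⟩
    · rw [h.1, g', a_ca, h2] at h3
      exact ⟨h3.2.2.2, iff_of_false h.2 h3.2.2.1⟩
  have R : ∀ i j, P.H.Adj i j → P.H.Adj (φ i) (φ j) := fun i j hij => by
    rcases key i with h | ⟨p', h, h'⟩ <;> rcases key j with g | ⟨q', g, g'⟩
    · exact absurd (hf.inj (same i j h g)) hij.ne
    · rw [φr i h, φc j _ g']; exact (half i j q' h g g' hij).1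
    · rw [φr j g, φc i _ h']; exact (half j i p' g h h' hij.symm).1.symm
    · have h3 := (hf.adj i j hij.ne).2 hij
      rw [h', g', a_aa] at h3
      rw [φc i _ h', φc j _ g']; exact h3.2.2.2
  have fin : ∀ n, P.H.Adj P.x n → (p = w ↔ n = w) := fun n hn => by
    obtain ⟨i, j, hij, e1, e2⟩ := cnt_on (C := fun _ => True) (R := fun i j => P.H.Adj i j) φ
      (fun i j _ _ e => inj i j e) (fun _ _ _ => ⟨trivial, trivial⟩) R hn
    rcases key i with h | ⟨p', h, h'⟩
    · rcases key j with g | ⟨q', g, g'⟩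
      · exact absurd ((φr j g).symm.trans e2).symm hn.ne'
      · have := (half i j q' h g g' hij).2
        rwa [← φc j _ g', e2] at this
    · exact absurd ((φc i _ h').symm.trans e1) h
  have f1 := fin n hn
  have f2 := fin w (hw _ hxw).symm
  exact hnw (f1.1 (f2.2 rfl))

/-- no copy of `C` in `C - v₁ + w` -/
theorem lemK {H : SimpleGraph (Fin m)} {w : Fin m} (hw : ∀ v, v ≠ w → H.Adj w v)
    {C : Fin m → Prop} {v1 v2 : Fin m} (h1 : C v1) (h2 : C v2) (hne : v1 ≠ v2)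
    (hn : ¬ H.Adj v1 v2) (g : Fin m → Fin m) (inj : ∀ i j, C i → C j → g i = g j → i = j)
    (hg : ∀ i, C i → g i = w ∨ (C (g i) ∧ g i ≠ v1))
    (hA : ∀ i j, C i → C j → i ≠ j → ¬ H.Adj i j → ¬ H.Adj (g i) (g j)) : False := by
  classical
  let φ : Fin m → Fin m := fun i => if g i = w then v1 else g i
  have φ1 : ∀ i, g i = w → φ i = v1 := fun i h => if_pos h
  have φ2 : ∀ i, g i ≠ w → φ i = g i := fun i h => if_neg h
  have nw : ∀ i j, C i → C j → i ≠ j → ¬ H.Adj i j → g i ≠ w := fun i j hi hj hij hn e => by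
    refine hA i j hi hj hij hn (e ▸ hw _ fun e' => hij (inj i j hi hj (e.trans e'.symm)))
  have inj' : ∀ i j, C i → C j → φ i = φ j → i = j := fun i j hi hj e => by
    apply inj i j hi hj
    by_cases a : g i = w <;> by_cases b : g j = w
    · rw [a, b]
    · rw [φ1 i a, φ2 j b] at e; exact absurd e.symm ((hg j hj).resolve_left b).2
    · rw [φ2 i a, φ1 j b] at e; exact absurd e ((hg i hi).resolve_left a).2
    · rwa [φ2 i a, φ2 j b] at e
  have R : ∀ i j, ((C i ∧ C j) ∧ i ≠ j ∧ ¬ H.Adj i j) →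
      ((C (φ i) ∧ C (φ j)) ∧ φ i ≠ φ j ∧ ¬ H.Adj (φ i) (φ j)) := fun i j h => by
    have a := nw i j h.1.1 h.1.2 h.2.1 h.2.2
    have b := nw j i h.1.2 h.1.1 h.2.1.symm fun e => h.2.2 e.symm
    rw [φ2 i a, φ2 j b]
    exact ⟨⟨((hg i h.1.1).resolve_left a).1, ((hg j h.1.2).resolve_left b).1⟩,
      fun e => h.2.1 (inj i j h.1.1 h.1.2 e), hA i j h.1.1 h.1.2 h.2.1 h.2.2⟩
  obtain ⟨i, j, h, e1, -⟩ := cnt_on (C := C) (R := fun i j => (C i ∧ C j) ∧ i ≠ j ∧ ¬ H.Adj i j) φ
    inj' (fun i j h => h.1) R (a := v1) (b := v2) ⟨⟨h1, h2⟩, hne, hn⟩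
  have := nw i j h.1.1 h.1.2 h.2.1 h.2.2
  rw [φ2 i this] at e1
  exact ((hg i h.1.1).resolve_left this).2 e1

end Pool.Agent.Helper89.HF
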