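import Pool.Agent.Helper89.HF.A

/-! Graphs with a universal vertex `w` such that `H - w` is not a disjoint union of cliques. -/

namespace Pool.Agent.Helper89.HF

open Pool.Agent.H22.CT Pool.Agent.H38.NP Pool.Agent.H36.Par SimpleGraph Function

variable {m : ℕ}

/-- a step inside `H - w` -/
def st (H : SimpleGraph (Fin m)) (w a b : Fin m) : Prop := (a ≠ w ∧ b ≠ w) ∧ H.Adj a b

def PA (H : SimpleGraph (Fin m)) (w u q : Fin m) : Par m where
  H := H
  u := u
  q := q
  x := u
  N1 := fun p => p = w
  N2 := fun p => p ≠ w ∧ H.Adj u p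
  X := fun _ _ => False
  Dg := fun p => p = q

theorem A1 {H : SimpleGraph (Fin m)} {w u q : Fin m} (hw : ∀ v, v ≠ w → H.Adj w v)
    (huw : u ≠ w) (huq : u ≠ q) (hn : ¬ H.Adj u q)
    (hr : Relation.ReflTransGen (st H w) u q) : W2Hard (Con₁ H) := by
  have hqw : q ≠ w := fun e => hn (e ▸ (hw u huw).symm)
  have hF : Fit (PA H w u q) := {
    xs := fun _ _ h => h.elim
    ns := fun p => by
      by_cases e : p = w
      · simp only [PA, e, true_or, iff_true]; exact (hw u huw).symm
      · simp [PA, e]
    dg := fun _ _ h => h.elim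
    dq := rfl
    qu := huq.symm }
  refine U_hard hF fun inc f inj good adj => ?_
  have hf : Em (PA H w u q) inc f := ⟨inj, good, adj⟩
  change ∀ i j, i ≠ j → (AdV (PA H w u q) True inc (f i) (f j) ↔ H.Adj i j) at adj
  let C : Fin m → Prop := fun p => Relation.ReflTransGen (st H w) u p
  have Cu : C u := Relation.ReflTransGen.refl
  have Cq : C q := hr
  have Cw : ∀ p, C p → p ≠ w := fun p h => by
    cases h with
    | refl => exact huw
    | tail _ h => exact h.1.2
  obtain ⟨n, hn1, hnr⟩ : ∃ n, st H w u n ∧ Relation.ReflTransGen (st H w) n q :=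
    (Relation.ReflTransGen.cases_head hr).resolve_left huq
  have hnw := hn1.1.2
  have Cn : C n := Relation.ReflTransGen.single hn1
  have un : AdV (PA H w u q) True inc (f u) (f n) := (adj u n hn1.2.ne).2 hn1.2
  have zu : AdV (PA H w u q) True inc (f w) (f u) := (adj w u huw.symm).2 (hw u huw)
  have zn : AdV (PA H w u q) True inc (f w) (f n) := (adj w n hnw.symm).2 (hw n hnw)
  -- blocks
  have ind : ∀ B : VX m → Prop, B (f u) → (∀ a b, B (f a) → C a → C b → H.Adj a b →
      AdV (PA H w u q) True inc (f a) (f b) → AdV (PA H w u q) True inc (f w) (f b) → B (f b)) →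
      ∀ p, C p → B (f p) := fun B h0 hs p h => by
    induction h with
    | refl => exact h0
    | @tail a b h1 h2 ih =>
      exact hs a b ih h1 (h1.tail h2) h2.2 ((adj a b h2.2.ne).2 h2.2)
        ((adj w b h2.1.2.symm).2 (hw b h2.1.2))
  cases hz : f w with
  | root =>
    rw [hz] at zu zn ind
    cases hu : f u with
    | root => rw [hu] at zu; exact a_rr zu
    | mid t =>
      rw [hu] at un
      cases h2 : f n with
      | root => rw [h2] at zn; exact a_rr zn
      | mid t => rw [h2] at un; exact a_mm un
      | set t => rw [h2] at zn; exact a_rs zn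
      | cp p c => rw [h2] at un; exact a_mc un
      | att d p c i => rw [h2] at un; exact a_ma un
    | set t => rw [hu] at zu; exact a_rs zu
    | att d p c i =>
      rw [hu] at un zu
      rw [a_ra] at zu
      have zu : p = w := zu
      cases h2 : f n with
      | root => rw [h2] at zn; exact a_rr zn
      | mid t => rw [h2] at un; exact a_am un
      | set t => rw [h2] at zn; exact a_rs zn
      | cp p' c' => rw [h2, a_ac] at un; exact un.2.2.1 zu
      | att d' p' c' i' =>
        rw [h2, a_ra] at zn
        rw [h2, a_aa] at un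
        have zn : p' = w := zn
        exact un.2.2.2.ne (zu.trans zn.symm)
    | cp p0 c0 =>
      have B : ∀ a, C a → ∃ p', (H.Adj u p' ∨ p' = q) ∧ f a = .cp p' c0 := by
        refine ind (fun y => ∃ p', (H.Adj u p' ∨ p' = q) ∧ y = .cp p' c0) ?_ ?_
        · rw [hu, a_rc] at zu
          exact ⟨p0, zu.imp id And.right, hu⟩
        · rintro a b ⟨p', h1, h2⟩ - - - hab hb
          cases h3 : f b with
          | root => rw [h3] at hb; exact absurd hb a_rr
          | mid t => rw [h2, h3] at hab; exact absurd hab a_cm
          | set t => rw [h3] at hb; exact absurd hb a_rs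
          | att d p c i =>
            rw [h3, a_ra] at hb
            rw [h2, h3, a_ca] at hab
            exact absurd hb hab.2.2.1
          | cp p c =>
            rw [h3, a_rc] at hb
            rw [h2, h3, a_cc hF.xs] at hab
            rcases hab with hab | hab
            · exact ⟨p, hb.imp id And.right, by rw [hab.1]⟩
            · exact hab.2.elim
      choose! g g1 g2 using B
      refine lemK hw Cu Cq huq hn g (fun i j hi hj e => inj (by rw [g2 i hi, g2 j hj, e]))
        (fun i hi => ?_) (fun i j hi hj hij hne hA => hne ((adj i j hij).1 ?_))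
      · by_cases e : g i = w
        · exact Or.inl e
        · rcases g1 i hi with h | h
          · exact Or.inr ⟨Relation.ReflTransGen.single ⟨⟨huw, e⟩, h⟩, h.ne'⟩
          · exact Or.inr ⟨h ▸ Cq, h ▸ huq.symm⟩
      · rw [g2 i hi, g2 j hj, a_cc hF.xs]
        exact Or.inl ⟨rfl, hA⟩
  | mid t =>
    rw [hz] at zu zn
    cases hu : f u with
    | root =>
      rw [hu] at un
      cases h2 : f n with
      | root => rw [h2] at un; exact a_rr un
      | mid t => rw [h2] at zn; exact a_mm zn
      | set t => rw [h2] at un; exact a_rs un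
      | cp p c => rw [h2] at zn; exact a_mc zn
      | att d p c i => rw [h2] at zn; exact a_ma zn
    | mid t => rw [hu] at zu; exact a_mm zu
    | set t' =>
      rw [hu] at un
      cases h2 : f n with
      | root => rw [h2] at un; exact a_sr un
      | mid t => rw [h2] at zn; exact a_mm zn
      | set t => rw [h2] at un; exact a_ss un
      | cp p c => rw [h2] at zn; exact a_mc zn
      | att d p c i => rw [h2] at zn; exact a_ma zn
    | cp p c => rw [hu] at zu; exact a_mc zu
    | att d p c i => rw [hu] at zu; exact a_ma zu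
  | set t =>
    rw [hz] at zu zn
    have key : ∀ y, AdV (PA H w u q) True inc (.set t) y →
        (∃ t', y = .mid t') ∨ ∃ c, y = .cp q c := fun y h => by
      cases y with
      | root => exact absurd h a_sr
      | mid t => exact Or.inl ⟨t, rfl⟩
      | set t => exact absurd h a_ss
      | cp p c => rw [a_sc] at h; exact Or.inr ⟨c, by rw [h.1]; rfl⟩
      | att d p c i => exact absurd h a_sa
    rcases key _ zu with ⟨t1, h1⟩ | ⟨c1, h1⟩ <;> rcases key _ zn with ⟨t2, h2⟩ | ⟨c2, h2⟩ <;>
      rw [h1, h2] at un
    · exact a_mm un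
    · exact a_mc un
    · exact a_cm un
    · rw [a_cc hF.xs] at un
      rcases un with h | h
      · exact h.2.ne rfl
      · exact h.2
  | cp p c =>
    by_cases hpq : p = q
    · rw [hpq] at hz
      rw [hz] at zu zn ind
      have key : ∀ y, AdV (PA H w u q) True inc (.cp q c) y →
          y = .root ∨ (∃ t', y = .set t') ∨ (∃ p, H.Adj q p ∧ y = .cp p c) ∨
            ∃ p i, (p ≠ w ∧ H.Adj u p) ∧ y = .att q p c i := fun y h => by
        cases y with
        | root => exact Or.inl rfl
        | mid t => exact absurd h a_cm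
        | set t => exact Or.inr (Or.inl ⟨t, rfl⟩)
        | cp p' c' =>
          rw [a_cc hF.xs] at h
          rcases h with h | h
          · exact Or.inr (Or.inr (Or.inl ⟨p', h.2, by rw [h.1]⟩))
          · exact h.2.elim
        | att d p' c' i' =>
          rw [a_ca] at h
          exact Or.inr (Or.inr (Or.inr ⟨p', i', h.2.2, by rw [h.1, h.2.1]⟩))
      -- the block of the root
      have blk : (f u = .root ∨ ∃ p, H.Adj q p ∧ f u = .cp p c) → False := fun h0 => by
        have B : ∀ a, C a → ∃ p', (p' = u ∧ f a = .root) ∨ (H.Adj q p' ∧ f a = .cp p' c) := by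
          refine ind (fun y => ∃ p', (p' = u ∧ y = .root) ∨ (H.Adj q p' ∧ y = .cp p' c)) ?_ ?_
          · rcases h0 with h | ⟨p, h, h'⟩
            · exact ⟨u, Or.inl ⟨rfl, h⟩⟩
            · exact ⟨p, Or.inr ⟨h, h'⟩⟩
          · rintro a b ⟨p', h1⟩ - - - hab hb
            rcases key _ hb with h | ⟨t', h⟩ | ⟨p, h, h'⟩ | ⟨p, i, h, h'⟩
            · exact ⟨u, Or.inl ⟨rfl, h⟩⟩
            · rcases h1 with h1 | h1 <;> rw [h1.2, h] at hab
              · exact absurd hab a_rs
              · rw [a_cs] at hab
                exact absurd hab.1.symm h1.1.ne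
            · exact ⟨p, Or.inr ⟨h, h'⟩⟩
            · rcases h1 with h1 | h1 <;> rw [h1.2, h'] at hab
              · rw [a_ra] at hab
                exact absurd hab h.1
              · rw [a_ca] at hab
                exact absurd hab.2.1.symm h1.1.ne
        choose! g g1 using B
        have hpu : ∀ i, f i = .cp u c → False := fun i h => by
          have := good i; rw [h] at this; exact this rfl
        refine lemK hw Cq Cu huq.symm (fun h => hn h.symm) g (fun i j hi hj e => inj ?_)
          (fun i hi => ?_) (fun i j hi hj hij hne hA => hne ((adj i j hij).1 ?_))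
        · rcases g1 i hi with h | h <;> rcases g1 j hj with h' | h'
          · rw [h.2, h'.2]
          · rw [h.1] at e; rw [← e] at h'; exact absurd h'.2 (hpu j)
          · rw [h'.1] at e; rw [e] at h; exact absurd h.2 (hpu i)
          · rw [h.2, h'.2, e]
        · rcases g1 i hi with h | h
          · rw [h.1]; exact Or.inr ⟨Cu, huq⟩
          · by_cases e : g i = w
            · exact Or.inl e
            · exact Or.inr ⟨hr.tail ⟨⟨hqw, e⟩, h.1⟩, h.1.ne'⟩
        · rcases g1 i hi with h | h <;> rcases g1 j hj with h' | h'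
          · rw [h.1, h'.1] at hA; exact absurd hA (SimpleGraph.irrefl _)
          · rw [h.2, h'.2, a_rc]; rw [h.1] at hA; exact Or.inl hA
          · rw [h.2, h'.2, a_cr]; rw [h'.1] at hA; exact Or.inl hA.symm
          · rw [h.2, h'.2, a_cc hF.xs]; exact Or.inl ⟨rfl, hA⟩
      rcases key _ zu with h | ⟨t', h⟩ | ⟨p, h, h'⟩ | ⟨p, i, h, h'⟩
      · exact blk (Or.inl h)
      · rw [h] at un
        rcases key _ zn with g | ⟨t', g⟩ | ⟨p, g, g'⟩ | ⟨p, i, g, g'⟩
        · rw [g] at un; exact a_sr un
        · rw [g] at un; exact a_ss un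
        · rw [g', a_sc] at un; exact g.ne un.1.symm
        · rw [g'] at un; exact a_sa un
      · exact blk (Or.inr ⟨p, h, h'⟩)
      · have B : ∀ a, C a → ∃ p, (p ≠ w ∧ H.Adj u p) ∧ f a = .att q p c i := by
          refine ind (fun y => ∃ p, (p ≠ w ∧ H.Adj u p) ∧ y = .att q p c i) ⟨p, h, h'⟩ ?_
          rintro a b ⟨p', h1, h2⟩ - - - hab hb
          rcases key _ hb with h | ⟨t', h⟩ | ⟨p, h, h'⟩ | ⟨p, i', h, h'⟩
          · rw [h2, h, a_ar] at hab
            exact absurd hab h1.1
          · rw [h2, h] at hab; exact absurd hab a_as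
          · rw [h2, h', a_ac] at hab
            exact absurd hab.2.1.symm h.ne
          · rw [h2, h', a_aa] at hab
            exact ⟨p, h, by rw [h', hab.2.2.1]⟩
        choose! g g1 g2 using B
        obtain ⟨a, b, ⟨ha, -⟩, e, -⟩ := cnt_on (C := C) (R := fun i j => C i ∧ i = j) g
          (fun i j hi hj e => inj (by rw [g2 i hi, g2 j hj, e]))
          (fun i j h => ⟨h.1, h.2 ▸ h.1⟩)
          (fun i j h => ⟨Relation.ReflTransGen.single ⟨⟨huw, (g1 i h.1).1⟩, (g1 i h.1).2⟩,
            congrArg g h.2⟩) (a := u) (b := u) ⟨Cu, rfl⟩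
        exact (g1 a ha).2.ne e.symm
    · exact cp_case hF hf hw hn hz hpq fun _ h => h
  | att d p c i =>
    exact att_case hf hw huw (fun _ => Iff.rfl) (fun _ => Iff.rfl) hnw hn1.2 hz

end Pool.Agent.Helper89.HF
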