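import Pool.Agent.Helper89.HF.A1

/-! Graphs with a universal vertex `w` such that `H - w` is a disjoint union of cliques. -/

namespace Pool.Agent.Helper89.HF

open Pool.Agent.H22.CT Pool.Agent.H38.NP Pool.Agent.H36.Par SimpleGraph Function

variable {m : ℕ}

def PX (H : SimpleGraph (Fin m)) (w u q x : Fin m) (X : Fin m → Fin m → Prop)
    (Dg : Fin m → Prop) : Par m where
  H := H
  u := u
  q := q
  x := x
  N1 := fun p => p = w
  N2 := fun p => p ≠ w ∧ H.Adj x p
  X := X
  Dg := Dg

section
variable {H : SimpleGraph (Fin m)} {w u q x : Fin m} {X : Fin m → Fin m → Prop}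
  {Dg : Fin m → Prop} {inc : ℕ → ℕ × ℕ → Prop} {f : Fin m → VX m}

theorem fitX (hw : ∀ v, v ≠ w → H.Adj w v) (hxw : x ≠ w) (hX : ∀ p p', X p p' → X p' p)
    (hD : ∀ p p', X p p' → ¬ H.Adj u p' → Dg p) (hq : Dg q) (huq : u ≠ q) :
    Fit (PX H w u q x X Dg) where
  xs := hX
  ns := fun p => by
    by_cases e : p = w
    · simp only [PX, e, true_or, iff_true]; exact (hw x hxw).symm
    · simp [PX, e]
  dg := hD
  dq := hq
  qu := huq.symm

theorem nb_root {y : VX m} (h : AdV (PX H w u q x X Dg) True inc .root y) :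
    (∃ t, y = .mid t) ∨ (∃ p c, (H.Adj u p ∨ p = q) ∧ y = .cp p c) ∨
      ∃ d c i, y = .att d w c i := by
  cases y with
  | root => exact absurd h a_rr
  | mid t => exact Or.inl ⟨t, rfl⟩
  | set t => exact absurd h a_rs
  | cp p c => rw [a_rc] at h; exact Or.inr (Or.inl ⟨p, c, h.imp id And.right, rfl⟩)
  | att d p c i =>
    rw [a_ra] at h
    have h : p = w := h
    exact Or.inr (Or.inr ⟨d, c, i, by rw [h]⟩)

theorem nb_cp (hX : ∀ p p', X p p' → X p' p) {p : Fin m} {c : ℕ × ℕ} {y : VX m}
    (h : AdV (PX H w u q x X Dg) True inc (.cp p c) y) :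
    ((H.Adj u p ∨ p = q) ∧ y = .root) ∨ (p = q ∧ ∃ t, inc t c ∧ y = .set t) ∨
      (∃ p', H.Adj p p' ∧ y = .cp p' c) ∨ (∃ p' c', c ≠ c' ∧ X p p' ∧ y = .cp p' c') ∨
        ∃ p' i, (p' ≠ w ∧ H.Adj x p') ∧ y = .att p p' c i := by
  cases y with
  | root => rw [a_cr] at h; exact Or.inl ⟨h.imp id And.right, rfl⟩
  | mid t => exact absurd h a_cm
  | set t => rw [a_cs] at h; exact Or.inr (Or.inl ⟨h.1, t, h.2, rfl⟩)
  | cp p' c' =>
    rw [a_cc (P := PX H w u q x X Dg) hX] at h
    rcases h with h | h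
    · exact Or.inr (Or.inr (Or.inl ⟨p', h.2, by rw [h.1]⟩))
    · exact Or.inr (Or.inr (Or.inr (Or.inl ⟨p', c', h.1, h.2, rfl⟩)))
  | att d p' c' i' =>
    rw [a_ca] at h
    exact Or.inr (Or.inr (Or.inr (Or.inr ⟨p', i', h.2.2, by rw [h.1, h.2.1]⟩)))

theorem nb_set {t : ℕ} {y : VX m} (h : AdV (PX H w u q x X Dg) True inc (.set t) y) :
    (∃ t', y = .mid t') ∨ ∃ c, y = .cp q c := by
  cases y with
  | root => exact absurd h a_sr
  | mid t => exact Or.inl ⟨t, rfl⟩
  | set t => exact absurd h a_ss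
  | cp p c => rw [a_sc] at h; exact Or.inr ⟨c, by rw [h.1]; rfl⟩
  | att d p c i => exact absurd h a_sa

theorem nb_mid {P : Par m} {t : ℕ} {y : VX m} (h : AdV P True inc (.mid t) y) :
    y = .root ∨ ∃ t', y = .set t' := by
  cases y with
  | root => exact Or.inl rfl
  | mid t => exact absurd h a_mm
  | set t => exact Or.inr ⟨t, rfl⟩
  | cp p c => exact absurd h a_mc
  | att d p c i => exact absurd h a_ma

theorem mid_case {P : Par m} (hf : Em P inc f) (hw : ∀ v, v ≠ w → P.H.Adj w v)
    {t : ℕ} (hz : f w = .mid t) {a b : Fin m} (ha : a ≠ w) (hb : b ≠ w) (hab : P.H.Adj a b) :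
    False := by
  have h1 := (hf.adj w a ha.symm).2 (hw a ha)
  have h2 := (hf.adj w b hb.symm).2 (hw b hb)
  have h3 := (hf.adj a b hab.ne).2 hab
  rw [hz] at h1 h2
  rcases nb_mid h1 with e | ⟨t1, e⟩ <;> rcases nb_mid h2 with e' | ⟨t2, e'⟩ <;> rw [e, e'] at h3
  · exact a_rr h3
  · exact a_rs h3
  · exact a_sr h3
  · exact a_ss h3

theorem set_case (hX : ∀ p p', X p p' → X p' p) (hf : Em (PX H w u q x X Dg) inc f)
    (hw : ∀ v, v ≠ w → H.Adj w v) (hq : ¬ X q q)
    {t : ℕ} (hz : f w = .set t) {a b : Fin m} (ha : a ≠ w) (hb : b ≠ w) (hab : H.Adj a b) :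
    False := by
  have h1 := (hf.adj w a ha.symm).2 (hw a ha)
  have h2 := (hf.adj w b hb.symm).2 (hw b hb)
  have h3 := (hf.adj a b hab.ne).2 hab
  rw [hz] at h1 h2
  rcases nb_set h1 with ⟨t1, e⟩ | ⟨c1, e⟩ <;> rcases nb_set h2 with ⟨t2, e'⟩ | ⟨c2, e'⟩ <;>
    rw [e, e'] at h3
  · exact a_mm h3
  · exact a_mc h3
  · exact a_cm h3
  · rw [a_cc (P := PX H w u q x X Dg) hX] at h3
    rcases h3 with h | h
    · exact h.2.ne rfl
    · exact hq h.2

end

/-! ### components of size two -/

/-- an isolated vertex, a component `{q, q'}` and another edge -/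
theorem A2a {H : SimpleGraph (Fin m)} {w u q q' s s' : Fin m} (hw : ∀ v, v ≠ w → H.Adj w v)
    (huw : u ≠ w) (hu : ∀ v, H.Adj u v → v = w) (hqq : H.Adj q q') (hqw : q ≠ w) (hqw' : q' ≠ w)
    (hq1 : ∀ v, H.Adj q v → v = w ∨ v = q') (hq2 : ∀ v, H.Adj q' v → v = w ∨ v = q)
    (hss : H.Adj s s') (hsw : s ≠ w) (hsw' : s' ≠ w) (h1 : s ≠ q) (h2 : s ≠ q') (h3 : s' ≠ q)
    (h4 : s' ≠ q') : W2Hard (Con₁ H) := by
  classical
  have huq : u ≠ q := fun e => hqw' (hu q' (e ▸ hqq))
  have huq' : u ≠ q' := fun e => hqw (hu q (e ▸ hqq.symm))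
  let X : Fin m → Fin m → Prop := fun p p' => (p = q ∧ (p' = q ∨ p' = q')) ∨ (p = q' ∧ p' = q)
  have hX : ∀ p p', X p p' → X p' p := fun p p' h => by
    simp only [X] at h ⊢; tauto
  have hF := fitX (H := H) (w := w) (u := u) (q := q) (x := q) (X := X)
    (Dg := fun p => p = q ∨ p = q') hw hqw hX (fun p p' h _ => by simp only [X] at h; tauto)
    (Or.inl rfl) huq
  have unq : ¬ H.Adj u q := fun h => hqw (hu q h)
  have unq' : ¬ H.Adj u q' := fun h => hqw' (hu q' h)
  -- adjacent vertices in the two components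
  have n1 : ¬ H.Adj q s := fun h => (hq1 s h).elim hsw h2
  have n2 : ¬ H.Adj q s' := fun h => (hq1 s' h).elim hsw' h4
  have n3 : ¬ H.Adj q' s := fun h => (hq2 s h).elim hsw h1
  have n4 : ¬ H.Adj q' s' := fun h => (hq2 s' h).elim hsw' h3
  refine U_hard hF fun inc f inj good adj => ?_
  have hf : Em (PX H w u q q X fun p => p = q ∨ p = q') inc f := ⟨inj, good, adj⟩
  change ∀ i j, i ≠ j → (AdV (PX H w u q q X fun p => p = q ∨ p = q') True inc (f i) (f j) ↔
    H.Adj i j) at adj
  have zz : ∀ a, a ≠ w → AdV (PX H w u q q X fun p => p = q ∨ p = q') True inc (f w) (f a) :=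
    fun a ha => (adj w a ha.symm).2 (hw a ha)
  have e1 := (adj q q' hqq.ne).2 hqq
  have e2 := (adj s s' hss.ne).2 hss
  have qq : ∀ c c', c ≠ c' → AdV (PX H w u q q X fun p => p = q ∨ p = q') True inc
      (.cp q c) (.cp q c') := fun c c' h => (a_cc (P := PX H w u q q X _) hX).2
        (Or.inr ⟨h, Or.inl ⟨rfl, Or.inl rfl⟩⟩)
  -- two edges with vertices `q`
  have two : ∀ a b, a ∈ ({q, q'} : Set (Fin m)) → b ∈ ({s, s'} : Set (Fin m)) →
      ∀ c c', f a = .cp q c → f b = .cp q c' → False := fun a b ha hb c c' ea eb => by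
    have hne : a ≠ b := by
      rcases ha with rfl | rfl <;> rcases hb with rfl | rfl <;>
        first | exact h1.symm | exact h2.symm | exact h3.symm | exact h4.symm
    have : c ≠ c' := fun e => hne (inj (by rw [ea, eb, e]))
    have hA := (adj a b hne).1 (by rw [ea, eb]; exact qq c c' this)
    rcases ha with rfl | rfl <;> rcases hb with rfl | rfl <;>
      first | exact n1 hA | exact n2 hA | exact n3 hA | exact n4 hA
  -- all edges of the neighbourhood contain a vertex `q`
  have all : (∀ y y', AdV (PX H w u q q X fun p => p = q ∨ p = q') True inc (f w) y →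
      AdV (PX H w u q q X fun p => p = q ∨ p = q') True inc (f w) y' →
      AdV (PX H w u q q X fun p => p = q ∨ p = q') True inc y y' →
      (∃ c, y = .cp q c) ∨ ∃ c, y' = .cp q c) → False := fun h => by
    rcases h _ _ (zz q hqw) (zz q' hqw') e1 with ⟨c, a⟩ | ⟨c, a⟩ <;>
      rcases h _ _ (zz s hsw) (zz s' hsw') e2 with ⟨c', b⟩ | ⟨c', b⟩ <;>
      exact two _ _ (by simp) (by simp) c c' a b
  cases hz : f w with
  | root =>
    refine all fun y y' hy hy' hyy => ?_
    rw [hz] at hy hy'
    rcases nb_root hy with ⟨t, rfl⟩ | ⟨p, c, hp, rfl⟩ | ⟨d, c, i, rfl⟩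
    · rcases nb_root hy' with ⟨t, rfl⟩ | ⟨p, c, hp, rfl⟩ | ⟨d, c, i, rfl⟩
      · exact absurd hyy a_mm
      · exact absurd hyy a_mc
      · exact absurd hyy a_ma
    · by_cases ep : p = q
      · exact Or.inl ⟨c, by rw [ep]⟩
      have ew : p = w := hu p (hp.resolve_right ep)
      rcases nb_root hy' with ⟨t, rfl⟩ | ⟨p', c', hp', rfl⟩ | ⟨d, c', i, rfl⟩
      · exact absurd hyy a_cm
      · by_cases ep' : p' = q
        · exact Or.inr ⟨c', by rw [ep']⟩
        have ew' : p' = w := hu p' (hp'.resolve_right ep')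
        rw [a_cc (P := PX H w u q q X _) hX, ew, ew'] at hyy
        rcases hyy with h | h
        · exact absurd rfl h.2.ne
        · rcases h.2 with h | h
          · exact absurd h.1.symm hqw
          · exact absurd h.1.symm hqw'
      · rw [a_ca] at hyy; exact absurd rfl hyy.2.2.1
    · rcases nb_root hy' with ⟨t, rfl⟩ | ⟨p, c', hp, rfl⟩ | ⟨d', c', i', rfl⟩
      · exact absurd hyy a_am
      · rw [a_ac] at hyy; exact absurd rfl hyy.2.2.1
      · rw [a_aa] at hyy; exact absurd rfl hyy.2.2.2.ne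
  | mid t => exact mid_case hf hw hz hqw hqw' hqq
  | set t =>
    refine all fun y y' hy hy' hyy => ?_
    rw [hz] at hy hy'
    rcases nb_set hy with ⟨t1, rfl⟩ | h
    · rcases nb_set hy' with ⟨t2, rfl⟩ | h
      · exact absurd hyy a_mm
      · exact Or.inr h
    · exact Or.inl h
  | cp p c =>
    by_cases epq : p = q
    · rw [epq] at hz
      -- every edge contains `cp w c` or some `cp q c'`
      have ed : ∀ a b, a ≠ w → b ≠ w → H.Adj a b → (∃ c', c ≠ c' ∧ (f a = .cp q c' ∨
          f b = .cp q c')) ∨ ((f a = .cp w c ∧ (f b = .root ∨ f b = .cp q' c)) ∨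
            (f b = .cp w c ∧ (f a = .root ∨ f a = .cp q' c))) := fun a b ha hb hab => by
        have h5 := zz a ha
        have h6 := zz b hb
        have h7 := (adj a b hab.ne).2 hab
        rw [hz] at h5 h6
        have cls : ∀ y, AdV (PX H w u q q X fun p => p = q ∨ p = q') True inc (.cp q c) y →
            y = .root ∨ (∃ t, y = .set t) ∨ y = .cp w c ∨ y = .cp q' c ∨
              (∃ c', c ≠ c' ∧ (y = .cp q c')) ∨ (∃ c', c ≠ c' ∧ y = .cp q' c') ∨
                ∃ i, y = .att q q' c i := fun y hy => by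
          rcases nb_cp hX hy with ⟨-, e⟩ | ⟨-, t, -, e⟩ | ⟨p', h, e⟩ | ⟨p', c', h, h', e⟩ |
            ⟨p', i, h, e⟩
          · exact Or.inl e
          · exact Or.inr (Or.inl ⟨t, e⟩)
          · rcases hq1 p' h with h | h
            · exact Or.inr (Or.inr (Or.inl (by rw [e, h])))
            · exact Or.inr (Or.inr (Or.inr (Or.inl (by rw [e, h]))))
          · simp only [X] at h'
            rcases h' with ⟨-, h' | h'⟩ | h'
            · exact Or.inr (Or.inr (Or.inr (Or.inr (Or.inl ⟨c', h, by rw [e, h']⟩))))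
            · exact Or.inr (Or.inr (Or.inr (Or.inr (Or.inr (Or.inl ⟨c', h, by rw [e, h']⟩)))))
            · exact absurd h'.1 hqq.ne
          · rcases hq1 p' h.2 with h' | h'
            · exact absurd h' h.1
            · exact Or.inr (Or.inr (Or.inr (Or.inr (Or.inr (Or.inr ⟨i, by rw [e, h']⟩)))))
        have A1 : ¬ AdV (PX H w u q q X fun p => p = q ∨ p = q') True inc .root (.cp q' c) := by
          rw [a_rc]; rintro (h | h)
          · exact unq' h
          · exact hqq.ne h.2.symm
        have A2 : ∀ c', ¬ AdV (PX H w u q q X fun p => p = q ∨ p = q') True inc .root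
            (.cp q' c') := fun c' => by
          rw [a_rc]; rintro (h | h)
          · exact unq' h
          · exact hqq.ne h.2.symm
        have A3 : ∀ i, ¬ AdV (PX H w u q q X fun p => p = q ∨ p = q') True inc .root
            (.att q q' c i) := fun i => by
          rw [a_ra]; exact hqw'
        have A4 : ∀ t p c', p ≠ q → ¬ AdV (PX H w u q q X fun p => p = q ∨ p = q') True inc
            (.set t) (.cp p c') := fun t p c' hp => by
          rw [a_sc]; exact fun h => hp h.1
        have A5 : ∀ c', c ≠ c' → ¬ AdV (PX H w u q q X fun p => p = q ∨ p = q') True inc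
            (.cp w c) (.cp q' c') := fun c' h => by
          rw [a_cc (P := PX H w u q q X _) hX]
          rintro (h' | h')
          · exact h h'.1
          · simp only [PX, X] at h'
            rcases h'.2 with h | h
            · exact hqw h.1.symm
            · exact hqw' h.1.symm
        have A6 : ∀ p c' i, p ≠ q → ¬ AdV (PX H w u q q X fun p => p = q ∨ p = q') True inc
            (.cp p c') (.att q q' c i) := fun p c' i hp => by
          rw [a_ca]; exact fun h => hp h.2.1
        have A7 : ∀ c1 c2, ¬ AdV (PX H w u q q X fun p => p = q ∨ p = q') True inc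
            (.cp q' c1) (.cp q' c2) := fun c1 c2 => by
          rw [a_cc (P := PX H w u q q X _) hX]
          rintro (h' | h')
          · exact h'.2.ne rfl
          · simp only [PX, X] at h'
            rcases h'.2 with h | h
            · exact hqq.ne h.1.symm
            · exact hqq.ne h.2.symm
        have A8 : ∀ i i', ¬ AdV (PX H w u q q X fun p => p = q ∨ p = q') True inc
            (.att q q' c i) (.att q q' c i') := fun i i' => by
          rw [a_aa]; exact fun h => h.2.2.2.ne rfl
        have sym : ∀ y y', AdV (PX H w u q q X fun p => p = q ∨ p = q') True inc y y' →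
          AdV (PX H w u q q X fun p => p = q ∨ p = q') True inc y' y := fun _ _ h => h.symm
        rcases cls _ h5 with e | ⟨t, e⟩ | e | e | ⟨c1, hc1, e⟩ | ⟨c1, hc1, e⟩ | ⟨i, e⟩ <;>
          rcases cls _ h6 with e' | ⟨t', e'⟩ | e' | e' | ⟨c2, hc2, e'⟩ | ⟨c2, hc2, e'⟩ | ⟨i', e'⟩ <;>
          rw [e, e'] at h7 <;>
          first
            | exact Or.inl ⟨c1, hc1, Or.inl e⟩
            | exact Or.inl ⟨c2, hc2, Or.inr e'⟩
            | exact Or.inr (Or.inl ⟨e, Or.inl e'⟩)
            | exact Or.inr (Or.inl ⟨e, Or.inr e'⟩)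
            | exact Or.inr (Or.inr ⟨e', Or.inl e⟩)
            | exact Or.inr (Or.inr ⟨e', Or.inr e⟩)
            | exact absurd h7 a_rr
            | exact absurd h7 a_rs
            | exact absurd h7 a_sr
            | exact absurd h7 a_ss
            | exact absurd h7 a_sa
            | exact absurd h7 a_as
            | exact absurd h7 (A2 _)
            | exact absurd (sym _ _ h7) (A2 _)
            | exact absurd h7 (A3 _)
            | exact absurd (sym _ _ h7) (A3 _)
            | exact absurd h7 (A4 _ _ _ hqw.symm)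
            | exact absurd (sym _ _ h7) (A4 _ _ _ hqw.symm)
            | exact absurd h7 (A4 _ _ _ hqq.ne')
            | exact absurd (sym _ _ h7) (A4 _ _ _ hqq.ne')
            | exact absurd h7 (A5 _ hc2)
            | exact absurd (sym _ _ h7) (A5 _ hc1)
            | exact absurd h7 (A6 _ _ _ hqw.symm)
            | exact absurd (sym _ _ h7) (A6 _ _ _ hqw.symm)
            | exact absurd h7 (A6 _ _ _ hqq.ne')
            | exact absurd (sym _ _ h7) (A6 _ _ _ hqq.ne')
            | exact absurd h7 (A7 _ _)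
            | exact absurd h7 (A8 _ _)
            | exact absurd h7.1 (by simp)
      -- `cp q c'` is adjacent to the root and to `cp q' c`
      have adq : ∀ a b, a ∈ ({q, q'} : Set (Fin m)) → b ∈ ({s, s'} : Set (Fin m)) →
          ∀ c', c ≠ c' → ((f a = .cp q c' ∧ (f b = .root ∨ f b = .cp q' c)) ∨
            (f b = .cp q c' ∧ (f a = .root ∨ f a = .cp q' c))) → False :=
        fun a b ha hb c' hc h => by
        have hne : a ≠ b := by
          rcases ha with rfl | rfl <;> rcases hb with rfl | rfl <;>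
            first | exact h1.symm | exact h2.symm | exact h3.symm | exact h4.symm
        have hA : ¬ H.Adj a b := by
          rcases ha with rfl | rfl <;> rcases hb with rfl | rfl <;>
            first | exact n1 | exact n2 | exact n3 | exact n4
        have r1 : AdV (PX H w u q q X fun p => p = q ∨ p = q') True inc .root (.cp q c') :=
          a_rc.2 (Or.inr ⟨trivial, rfl⟩)
        have r2 : AdV (PX H w u q q X fun p => p = q ∨ p = q') True inc (.cp q' c) (.cp q c') :=
          (a_cc (P := PX H w u q q X _) hX).2 (Or.inr ⟨hc, Or.inr ⟨rfl, rfl⟩⟩)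
        refine hA ((adj a b hne).1 ?_)
        rcases h with ⟨ea, eb | eb⟩ | ⟨eb, ea | ea⟩ <;> rw [ea, eb]
        exacts [r1.symm, r2.symm, r1, r2]
      have ww : ∀ a b, f a = .cp w c → f b = .cp w c → a = b := fun a b ha hb =>
        inj (ha.trans hb.symm)
      rcases ed q q' hqw hqw' hqq with ⟨c1, hc1, a | a⟩ | ⟨a, a' | a'⟩ | ⟨a, a' | a'⟩ <;>
        rcases ed s s' hsw hsw' hss with ⟨c2, hc2, b | b⟩ | ⟨b, b' | b'⟩ | ⟨b, b' | b'⟩ <;>
        first
          | exact two _ _ (by simp) (by simp) _ _ a b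
          | exact adq q s (by simp) (by simp) _ hc1 (Or.inl ⟨a, Or.inl b'⟩)
          | exact adq q s (by simp) (by simp) _ hc1 (Or.inl ⟨a, Or.inr b'⟩)
          | exact adq q s' (by simp) (by simp) _ hc1 (Or.inl ⟨a, Or.inl b'⟩)
          | exact adq q s' (by simp) (by simp) _ hc1 (Or.inl ⟨a, Or.inr b'⟩)
          | exact adq q' s (by simp) (by simp) _ hc1 (Or.inl ⟨a, Or.inl b'⟩)
          | exact adq q' s (by simp) (by simp) _ hc1 (Or.inl ⟨a, Or.inr b'⟩)
          | exact adq q' s' (by simp) (by simp) _ hc1 (Or.inl ⟨a, Or.inl b'⟩)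
          | exact adq q' s' (by simp) (by simp) _ hc1 (Or.inl ⟨a, Or.inr b'⟩)
          | exact adq q s (by simp) (by simp) _ hc2 (Or.inr ⟨b, Or.inl a'⟩)
          | exact adq q s (by simp) (by simp) _ hc2 (Or.inr ⟨b, Or.inr a'⟩)
          | exact adq q s' (by simp) (by simp) _ hc2 (Or.inr ⟨b, Or.inl a'⟩)
          | exact adq q s' (by simp) (by simp) _ hc2 (Or.inr ⟨b, Or.inr a'⟩)
          | exact adq q' s (by simp) (by simp) _ hc2 (Or.inr ⟨b, Or.inl a'⟩)
          | exact adq q' s (by simp) (by simp) _ hc2 (Or.inr ⟨b, Or.inr a'⟩)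
          | exact adq q' s' (by simp) (by simp) _ hc2 (Or.inr ⟨b, Or.inl a'⟩)
          | exact adq q' s' (by simp) (by simp) _ hc2 (Or.inr ⟨b, Or.inr a'⟩)
          | exact h1 (ww _ _ a b).symm
          | exact h2 (ww _ _ a b).symm
          | exact h3 (ww _ _ a b).symm
          | exact h4 (ww _ _ a b).symm
    by_cases epq' : p = q'
    · rw [epq'] at hz
      refine all fun y y' hy hy' hyy => ?_
      rw [hz] at hy hy'
      have cls : ∀ y, AdV (PX H w u q q X fun p => p = q ∨ p = q') True inc (.cp q' c) y →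
          (∃ c', y = .cp q c') ∨ y = .cp w c ∨ ∃ i, y = .att q' q' c i := fun y hy => by
        rcases nb_cp hX hy with ⟨h, e⟩ | ⟨h, t, -, e⟩ | ⟨p', h, e⟩ | ⟨p', c', h, h', e⟩ |
          ⟨p', i, h, e⟩
        · exact absurd h (by rintro (h | h); exacts [unq' h, hqq.ne h.symm])
        · exact absurd h hqq.ne'
        · rcases hq2 p' h with h | h
          · exact Or.inr (Or.inl (by rw [e, h]))
          · exact Or.inl ⟨c, by rw [e, h]⟩
        · simp only [X] at h'
          rcases h' with h' | h'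
          · exact absurd h'.1 hqq.ne'
          · exact Or.inl ⟨c', by rw [e, h'.2]⟩
        · rcases hq1 p' h.2 with h' | h'
          · exact absurd h' h.1
          · exact Or.inr (Or.inr ⟨i, by rw [e, h']⟩)
      rcases cls y hy with h | rfl | ⟨i, rfl⟩
      · exact Or.inl h
      · rcases cls y' hy' with h | rfl | ⟨i, rfl⟩
        · exact Or.inr h
        · exact absurd rfl hyy.1
        · rw [a_ca] at hyy; exact absurd hyy.2.1 hqw'.symm
      · rcases cls y' hy' with h | rfl | ⟨i', rfl⟩
        · exact Or.inr h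
        · rw [a_ac] at hyy; exact absurd hyy.2.1 hqw'.symm
        · rw [a_aa] at hyy; exact absurd rfl hyy.2.2.2.ne
    refine cp_case hF hf hw unq hz (by rintro (h | h); exacts [epq h, epq' h]) fun p' h => ?_
    simp only [PX, X] at h
    rcases h with h | h
    exacts [epq h.1, epq' h.1]
  | att d p c i =>
    exact att_case hf hw hqw (fun _ => Iff.rfl) (fun _ => Iff.rfl) hqw' hqq hz

end Pool.Agent.Helper89.HF
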