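import Pool.Agent.Helper89.HF.A2

/-! `H - w` a disjoint union of cliques, at least three of them with an edge, two of size two. -/

namespace Pool.Agent.Helper89.HF

open Pool.Agent.H22.CT Pool.Agent.H38.NP Pool.Agent.H36.Par SimpleGraph Function

variable {m : ℕ}

theorem A2b {H : SimpleGraph (Fin m)} {w u u' q q' s s' : Fin m} (hw : ∀ v, v ≠ w → H.Adj w v)
    (huu : H.Adj u u') (huw : u ≠ w) (huw' : u' ≠ w)
    (hu1 : ∀ v, H.Adj u v → v = w ∨ v = u') (hu2 : ∀ v, H.Adj u' v → v = w ∨ v = u)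
    (hqq : H.Adj q q') (hqw : q ≠ w) (hqw' : q' ≠ w)
    (hq1 : ∀ v, H.Adj q v → v = w ∨ v = q') (hq2 : ∀ v, H.Adj q' v → v = w ∨ v = q)
    (huq : u ≠ q) (huq' : u ≠ q')
    (hss : H.Adj s s') (hsw : s ≠ w) (hsw' : s' ≠ w) (h1 : s ≠ q) (h2 : s ≠ q') (h3 : s' ≠ q)
    (h4 : s' ≠ q') (h5 : s ≠ u) (h6 : s ≠ u') (h7 : s' ≠ u) (h8 : s' ≠ u') :
    W2Hard (Con₁ H) := by
  classical
  have uq : u' ≠ q := fun e => by
    rcases hq1 u (e ▸ huu.symm) with h | h
    exacts [huw h, huq' h]
  have uq' : u' ≠ q' := fun e => by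
    rcases hq2 u (e ▸ huu.symm) with h | h
    exacts [huw h, huq h]
  let X : Fin m → Fin m → Prop := fun p p' => (p = u' ∧ p' = u') ∨ (p = q ∧ p' = q)
  have hX : ∀ p p', X p p' → X p' p := fun p p' h => by
    simp only [X] at h ⊢; tauto
  have hF := fitX (H := H) (w := w) (u := u) (q := q) (x := q) (X := X)
    (Dg := fun p => p = q) hw hqw hX (fun p p' h hn => by
      simp only [X] at h
      rcases h with h | h
      · exact absurd (h.2 ▸ huu) hn
      · exact h.1) rfl huq
  have unq : ¬ H.Adj u q := fun h => (hu1 q h).elim hqw fun e => uq e.symm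
  have unq' : ¬ H.Adj u q' := fun h => (hu1 q' h).elim hqw' fun e => uq' e.symm
  refine U_hard hF fun inc f inj good adj => ?_
  have hf : Em (PX H w u q q X fun p => p = q) inc f := ⟨inj, good, adj⟩
  change ∀ i j, i ≠ j → (AdV (PX H w u q q X fun p => p = q) True inc (f i) (f j) ↔
    H.Adj i j) at adj
  have zz : ∀ a, a ≠ w → AdV (PX H w u q q X fun p => p = q) True inc (f w) (f a) :=
    fun a ha => (adj w a ha.symm).2 (hw a ha)
  -- three pairwise separated edges
  have sep : ∀ a b : Fin m, ((a = u ∨ a = u') ∧ (b = q ∨ b = q')) ∨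
      ((a = u ∨ a = u') ∧ (b = s ∨ b = s')) ∨ ((a = q ∨ a = q') ∧ (b = s ∨ b = s')) →
      a ≠ b ∧ ¬ H.Adj a b := fun a b h => by
    rcases h with ⟨rfl | rfl, rfl | rfl⟩ | ⟨rfl | rfl, rfl | rfl⟩ | ⟨rfl | rfl, rfl | rfl⟩
    · exact ⟨huq, unq⟩
    · exact ⟨huq', unq'⟩
    · exact ⟨uq, fun h => (hu2 _ h).elim hqw fun e => huq e.symm⟩
    · exact ⟨uq', fun h => (hu2 _ h).elim hqw' fun e => huq' e.symm⟩
    · exact ⟨h5.symm, fun h => (hu1 _ h).elim hsw h6⟩
    · exact ⟨h7.symm, fun h => (hu1 _ h).elim hsw' h8⟩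
    · exact ⟨h6.symm, fun h => (hu2 _ h).elim hsw h5⟩
    · exact ⟨h8.symm, fun h => (hu2 _ h).elim hsw' h7⟩
    · exact ⟨h1.symm, fun h => (hq1 _ h).elim hsw h2⟩
    · exact ⟨h3.symm, fun h => (hq1 _ h).elim hsw' h4⟩
    · exact ⟨h2.symm, fun h => (hq2 _ h).elim hsw h1⟩
    · exact ⟨h4.symm, fun h => (hq2 _ h).elim hsw' h3⟩
  have three : ∀ A B : VX m → Prop, (∀ y y', A y → A y' → y ≠ y' →
      AdV (PX H w u q q X fun p => p = q) True inc y y') → (∀ y y', B y → B y' → y ≠ y' →
      AdV (PX H w u q q X fun p => p = q) True inc y y') →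
      (∀ y y', AdV (PX H w u q q X fun p => p = q) True inc (f w) y →
        AdV (PX H w u q q X fun p => p = q) True inc (f w) y' →
        AdV (PX H w u q q X fun p => p = q) True inc y y' → (A y ∨ B y) ∨ (A y' ∨ B y')) →
      False := fun A B hA hB h => by
    have ex : ∀ a b, a ≠ w → b ≠ w → H.Adj a b → ∃ z, (z = a ∨ z = b) ∧ (A (f z) ∨ B (f z)) :=
      fun a b ha hb hab => by
      rcases h _ _ (zz a ha) (zz b hb) ((adj a b hab.ne).2 hab) with h | h
      · exact ⟨a, Or.inl rfl, h⟩
      · exact ⟨b, Or.inr rfl, h⟩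
    obtain ⟨a1, b1, c1⟩ := ex u u' huw huw' huu
    obtain ⟨a2, b2, c2⟩ := ex q q' hqw hqw' hqq
    obtain ⟨a3, b3, c3⟩ := ex s s' hsw hsw' hss
    have s12 := sep a1 a2 (Or.inl ⟨b1, b2⟩)
    have s13 := sep a1 a3 (Or.inr (Or.inl ⟨b1, b3⟩))
    have s23 := sep a2 a3 (Or.inr (Or.inr ⟨b2, b3⟩))
    have no : ∀ a b (C : VX m → Prop), (∀ y y', C y → C y' → y ≠ y' →
      AdV (PX H w u q q X fun p => p = q) True inc y y') → (a ≠ b ∧ ¬ H.Adj a b) →
      C (f a) → C (f b) → False := fun a b C hC hs ha hb =>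
        hs.2 ((adj a b hs.1).1 (hC _ _ ha hb fun e => hs.1 (inj e)))
    rcases c1 with c1 | c1 <;> rcases c2 with c2 | c2 <;> rcases c3 with c3 | c3 <;>
      first
        | exact no _ _ A hA s12 c1 c2
        | exact no _ _ B hB s12 c1 c2
        | exact no _ _ A hA s13 c1 c3
        | exact no _ _ B hB s13 c1 c3
        | exact no _ _ A hA s23 c2 c3
        | exact no _ _ B hB s23 c2 c3
  have cu : ∀ y y' : VX m, (∃ c, y = .cp u' c) → (∃ c, y' = .cp u' c) → y ≠ y' →
      AdV (PX H w u q q X fun p => p = q) True inc y y' := by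
    rintro y y' ⟨c, rfl⟩ ⟨c', rfl⟩ hne
    exact (a_cc (P := PX H w u q q X _) hX).2 (Or.inr ⟨fun e => hne (by rw [e]),
      Or.inl ⟨rfl, rfl⟩⟩)
  have cq : ∀ y y' : VX m, (∃ c, y = .cp q c) → (∃ c, y' = .cp q c) → y ≠ y' →
      AdV (PX H w u q q X fun p => p = q) True inc y y' := by
    rintro y y' ⟨c, rfl⟩ ⟨c', rfl⟩ hne
    exact (a_cc (P := PX H w u q q X _) hX).2 (Or.inr ⟨fun e => hne (by rw [e]),
      Or.inr ⟨rfl, rfl⟩⟩)
  have Xw : ∀ p, ¬ X w p ∧ ¬ X p w := fun p => by
    simp only [X]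
    exact ⟨by rintro (h | h); exacts [huw' h.1.symm, hqw h.1.symm],
      by rintro (h | h); exacts [huw' h.2.symm, hqw h.2.symm]⟩
  cases hz : f w with
  | root =>
    refine three _ _ cu cq fun y y' hy hy' hyy => ?_
    rw [hz] at hy hy'
    have cls : ∀ y, AdV (PX H w u q q X fun p => p = q) True inc .root y →
        ((∃ c, y = .cp u' c) ∨ ∃ c, y = .cp q c) ∨ (∃ t, y = .mid t) ∨ (∃ c, y = .cp w c) ∨
          ∃ d c i, y = .att d w c i := fun y hy => by
      rcases nb_root hy with h | ⟨p, c, h | h, e⟩ | h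
      · exact Or.inr (Or.inl h)
      · rcases hu1 p h with h | h
        · exact Or.inr (Or.inr (Or.inl ⟨c, by rw [e, h]⟩))
        · exact Or.inl (Or.inl ⟨c, by rw [e, h]⟩)
      · exact Or.inl (Or.inr ⟨c, by rw [e, h]⟩)
      · exact Or.inr (Or.inr (Or.inr h))
    rcases cls y hy with h | ⟨t, rfl⟩ | ⟨c, rfl⟩ | ⟨d, c, i, rfl⟩
    · exact Or.inl h
    · rcases cls y' hy' with h | ⟨t', rfl⟩ | ⟨c', rfl⟩ | ⟨d', c', i', rfl⟩
      · exact Or.inr h
      · exact absurd hyy a_mm
      · exact absurd hyy a_mc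
      · exact absurd hyy a_ma
    · rcases cls y' hy' with h | ⟨t', rfl⟩ | ⟨c', rfl⟩ | ⟨d', c', i', rfl⟩
      · exact Or.inr h
      · exact absurd hyy a_cm
      · rw [a_cc (P := PX H w u q q X _) hX] at hyy
        rcases hyy with h | h
        · exact absurd rfl h.2.ne
        · exact absurd h.2 (Xw w).1
      · rw [a_ca] at hyy; exact absurd rfl hyy.2.2.1
    · rcases cls y' hy' with h | ⟨t', rfl⟩ | ⟨c', rfl⟩ | ⟨d', c', i', rfl⟩
      · exact Or.inr h
      · exact absurd hyy a_am
      · rw [a_ac] at hyy; exact absurd rfl hyy.2.2.1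
      · rw [a_aa] at hyy; exact absurd rfl hyy.2.2.2.ne
  | mid t => exact mid_case hf hw hz hqw hqw' hqq
  | set t =>
    refine three _ _ cu cq fun y y' hy hy' hyy => ?_
    rw [hz] at hy hy'
    rcases nb_set hy with ⟨t1, rfl⟩ | h
    · rcases nb_set hy' with ⟨t2, rfl⟩ | h
      · exact absurd hyy a_mm
      · exact Or.inr (Or.inr h)
    · exact Or.inl (Or.inr h)
  | cp p c =>
    by_cases epq : p = q
    · rw [epq] at hz
      refine three (fun y => y = .cp w c) _ (fun y y' h h' e => absurd (h.trans h'.symm) e) cq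
        fun y y' hy hy' hyy => ?_
      rw [hz] at hy hy'
      have cls : ∀ y, AdV (PX H w u q q X fun p => p = q) True inc (.cp q c) y →
          ((y = .cp w c) ∨ ∃ c, y = .cp q c) ∨ y = .root ∨ (∃ t, y = .set t) ∨ y = .cp q' c ∨
            ∃ i, y = .att q q' c i := fun y hy => by
        rcases nb_cp hX hy with ⟨-, e⟩ | ⟨-, t, -, e⟩ | ⟨p', h, e⟩ | ⟨p', c', h, h', e⟩ |
          ⟨p', i, h, e⟩
        · exact Or.inr (Or.inl e)
        · exact Or.inr (Or.inr (Or.inl ⟨t, e⟩))
        · rcases hq1 p' h with h | h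
          · exact Or.inl (Or.inl (by rw [e, h]))
          · exact Or.inr (Or.inr (Or.inr (Or.inl (by rw [e, h]))))
        · simp only [X] at h'
          rcases h' with h' | h'
          · exact absurd h'.1.symm uq
          · exact Or.inl (Or.inr ⟨c', by rw [e, h'.2]⟩)
        · rcases hq1 p' h.2 with h' | h'
          · exact absurd h' h.1
          · exact Or.inr (Or.inr (Or.inr (Or.inr ⟨i, by rw [e, h']⟩)))
      have B1 : ¬ AdV (PX H w u q q X fun p => p = q) True inc .root (.cp q' c) := by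
        rw [a_rc]; rintro (h | h)
        · exact unq' h
        · exact hqq.ne h.2.symm
      have B2 : ∀ i, ¬ AdV (PX H w u q q X fun p => p = q) True inc .root (.att q q' c i) :=
        fun i => by rw [a_ra]; exact hqw'
      have B3 : ∀ t, ¬ AdV (PX H w u q q X fun p => p = q) True inc (.set t) (.cp q' c) :=
        fun t => by rw [a_sc]; exact fun h => hqq.ne h.1.symm
      have B4 : ∀ i, ¬ AdV (PX H w u q q X fun p => p = q) True inc (.cp q' c)
        (.att q q' c i) := fun i => by rw [a_ca]; exact fun h => hqq.ne h.2.1.symm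
      have B5 : ∀ i i', ¬ AdV (PX H w u q q X fun p => p = q) True inc (.att q q' c i)
        (.att q q' c i') := fun i i' => by rw [a_aa]; exact fun h => h.2.2.2.ne rfl
      rcases cls y hy with h | rfl | ⟨t, rfl⟩ | rfl | ⟨i, rfl⟩
      · exact Or.inl h
      all_goals rcases cls y' hy' with h | rfl | ⟨t', rfl⟩ | rfl | ⟨i', rfl⟩
      all_goals first
        | exact Or.inr h
        | exact absurd hyy a_rr
        | exact absurd hyy a_rs
        | exact absurd hyy a_sr
        | exact absurd hyy a_ss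
        | exact absurd hyy a_sa
        | exact absurd hyy a_as
        | exact absurd hyy B1
        | exact absurd hyy.symm B1
        | exact absurd hyy (B2 _)
        | exact absurd hyy.symm (B2 _)
        | exact absurd hyy (B3 _)
        | exact absurd hyy.symm (B3 _)
        | exact absurd hyy (B4 _)
        | exact absurd hyy.symm (B4 _)
        | exact absurd hyy (B5 _ _)
        | exact absurd rfl hyy.1
    by_cases epu : p = u'
    · rw [epu] at hz
      have cls : ∀ a, a ≠ w → f a = .root ∨ f a = .cp w c ∨ ∃ c', f a = .cp u' c' :=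
        fun a ha => by
        have h := zz a ha
        have g := good a
        rw [hz] at h
        rcases nb_cp hX h with ⟨-, e⟩ | ⟨h, -⟩ | ⟨p', h, e⟩ | ⟨p', c', h, h', e⟩ | ⟨p', i, h, e⟩
        · exact Or.inl e
        · exact absurd h uq
        · rcases hu2 p' h with h | h
          · exact Or.inr (Or.inl (by rw [e, h]))
          · rw [e] at g; exact absurd h g
        · simp only [X] at h'
          rcases h' with h' | h'
          · exact Or.inr (Or.inr ⟨c', by rw [e, h'.2]⟩)
          · exact absurd h'.1 uq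
        · rw [e] at g; exact absurd g.1 uq
      have nr : ∀ a b, a ≠ w → b ≠ w → (a ≠ b ∧ ¬ H.Adj a b) → f a ≠ .root := fun a b ha hb hs e => by
        refine hs.2 ((adj a b hs.1).1 ?_)
        rw [e]
        rcases cls b hb with h | h | ⟨c', h⟩
        · exact absurd (inj (e.trans h.symm)) hs.1
        · rw [h, a_rc]; exact Or.inl (hw u huw).symm
        · rw [h, a_rc]; exact Or.inl huu
      have edge : ∀ a b, a ≠ w → b ≠ w → H.Adj a b → f a ≠ .root → f b ≠ .root →
          ∃ c', f a = .cp u' c' := fun a b ha hb hab ra rb => by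
        rcases (cls a ha).resolve_left ra with h | h
        · rcases (cls b hb).resolve_left rb with h' | ⟨c', h'⟩
          · exact absurd (inj (h.trans h'.symm)) hab.ne
          · have := (adj a b hab.ne).2 hab
            rw [h, h', a_cc (P := PX H w u q q X _) hX] at this
            rcases this with h | h
            · have g := good b
              exact absurd (hu2 w h.2.symm) fun _ => by
                have e := h'
                rw [← h.1] at e
                exact hf.adj w b (by rintro rfl; exact hb rfl) |>.2 (hw b hb) |>.1 (by rw [hz, e])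
            · exact absurd h.2 (Xw _).1
        · exact h
      obtain ⟨c1, e1⟩ := edge q q' hqw hqw' hqq (nr q s hqw hsw (sep q s (by simp)))
        (nr q' s hqw' hsw (sep q' s (by simp)))
      have sq := sep q s (by simp)
      have sq' := sep q s' (by simp)
      obtain ⟨c2, e2⟩ := edge s s' hsw hsw' hss
        (nr s q hsw hqw ⟨sq.1.symm, fun h => sq.2 h.symm⟩)
        (nr s' q hsw' hqw ⟨sq'.1.symm, fun h => sq'.2 h.symm⟩)
      exact sq.2 ((adj q s sq.1).1 (cu _ _ ⟨c1, e1⟩ ⟨c2, e2⟩ fun e => sq.1 (inj e)))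
    refine cp_case hF hf hw unq hz epq fun p' h => ?_
    simp only [PX, X] at h
    rcases h with h | h
    exacts [epu h.1, epq h.1]
  | att d p c i =>
    exact att_case hf hw hqw (fun _ => Iff.rfl) (fun _ => Iff.rfl) hqw' hqq hz

end Pool.Agent.Helper89.HF
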