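import Pool.Agent.Helper89.HF.A2

/-! `H - w` a disjoint union of cliques, one of them with at least three vertices. -/

namespace Pool.Agent.Helper89.HF

open Pool.Agent.H22.CT Pool.Agent.H38.NP Pool.Agent.H36.Par SimpleGraph Function

variable {m : ℕ}

/-- the component of `a` in `H - w` -/
def Kc (H : SimpleGraph (Fin m)) (w a b : Fin m) : Prop := b ≠ w ∧ (b = a ∨ H.Adj a b)

open Classical in
noncomputable def sz (H : SimpleGraph (Fin m)) (w a : Fin m) : ℕ :=
  (Finset.univ.filter (Kc H w a)).card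

/-- `H - w` is a disjoint union of cliques -/
def CU (H : SimpleGraph (Fin m)) (w : Fin m) : Prop :=
  ∀ a b c, a ≠ w → b ≠ w → c ≠ w → H.Adj a b → H.Adj b c → a ≠ c → H.Adj a c

section
variable {H : SimpleGraph (Fin m)} {w : Fin m}

theorem sz_le {a b : Fin m} (g : Fin m → Fin m)
    (inj : ∀ i j, Kc H w a i → Kc H w a j → g i = g j → i = j)
    (hg : ∀ i, Kc H w a i → Kc H w b (g i)) : sz H w a ≤ sz H w b := by
  classical
  refine Finset.card_le_card_of_injOn g (fun i hi => ?_) (fun i hi j hj e => ?_)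
  · simpa using hg i (by simpa using hi)
  · exact inj i j (by simpa using hi) (by simpa using hj) e

theorem sz_lt {a b b0 : Fin m} (g : Fin m → Fin m)
    (inj : ∀ i j, Kc H w a i → Kc H w a j → g i = g j → i = j)
    (hg : ∀ i, Kc H w a i → Kc H w b (g i) ∧ g i ≠ b0) (hb : Kc H w b b0) :
    sz H w a < sz H w b := by
  classical
  have h : sz H w a ≤ ((Finset.univ.filter (Kc H w b)).erase b0).card := by
    refine Finset.card_le_card_of_injOn g (fun i hi => ?_) (fun i hi j hj e => ?_)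
    · have := hg i (by simpa using hi)
      simpa using this
    · exact inj i j (by simpa using hi) (by simpa using hj) e
  have hm : b0 ∈ Finset.univ.filter (Kc H w b) := by simpa using hb
  rw [Finset.card_erase_of_mem hm] at h
  have := Finset.card_pos.2 ⟨_, hm⟩
  unfold sz at *
  omega

theorem Kc_self {a : Fin m} (h : a ≠ w) : Kc H w a a := ⟨h, Or.inl rfl⟩

theorem Kc_adj {a b c : Fin m} (hT : CU H w) (ha : a ≠ w) (h : Kc H w a b) (h' : Kc H w a c)
    (hne : b ≠ c) : H.Adj b c := by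
  rcases h.2 with rfl | h1 <;> rcases h'.2 with rfl | h2
  · exact absurd rfl hne
  · exact h2
  · exact h1.symm
  · exact hT b a c h.1 ha h'.1 h1.symm h2 hne

/-- three vertices of a component -/
theorem Kc_three {a : Fin m} (ha : a ≠ w) (h : 3 ≤ sz H w a) :
    ∃ b c, b ≠ c ∧ b ≠ a ∧ c ≠ a ∧ Kc H w a b ∧ Kc H w a c := by
  classical
  have hm : a ∈ Finset.univ.filter (Kc H w a) := by simpa using Kc_self ha
  have : 1 < ((Finset.univ.filter (Kc H w a)).erase a).card := by
    rw [Finset.card_erase_of_mem hm]; unfold sz at h; omega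
  obtain ⟨b, hb, c, hc, hbc⟩ := Finset.one_lt_card.1 this
  simp only [Finset.mem_erase, Finset.mem_filter, Finset.mem_univ, true_and] at hb hc
  exact ⟨b, c, hbc, hb.1, hc.1, hb.2, hc.2⟩

/-- two other vertices of the component -/
theorem Kc_two {a p : Fin m} (ha : a ≠ w) (h : 3 ≤ sz H w a) :
    ∃ b c, b ≠ c ∧ b ≠ p ∧ c ≠ p ∧ Kc H w a b ∧ Kc H w a c := by
  obtain ⟨b, c, h1, h2, h3, h4, h5⟩ := Kc_three ha h
  by_cases e1 : p = a
  · exact ⟨b, c, h1, e1 ▸ h2, e1 ▸ h3, h4, h5⟩
  by_cases e2 : p = b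
  · exact ⟨a, c, h3.symm, Ne.symm e1, e2 ▸ h1.symm, Kc_self ha, h5⟩
  · exact ⟨a, b, h2.symm, Ne.symm e1, Ne.symm e2, Kc_self ha, h4⟩

theorem Kc_sep {a b c : Fin m} (hT : CU H w) (ha : a ≠ w) (hc : c ≠ w) (h : Kc H w a b)
    (hac : a ≠ c) (hn : ¬ H.Adj a c) : b ≠ c ∧ ¬ H.Adj b c := by
  rcases h.2 with rfl | h1
  · exact ⟨hac, hn⟩
  · exact ⟨fun e => hn (e ▸ h1), fun h2 => hn (hT a b c ha h.1 hc h1 h2 hac)⟩

end

section
variable {H : SimpleGraph (Fin m)} {w u q x : Fin m} {X : Fin m → Fin m → Prop}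
  {Dg : Fin m → Prop} {inc : ℕ → ℕ × ℕ → Prop} {f : Fin m → VX m}

/-- the neighbours of `cp q c` -/
theorem cls_q (hX : ∀ p p', X p p' → X p' p) (hXq : ∀ p, ¬ X q p) {c : ℕ × ℕ} {y : VX m}
    (h : AdV (PX H w u q x X Dg) True inc (.cp q c) y) :
    (y = .root ∨ ∃ p', H.Adj q p' ∧ y = .cp p' c) ∨ (∃ t, y = .set t) ∨
        ∃ p' i, (p' ≠ w ∧ H.Adj x p') ∧ y = .att q p' c i := by
  rcases nb_cp hX h with ⟨-, e⟩ | ⟨-, t, -, e⟩ | h | ⟨p', c', h, h', e⟩ | h
  · exact Or.inl (Or.inl e)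
  · exact Or.inr (Or.inl ⟨t, e⟩)
  · exact Or.inl (Or.inr h)
  · exact absurd h' (hXq _)
  · exact Or.inr (Or.inr h)

/-- edges in the neighbourhood of `cp q c` -/
theorem edge_q (hX : ∀ p p', X p p' → X p' p) (hXq : ∀ p, ¬ X q p) {c : ℕ × ℕ} {y y' : VX m}
    (h : AdV (PX H w u q x X Dg) True inc (.cp q c) y)
    (h' : AdV (PX H w u q x X Dg) True inc (.cp q c) y')
    (hA : AdV (PX H w u q x X Dg) True inc y y') :
    ((y = .root ∨ ∃ p', H.Adj q p' ∧ y = .cp p' c) ∧
      (y' = .root ∨ ∃ p', H.Adj q p' ∧ y' = .cp p' c)) ∨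
      ∃ p p' i, (p ≠ w ∧ H.Adj x p) ∧ (p' ≠ w ∧ H.Adj x p') ∧ y = .att q p c i ∧
        y' = .att q p' c i := by
  rcases cls_q hX hXq h with e | ⟨t, rfl⟩ | ⟨p, i, hp, rfl⟩ <;>
    rcases cls_q hX hXq h' with e' | ⟨t', rfl⟩ | ⟨p', i', hp', rfl⟩
  · exact Or.inl ⟨e, e'⟩
  · rcases e with rfl | ⟨p, hp, rfl⟩
    · exact absurd hA a_rs
    · rw [a_cs] at hA; exact absurd hA.1.symm hp.ne
  · rcases e with rfl | ⟨p, hp, rfl⟩
    · rw [a_ra] at hA; exact absurd hA hp'.1
    · rw [a_ca] at hA; exact absurd hA.2.1.symm hp.ne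
  · rcases e' with rfl | ⟨p, hp, rfl⟩
    · exact absurd hA a_sr
    · rw [a_sc] at hA; exact absurd hA.1.symm hp.ne
  · exact absurd hA a_ss
  · exact absurd hA a_sa
  · rcases e' with rfl | ⟨p, hp', rfl⟩
    · rw [a_ar] at hA; exact absurd hA hp.1
    · rw [a_ac] at hA; exact absurd hA.2.1.symm hp'.ne
  · exact absurd hA a_as
  · rw [a_aa] at hA
    exact Or.inr ⟨p, p', i, hp, hp', rfl, by rw [hA.2.2.1]⟩

/-- a component that is not smaller than that of `x` does not sit in an attached copy -/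
theorem attblk (hX : ∀ p p', X p p' → X p' p) (hXq : ∀ p, ¬ X q p) (hT : CU H w)
    (hf : Em (PX H w u q x X Dg) inc f) (hw : ∀ v, v ≠ w → H.Adj w v) (hxw : x ≠ w)
    {c : ℕ × ℕ} (hz : f w = .cp q c) {a b : Fin m} (ha : a ≠ w) (hb : b ≠ w) (hab : H.Adj a b)
    (hs : sz H w x ≤ sz H w a) {a' : Fin m} (ha' : Kc H w a a') :
    f a' = .root ∨ ∃ p', H.Adj q p' ∧ f a' = .cp p' c := by
  have zz : ∀ a, a ≠ w → AdV (PX H w u q x X Dg) True inc (.cp q c) (f a) := fun a ha =>
    hz ▸ (hf.adj w a ha.symm).2 (hw a ha)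
  have ed : ∀ a b, a ≠ w → b ≠ w → H.Adj a b → _ := fun a b ha hb hab =>
    edge_q hX hXq (zz a ha) (zz b hb) ((hf.adj a b hab.ne).2 hab)
  have key : ¬ ∃ p i, f a = .att q p c i := by
    rintro ⟨p, i, e⟩
    have B : ∀ a', Kc H w a a' → ∃ p', (p' ≠ w ∧ H.Adj x p') ∧ f a' = .att q p' c i :=
      fun a' ha' => by
      rcases ha'.2 with h | h
      · rcases ed a b ha hb hab with ⟨h1 | ⟨p', h1, h2⟩, -⟩ | ⟨p1, p2, i', h1, -, h3, -⟩
        · rw [h1] at e; cases e
        · rw [h2] at e; cases e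
        · rw [h3] at e
          simp only [VX.att.injEq] at e
          exact ⟨p1, h1, by rw [h, h3, e.2.2.2]⟩
      · rcases ed a a' ha ha'.1 h with ⟨h1 | ⟨p', h1, h2⟩, -⟩ | ⟨p1, p2, i', h1, h1', h3, h4⟩
        · rw [h1] at e; cases e
        · rw [h2] at e; cases e
        · rw [h3] at e
          simp only [VX.att.injEq] at e
          exact ⟨p2, h1', by rw [h4, e.2.2.2]⟩
    choose! g g1 g2 using B
    have := sz_lt (H := H) (w := w) (a := a) (b := x) (b0 := x) g
      (fun i j hi hj e => hf.inj (by rw [g2 i hi, g2 j hj, e]))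
      (fun i hi => ⟨⟨(g1 i hi).1, Or.inr (g1 i hi).2⟩, (g1 i hi).2.ne'⟩) (Kc_self hxw)
    omega
  rcases ha'.2 with h | h
  · rw [h]
    rcases ed a b ha hb hab with ⟨h1, -⟩ | ⟨p1, p2, i', h1, -, h3, -⟩
    · exact h1
    · exact absurd ⟨p1, i', h3⟩ key
  · rcases ed a a' ha ha'.1 h with ⟨-, h1⟩ | ⟨p1, p2, i', h1, h1', h3, h4⟩
    · exact h1
    · exact absurd ⟨p1, i', h3⟩ key

theorem cpq_case (hX : ∀ p p', X p p' → X p' p) (hXq : ∀ p, ¬ X q p) (hT : CU H w)
    (hf : Em (PX H w u q x X Dg) inc f) (hw : ∀ v, v ≠ w → H.Adj w v) (huw : u ≠ w) (hqw : q ≠ w)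
    (hxw : x ≠ w) (huq : u ≠ q) (hn : ¬ H.Adj u q) (h3 : 3 ≤ sz H w q)
    (hs : sz H w x ≤ sz H w q) {y y2 : Fin m} (hyw : y ≠ w) (hyw2 : y2 ≠ w) (hyy : H.Adj y y2)
    (hyq : q ≠ y) (hnq : ¬ H.Adj q y) (hsy : sz H w x ≤ sz H w y)
    {c : ℕ × ℕ} (hz : f w = .cp q c) : False := by
  obtain ⟨n1, -, -, e1, -, k1, -⟩ := Kc_three hqw h3
  have Bq := fun a' => attblk hX hXq hT hf hw hxw hz hqw k1.1
    ((k1.2.resolve_left e1)) hs (a' := a')
  -- the root does not occur
  have nr : ∀ p, Kc H w q p → f p ≠ .root := fun p hp e => by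
    have : ∀ b, Kc H w q b → b ≠ p → f b = .cp w c := fun b hb hbp => by
      rcases Bq b hb with h | ⟨p', h, h'⟩
      · exact absurd (hf.inj (h.trans e.symm)) hbp
      · have hA := (hf.adj p b hbp.symm).2 (Kc_adj hT hqw hp hb hbp.symm)
        rw [e, h', a_rc] at hA
        rcases hA with hA | hA
        · by_cases ew : p' = w
          · rw [h', ew]
          · exact absurd (hT u p' q huw ew hqw hA h.symm huq) hn
        · exact absurd hA.2.symm h.ne
    obtain ⟨b, c', h1, h2, h4, h5, h6⟩ := Kc_two (p := p) hqw h3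
    exact h1 (hf.inj ((this b h5 h2).trans (this c' h6 h4).symm))
  have Bq' : ∀ p, Kc H w q p → ∃ p', H.Adj q p' ∧ f p = .cp p' c := fun p hp =>
    (Bq p hp).resolve_left (nr p hp)
  obtain ⟨p1, hp1, e1⟩ : ∃ p1, Kc H w q p1 ∧ f p1 = .cp w c := by
    by_contra hc
    push Not at hc
    choose! g g1 g2 using Bq'
    have := sz_lt (H := H) (w := w) (a := q) (b := q) (b0 := q) g
      (fun i j hi hj e => hf.inj (by rw [g2 i hi, g2 j hj, e]))
      (fun i hi => ⟨⟨fun e => hc i hi (by rw [g2 i hi, e]), Or.inr (g1 i hi)⟩, (g1 i hi).ne'⟩)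
      (Kc_self hqw)
    omega
  have sep := Kc_sep hT hqw hyw hp1 hyq hnq
  refine sep.2 ((hf.adj p1 y sep.1).1 ?_)
  rw [e1]
  rcases attblk hX hXq hT hf hw hxw hz hyw hyw2 hyy hsy (Kc_self hyw) with h | ⟨p', h, h'⟩
  · rw [h, a_cr]; exact Or.inl (hw u huw).symm
  · rw [h', a_cc (P := PX H w u q x X Dg) hX]
    refine Or.inl ⟨rfl, hw p' fun e => sep.1 (hf.inj ?_)⟩
    rw [e1, h', e]

/-- edges in the neighbourhood of the root -/
theorem edge_r (hX : ∀ p p', X p p' → X p' p) (hXw : ¬ X w w) {y y' : VX m}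
    (h : AdV (PX H w u q x X Dg) True inc .root y)
    (h' : AdV (PX H w u q x X Dg) True inc .root y')
    (hA : AdV (PX H w u q x X Dg) True inc y y') :
    ∃ p c p' c', (H.Adj u p ∨ p = q) ∧ (H.Adj u p' ∨ p' = q) ∧ y = .cp p c ∧ y' = .cp p' c' ∧
      ((c = c' ∧ H.Adj p p') ∨ (c ≠ c' ∧ X p p')) := by
  rcases nb_root h with ⟨t, rfl⟩ | ⟨p, c, hp, rfl⟩ | ⟨d, c, i, rfl⟩ <;>
    rcases nb_root h' with ⟨t', rfl⟩ | ⟨p', c', hp', rfl⟩ | ⟨d', c', i', rfl⟩
  · exact absurd hA a_mm
  · exact absurd hA a_mc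
  · exact absurd hA a_ma
  · exact absurd hA a_cm
  · exact ⟨p, c, p', c', hp, hp', rfl, rfl, (a_cc (P := PX H w u q x X Dg) hX).1 hA⟩
  · rw [a_ca] at hA; exact absurd rfl hA.2.2.1
  · exact absurd hA a_am
  · rw [a_ac] at hA; exact absurd rfl hA.2.2.1
  · rw [a_aa] at hA; exact absurd rfl hA.2.2.2.ne

/-- a component with at least three vertices in the neighbourhood of the root, inside one copy -/
theorem root_lem (hX : ∀ p p', X p p' → X p' p) (hXw : ¬ X w w) (hT : CU H w)
    (hf : Em (PX H w u q x X Dg) inc f) (hw : ∀ v, v ≠ w → H.Adj w v) (huw : u ≠ w) (hqw : q ≠ w)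
    (huq : u ≠ q) (hn : ¬ H.Adj u q) (hz : f w = .root) {a : Fin m} (ha : a ≠ w)
    (h3 : 3 ≤ sz H w a) (hc : ∀ b b', Kc H w a b → Kc H w a b' → ∀ p c p' c', f b = .cp p c →
      f b' = .cp p' c' → b ≠ b' → c = c') :
    ∃ c, ∃ g : Fin m → Fin m, (∀ b, Kc H w a b → Kc H w u (g b) ∧ g b ≠ w) ∧
      (∀ i j, Kc H w a i → Kc H w a j → g i = g j → i = j) ∧
      ∀ b, Kc H w a b → (f b = .cp (g b) c ∨ (g b = u ∧ f b = .cp w c)) := by
  classical
  have zz : ∀ a, a ≠ w → AdV (PX H w u q x X Dg) True inc .root (f a) := fun a ha =>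
    hz ▸ (hf.adj w a ha.symm).2 (hw a ha)
  obtain ⟨n1, -, -, e1, -, k1, -⟩ := Kc_three ha h3
  have an1 : H.Adj a n1 := k1.2.resolve_left e1
  obtain ⟨p0, c0, p1, c1, h4, h5, h6, h7, h8⟩ := edge_r hX hXw (zz a ha) (zz n1 k1.1)
    ((hf.adj a n1 an1.ne).2 an1)
  have B : ∀ b, Kc H w a b → ∃ p, (H.Adj u p ∨ p = q) ∧ f b = .cp p c0 := fun b hb => by
    rcases hb.2 with h | h
    · exact ⟨p0, h4, h ▸ h6⟩
    · obtain ⟨p, c, p', c', g1, g2, g3, g4, g5⟩ := edge_r hX hXw (zz a ha) (zz b hb.1)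
        ((hf.adj a b h.ne).2 h)
      have := hc a b (Kc_self ha) hb p0 c0 p' c' h6 g4 h.ne
      exact ⟨p', g2, by rw [g4, this]⟩
  choose! g g1 g2 using B
  have gi : ∀ i j, Kc H w a i → Kc H w a j → g i = g j → i = j := fun i j hi hj e =>
    hf.inj (by rw [g2 i hi, g2 j hj, e])
  have ga : ∀ i j, Kc H w a i → Kc H w a j → i ≠ j → H.Adj (g i) (g j) := fun i j hi hj hij => by
    have hA := (hf.adj i j hij).2 (Kc_adj hT ha hi hj hij)
    rw [g2 i hi, g2 j hj, a_cc (P := PX H w u q x X Dg) hX] at hA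
    rcases hA with h | h
    · exact h.2
    · exact absurd rfl h.1
  have nq : ∀ b, Kc H w a b → g b ≠ q := fun b hb e => by
    have : ∀ b', Kc H w a b' → b' ≠ b → g b' = w := fun b' hb' hne => by
      have h := ga b b' hb hb' hne.symm
      rw [e] at h
      by_contra ew
      rcases g1 b' hb' with h' | h'
      · exact hn (hT u (g b') q huw ew hqw h' h.symm huq)
      · exact h.ne h'.symm
    obtain ⟨b1, b2, k1, k2, k3, k4, k5⟩ := Kc_two (p := b) ha h3
    exact k1 (gi _ _ k4 k5 ((this b1 k4 k2).trans (this b2 k5 k3).symm))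
  have gu : ∀ b, Kc H w a b → H.Adj u (g b) := fun b hb => (g1 b hb).resolve_right (nq b hb)
  refine ⟨c0, fun b => if g b = w then u else g b, fun b hb => ?_, fun i j hi hj e => ?_,
    fun b hb => ?_⟩
  · by_cases e : g b = w
    · simp only [e, if_true]; exact ⟨Kc_self huw, huw⟩
    · simp only [e, if_false]; exact ⟨⟨e, Or.inr (gu b hb)⟩, e⟩
  · by_cases e1 : g i = w <;> by_cases e2 : g j = w <;> simp only [e1, e2, if_true, if_false] at e
    · exact gi i j hi hj (e1.trans e2.symm)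
    · exact absurd e (gu j hj).ne
    · exact absurd e.symm (gu i hi).ne
    · exact gi i j hi hj e
  · by_cases e : g b = w
    · simp only [e, if_true]; exact Or.inr ⟨trivial, by rw [g2 b hb, e]⟩
    · simp only [e, if_false]; exact Or.inl (g2 b hb)

end

/-- two components with edges, one of them with three vertices and larger than that of `u` -/
theorem A2c {H : SimpleGraph (Fin m)} {w u q x y y2 : Fin m} (hw : ∀ v, v ≠ w → H.Adj w v)
    (hT : CU H w) (huw : u ≠ w) (hqw : q ≠ w) (hxw : x ≠ w) (huq : u ≠ q) (hn : ¬ H.Adj u q)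
    (h3 : 3 ≤ sz H w q) (hlt : sz H w u < sz H w q) (hs : sz H w x ≤ sz H w q)
    {x2 : Fin m} (hxw2 : x2 ≠ w) (hxx : H.Adj x x2)
    (hyw : y ≠ w) (hyw2 : y2 ≠ w) (hyy : H.Adj y y2)
    (hyq : q ≠ y) (hnq : ¬ H.Adj q y) (hsy : sz H w x ≤ sz H w y) : W2Hard (Con₁ H) := by
  let X : Fin m → Fin m → Prop := fun _ _ => False
  have hX : ∀ p p', X p p' → X p' p := fun _ _ h => h
  have hF := fitX (H := H) (w := w) (u := u) (q := q) (x := x) (X := X)
    (Dg := fun p => p = q) hw hxw hX (fun p p' h _ => h.elim) rfl huq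
  refine U_hard hF fun inc f inj good adj => ?_
  have hf : Em (PX H w u q x X fun p => p = q) inc f := ⟨inj, good, adj⟩
  obtain ⟨n1, -, -, e1, -, k1, -⟩ := Kc_three hqw h3
  have qn : H.Adj q n1 := k1.2.resolve_left e1
  cases hz : f w with
  | root =>
    obtain ⟨c, g, g1, g2, -⟩ := root_lem hX (fun h => h) hT hf hw huw hqw huq hn hz hqw h3
      (fun b b' hb hb' p c p' c' e e' hne => by
        have := (hf.adj b b' hne).2 (Kc_adj hT hqw hb hb' hne)
        rw [e, e', a_cc (P := PX H w u q x X _) hX] at this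
        rcases this with h | h
        · exact h.1
        · exact h.2.elim)
    have := sz_le g g2 fun i hi => (g1 i hi).1
    omega
  | mid t => exact mid_case hf hw hz hqw k1.1 qn
  | set t => exact set_case hX hf hw (fun h => h) hz hqw k1.1 qn
  | cp p c =>
    by_cases e : p = q
    · rw [e] at hz
      exact cpq_case hX (fun _ h => h) hT hf hw huw hqw hxw huq hn h3 hs hyw hyw2 hyy hyq hnq hsy hz
    · exact cp_case hF hf hw hn hz e fun _ h => h
  | att d p c i =>
    exact att_case hf hw hxw (fun _ => Iff.rfl) (fun _ => Iff.rfl) hxw2 hxx hz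

/-- two isolated vertices and a component with three vertices -/
theorem A2d {H : SimpleGraph (Fin m)} {w u q x : Fin m} (hw : ∀ v, v ≠ w → H.Adj w v)
    (hT : CU H w) (huw : u ≠ w) (hqw : q ≠ w) (hxw : x ≠ w) (huq : u ≠ q)
    (hu : ∀ v, H.Adj u v → v = w) (hq : ∀ v, H.Adj q v → v = w) (h3 : 3 ≤ sz H w x) :
    W2Hard (Con₁ H) := by
  let X : Fin m → Fin m → Prop := fun _ _ => False
  have hX : ∀ p p', X p p' → X p' p := fun _ _ h => h
  have hn : ¬ H.Adj u q := fun h => hqw (hu q h)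
  have hF := fitX (H := H) (w := w) (u := u) (q := q) (x := x) (X := X)
    (Dg := fun p => p = q) hw hxw hX (fun p p' h _ => h.elim) rfl huq
  refine U_hard hF fun inc f inj good adj => ?_
  have hf : Em (PX H w u q x X fun p => p = q) inc f := ⟨inj, good, adj⟩
  have zz : ∀ a, a ≠ w → AdV (PX H w u q x X fun p => p = q) True inc (f w) (f a) := fun a ha =>
    (hf.adj w a ha.symm).2 (hw a ha)
  obtain ⟨n1, n2, e12, e1, e2, k1, k2⟩ := Kc_three hxw h3
  have xn : H.Adj x n1 := k1.2.resolve_left e1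
  have xn2 : H.Adj x n2 := k2.2.resolve_left e2
  cases hz : f w with
  | root =>
    rw [hz] at zz
    obtain ⟨p0, c0, p1, c1, h4, h5, h6, h7, h8⟩ := edge_r hX (fun h => h) (zz x hxw) (zz n1 k1.1)
      ((hf.adj x n1 xn.ne).2 xn)
    obtain ⟨p0', c0', p2, c2, g4, g5, g6, g7, g8⟩ := edge_r hX (fun h => h) (zz x hxw)
      (zz n2 k2.1) ((hf.adj x n2 xn2.ne).2 xn2)
    have hc1 : c0 = c1 := h8.elim (fun h => h.1) fun h => h.2.elim
    rw [h6] at g6
    simp only [VX.cp.injEq] at g6
    obtain ⟨rfl, rfl⟩ := g6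
    have hc2 : c0 = c2 := g8.elim (fun h => h.1) fun h => h.2.elim
    subst hc1 hc2
    have d01 : p0 ≠ p1 := fun e => xn.ne (hf.inj (by rw [h6, h7, e]))
    have d02 : p0 ≠ p2 := fun e => xn2.ne (hf.inj (by rw [h6, g7, e]))
    have d12 : p1 ≠ p2 := fun e => e12 (hf.inj (by rw [h7, g7, e]))
    have r : ∀ p, (H.Adj u p ∨ p = q) → p = w ∨ p = q := fun p h => h.imp (hu p) id
    rcases r _ h4 with a | a <;> rcases r _ h5 with b | b <;> rcases r _ g5 with c | c <;>
      first
        | exact d01 (a.trans b.symm)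
        | exact d02 (a.trans c.symm)
        | exact d12 (b.trans c.symm)
  | mid t => exact mid_case hf hw hz hxw k1.1 xn
  | set t => exact set_case hX hf hw (fun h => h) hz hxw k1.1 xn
  | cp p c =>
    by_cases e : p = q
    · rw [e] at hz
      have B : ∀ a, Kc H w x a → f a = .root ∨ f a = .cp w c := fun a ha => by
        rcases attblk hX (fun _ h => h) hT hf hw hxw hz hxw k1.1 xn le_rfl ha with
          h | ⟨p', h, h'⟩
        · exact Or.inl h
        · exact Or.inr (by rw [h', hq p' h])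
      rcases B x (Kc_self hxw) with a | a <;> rcases B n1 k1 with b | b <;>
        rcases B n2 k2 with c | c <;>
        first
          | exact e1 (hf.inj (b.trans a.symm))
          | exact e2 (hf.inj (c.trans a.symm))
          | exact e12 (hf.inj (b.trans c.symm))
    · exact cp_case hF hf hw hn hz e fun _ h => h
  | att d p c i =>
    exact att_case hf hw hxw (fun _ => Iff.rfl) (fun _ => Iff.rfl) k1.1 xn hz

/-- two components of the same size, at least three -/
theorem A2e {H : SimpleGraph (Fin m)} {w u q z0 : Fin m} (hw : ∀ v, v ≠ w → H.Adj w v)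
    (hT : CU H w) (huw : u ≠ w) (hqw : q ≠ w) (huq : u ≠ q) (hn : ¬ H.Adj u q)
    (h3 : 3 ≤ sz H w q) (heq : sz H w u = sz H w q) (hzw : z0 ≠ w) (huz : H.Adj u z0) :
    W2Hard (Con₁ H) := by
  let X : Fin m → Fin m → Prop := fun p p' => p = z0 ∧ p' = z0
  have hX : ∀ p p', X p p' → X p' p := fun _ _ h => ⟨h.2, h.1⟩
  have hzq : z0 ≠ q := fun e => hn (e ▸ huz)
  have hF := fitX (H := H) (w := w) (u := u) (q := q) (x := q) (X := X)
    (Dg := fun p => p = q) hw hqw hX (fun p p' h hn => absurd (h.2 ▸ huz) hn) rfl huq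
  refine U_hard hF fun inc f inj good adj => ?_
  have hf : Em (PX H w u q q X fun p => p = q) inc f := ⟨inj, good, adj⟩
  have zz : ∀ a, a ≠ w → AdV (PX H w u q q X fun p => p = q) True inc (f w) (f a) := fun a ha =>
    (hf.adj w a ha.symm).2 (hw a ha)
  obtain ⟨n1, -, -, e1, -, k1, -⟩ := Kc_three hqw h3
  have qn : H.Adj q n1 := k1.2.resolve_left e1
  have fin : ∀ b1 b2 c1 c2, Kc H w u b1 → Kc H w q b2 → f b1 = .cp z0 c1 → f b2 = .cp z0 c2 →
      False := fun b1 b2 c1 c2 h1 h2 e1 e2 => by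
    have s1 := Kc_sep hT huw hqw h1 huq hn
    have s2 := Kc_sep hT hqw h1.1 h2 s1.1.symm fun h => s1.2 h.symm
    refine s2.2 ((hf.adj b2 b1 s2.1).1 ?_)
    rw [e1, e2, a_cc (P := PX H w u q q X _) hX]
    exact Or.inr ⟨fun e => s2.1 (hf.inj (by rw [e1, e2, e])), rfl, rfl⟩
  cases hz : f w with
  | root =>
    rw [hz] at zz
    have key : ∀ a, a ≠ w → 3 ≤ sz H w a → sz H w u ≤ sz H w a → ∃ b c, Kc H w a b ∧
        f b = .cp z0 c := fun a ha h3 hle => by
      by_contra hc
      push Not at hc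
      obtain ⟨c, g, g1, g2, g3⟩ := root_lem hX (fun h => hzw h.1.symm) hT hf hw huw hqw huq hn hz
        ha h3 (fun b b' hb hb' p c p' c' e e' hne => by
          have := (hf.adj b b' hne).2 (Kc_adj hT ha hb hb' hne)
          rw [e, e', a_cc (P := PX H w u q q X _) hX] at this
          rcases this with h | h
          · exact h.1
          · exact absurd (by rw [e, h.2.1]) (hc b c hb))
      have := sz_lt (b0 := z0) g g2 (fun i hi => ⟨(g1 i hi).1, fun e => by
        rcases g3 i hi with h | h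
        · exact hc i c hi (by rw [h, e])
        · exact huz.ne (h.1.symm.trans e)⟩) ⟨hzw, Or.inr huz⟩
      omega
    obtain ⟨b1, c1, h1, e1⟩ := key u huw (by omega) le_rfl
    obtain ⟨b2, c2, h2, e2⟩ := key q hqw h3 (by omega)
    exact fin b1 b2 c1 c2 h1 h2 e1 e2
  | mid t => exact mid_case hf hw hz hqw k1.1 qn
  | set t => exact set_case hX hf hw (fun h => hzq h.1.symm) hz hqw k1.1 qn
  | cp p c =>
    by_cases e : p = q
    · rw [e] at hz
      exact cpq_case hX (fun _ h => hzq h.1.symm) hT hf hw huw hqw hqw huq hn h3 le_rfl huw hzw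
        huz huq.symm (fun h => hn h.symm) heq.ge hz
    by_cases ez : p = z0
    · rw [ez] at hz
      rw [hz] at zz
      have cls : ∀ a, a ≠ w → f a = .root ∨ (∃ p', (p' ≠ u ∧ H.Adj z0 p') ∧ f a = .cp p' c) ∨
          ∃ c', c ≠ c' ∧ f a = .cp z0 c' := fun a ha => by
        have g := hf.good a
        rcases nb_cp hX (zz a ha) with ⟨-, e⟩ | ⟨h, -⟩ | ⟨p', h, e⟩ | ⟨p', c', h, h', e⟩ |
          ⟨p', i, h, e⟩
        · exact Or.inl e
        · exact absurd h hzq
        · rw [e] at g; exact Or.inr (Or.inl ⟨p', ⟨g, h⟩, e⟩)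
        · exact Or.inr (Or.inr ⟨c', h, by rw [e, h'.2]⟩)
        · rw [e] at g; exact absurd g.1 hzq
      have nr0 : ∀ a b, a ≠ w → b ≠ w → a ≠ b → ¬ H.Adj a b → f a ≠ .root :=
        fun a b ha hb hab hnab e => by
        refine hnab ((hf.adj a b hab).1 ?_)
        rw [e]
        rcases cls b hb with h | ⟨p', h, h'⟩ | ⟨c', h, h'⟩
        · exact absurd (hf.inj (e.trans h.symm)) hab
        · rw [h', a_rc]
          refine Or.inl ?_
          by_cases ew : p' = w
          · rw [ew]; exact (hw u huw).symm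
          · exact hT u z0 p' huw hzw ew huz h.2 h.1.symm
        · rw [h', a_rc]; exact Or.inl huz
      have nr : ∀ a, a ≠ w → f a ≠ .root := fun a ha => by
        by_cases h1 : a = u ∨ H.Adj a u
        · by_cases h2 : a = q ∨ H.Adj a q
          · exfalso
            rcases h1 with rfl | h1 <;> rcases h2 with rfl | h2
            · exact huq rfl
            · exact hn h2
            · exact hn h1.symm
            · exact hn (hT u a q huw ha hqw h1.symm h2 huq)
          · rw [not_or] at h2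
            exact nr0 a q ha hqw h2.1 h2.2
        · rw [not_or] at h1
          exact nr0 a u ha huw h1.1 h1.2
      -- the two kinds are not adjacent
      have sep : ∀ p' c', c ≠ c' → H.Adj z0 p' → ¬ AdV (PX H w u q q X fun p => p = q) True inc
          (.cp p' c) (.cp z0 c') := fun p' c' h h' hA => by
        rw [a_cc (P := PX H w u q q X _) hX] at hA
        rcases hA with hA | hA
        · exact h hA.1
        · exact h'.ne hA.2.1.symm
      have key : ∀ a, a ≠ w → sz H w u ≤ sz H w a → ∃ c', f a = .cp z0 c' := fun a ha hle => by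
        rcases (cls a ha).resolve_left (nr a ha) with ⟨p0, h0, h0'⟩ | ⟨c', h, h'⟩
        · exfalso
          have B : ∀ b, Kc H w a b → ∃ p', (p' ≠ u ∧ H.Adj z0 p') ∧ f b = .cp p' c :=
            fun b hb => by
            rcases (cls b hb.1).resolve_left (nr b hb.1) with h | ⟨c', h, h'⟩
            · exact h
            · exfalso
              rcases hb.2 with h2 | h2
              · rw [h2, h0'] at h'
                simp only [VX.cp.injEq] at h'
                exact h h'.2
              · have := (hf.adj a b h2.ne).2 h2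
                rw [h0', h'] at this
                exact sep p0 c' h h0.2 this
          choose! g g1 g2 using B
          classical
          have gi : ∀ i j, Kc H w a i → Kc H w a j → g i = g j → i = j := fun i j hi hj e =>
            hf.inj (by rw [g2 i hi, g2 j hj, e])
          have := sz_lt (H := H) (w := w) (a := a) (b := u) (b0 := u)
            (fun b => if g b = w then z0 else g b) (fun i j hi hj e => by
              by_cases e1 : g i = w <;> by_cases e2 : g j = w <;>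
                simp only [e1, e2, if_true, if_false] at e
              · exact gi i j hi hj (e1.trans e2.symm)
              · exact absurd e (g1 j hj).2.ne
              · exact absurd e.symm (g1 i hi).2.ne
              · exact gi i j hi hj e)
            (fun i hi => by
              by_cases e1 : g i = w
              · simp only [e1, if_true]; exact ⟨⟨hzw, Or.inr huz⟩, huz.ne'⟩
              · simp only [e1, if_false]
                exact ⟨⟨e1, Or.inr (hT u z0 _ huw hzw e1 huz (g1 i hi).2 (g1 i hi).1.symm)⟩,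
                  (g1 i hi).1⟩) (Kc_self huw)
          omega
        · exact ⟨c', h'⟩
      obtain ⟨c1, e1⟩ := key u huw le_rfl
      obtain ⟨c2, e2⟩ := key q hqw heq.le
      exact fin u q c1 c2 (Kc_self huw) (Kc_self hqw) e1 e2
    exact cp_case hF hf hw hn hz e fun p' h => ez h.1
  | att d p c i =>
    exact att_case hf hw hqw (fun _ => Iff.rfl) (fun _ => Iff.rfl) k1.1 qn hz

end Pool.Agent.Helper89.HF
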