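import Pool.Graph.R_pool_sql_team_ae5b0c61.H22.Gen2

/-! Transfer of contraction problems to graphs on arbitrary vertex types, and reductions that
change the parameter. -/

namespace Pool.Agent.Helper89.HF

open Pool.Agent.H22.CT Pool.Agent.H38.NP Pool.Agent.H36.Par SimpleGraph Function

theorem bridge_en {T V : Type} [DecidableEq T] (L : List T) (r : T → T → Bool) (d : T) (k : ℕ)
    {m : ℕ} (hm : 0 < m) (H : SimpleGraph (Fin m)) (h : ℕ → ℕ → Bool)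
    (h1 : ∀ i j : Fin m, i ≠ j → (H.Adj i j ↔ h i j = true)) (en : V → T) (hen : Injective en)
    (Val : V → Prop) (hL : ∀ a, a ∈ L ↔ ∃ v, Val v ∧ en v = a) (rl : V → V → Prop)
    (hr : ∀ v v', Val v → Val v' → (TA r (en v) (en v') ↔ rl v v')) :
    Con₁ H ((dd L).length, tgE (dd L) r d, k) ↔
    ∃ F : List (V × V), (∀ p ∈ F, Val p.1 ∧ Val p.2 ∧ rl p.1 p.2) ∧ F.length ≤ k ∧
      NoP Val (fun a b => Val a ∧ Val b ∧ rl a b) m h F := by
  obtain ⟨e, he, hm0, ha⟩ := tg_spec (dd_spec L).2.1 r d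
  have hm' : ∀ x, x ∈ L ↔ ∃ u, e u = x := fun x => ((dd_spec L).2.2 x).symm.trans (hm0 x)
  have hex : ∀ u, ∃ v, Val v ∧ en v = e u := fun u => (hL _).1 ((hm' _).2 ⟨u, rfl⟩)
  choose e' he1 he2 using hex
  refine bridge1 _ k e' (fun u u' hu => he ?_) Val (fun a b => Val a ∧ Val b ∧ rl a b)
    (fun v => ⟨fun hv => ?_, ?_⟩) (fun u u' => ?_) (fun a b hab => ⟨hab.1, hab.2.1⟩) hm H h h1
  · rw [← he2, ← he2, hu]
  · obtain ⟨u, hu⟩ := (hm' _).1 ((hL _).2 ⟨v, hv, rfl⟩)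
    exact ⟨u, hen ((he2 u).trans hu)⟩
  · rintro ⟨u, rfl⟩; exact he1 u
  · rw [ha, ← he2, ← he2, hr _ _ (he1 u) (he1 u')]
    exact ⟨fun hh => hh.2.2, fun hh => ⟨he1 u, he1 u', hh⟩⟩

/-- an induced copy of `H` in the contracted graph -/
def Cpy {V : Type} {m : ℕ} (H : SimpleGraph (Fin m)) (Val : V → Prop) (ad : V → V → Prop)
    (F : List (V × V)) : Prop :=
  ∃ f : Fin m → V, (∀ i, Val (f i)) ∧ ∀ i j, i ≠ j →
    ¬ E F (f i) (f j) ∧ (QA ad F (f i) (f j) ↔ H.Adj i j)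

theorem nop_iff {V : Type} {m : ℕ} (hm : 0 < m) (H : SimpleGraph (Fin m)) (h : ℕ → ℕ → Bool)
    (h1 : ∀ i j : Fin m, i ≠ j → (H.Adj i j ↔ h i j = true)) (Val : V → Prop)
    (ad : V → V → Prop) (F : List (V × V)) : NoP Val ad m h F ↔ ¬ Cpy H Val ad F := by
  refine not_congr ⟨?_, ?_⟩
  · rintro ⟨f, hf, hf'⟩
    refine ⟨fun i => f i, fun i => hf i i.2, fun i j hij => ?_⟩
    rw [h1 i j hij]
    exact hf' i i.2 j j.2 fun e => hij (Fin.ext e)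
  · rintro ⟨f, hf, hf'⟩
    refine ⟨fun i => f ⟨i % m, Nat.mod_lt _ hm⟩, fun i _ => hf _, fun i hi j hj hij => ?_⟩
    have e1 : (⟨i % m, Nat.mod_lt _ hm⟩ : Fin m) = ⟨i, hi⟩ := Fin.ext (Nat.mod_eq_of_lt hi)
    have e2 : (⟨j % m, Nat.mod_lt _ hm⟩ : Fin m) = ⟨j, hj⟩ := Fin.ext (Nat.mod_eq_of_lt hj)
    have hne : (⟨i, hi⟩ : Fin m) ≠ ⟨j, hj⟩ := fun e => hij (congrArg Fin.val e)
    have := h1 _ _ hne
    change ¬ H22.CT.E F (f ⟨i % m, _⟩) (f ⟨j % m, _⟩) ∧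
      (QA ad F (f ⟨i % m, _⟩) (f ⟨j % m, _⟩) ↔ _)
    rw [e1, e2, ← this]
    exact hf' _ _ hne

theorem con_iff {T V : Type} [DecidableEq T] (L : List T) (r : T → T → Bool) (d : T) (k : ℕ)
    {m : ℕ} (hm : 0 < m) (H : SimpleGraph (Fin m)) (en : V → T) (hen : Injective en)
    (Val : V → Prop) (hL : ∀ a, a ∈ L ↔ ∃ v, Val v ∧ en v = a) (rl : V → V → Prop)
    (hr : ∀ v v', Val v → Val v' → (TA r (en v) (en v') ↔ rl v v')) :
    Con₁ H ((dd L).length, tgE (dd L) r d, k) ↔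
    ∃ F : List (V × V), (∀ p ∈ F, Val p.1 ∧ Val p.2 ∧ rl p.1 p.2) ∧ F.length ≤ k ∧
      ¬ Cpy H Val (fun a b => Val a ∧ Val b ∧ rl a b) F := by
  classical
  have h1 : ∀ i j : Fin m, i ≠ j → (H.Adj i j ↔
      decide (∃ (hi : (i : ℕ) < m) (hj : (j : ℕ) < m), H.Adj ⟨i, hi⟩ ⟨j, hj⟩) = true) := by
    intro i j _
    simp
  rw [bridge_en L r d k hm H (fun i j => decide (∃ (hi : i < m) (hj : j < m),
    H.Adj ⟨i, hi⟩ ⟨j, hj⟩)) h1 en hen Val hL rl hr]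
  simp only [nop_iff hm H (fun i j => decide (∃ (hi : i < m) (hj : j < m),
    H.Adj ⟨i, hi⟩ ⟨j, hj⟩)) h1]

theorem freduces_of_ft_g {α β : Type} [Enc α] [Enc β] {P : α → Prop} {κ : α → ℕ} {Q : β → Prop}
    {μ : β → ℕ} {r : α → β} (hr : FT κ r) (g : ℕ → ℕ) (hg : Computable g)
    (h : ∀ a, (P a ↔ Q (r a)) ∧ μ (r a) ≤ g (κ a)) : FReduces P κ Q μ := by
  classical
  obtain ⟨p, t, ⟨f, c, hf, hb⟩, hp⟩ := hr
  let N := Finset.univ.sup fun l : Lab p => (ins p l).reg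
  have hN : ∀ l, (ins p l).reg ≤ N := fun l =>
    Finset.le_sup (f := fun l : Lab p => (ins p l).reg) (Finset.mem_univ l)
  have hi : ∀ x, Turing.initList (machine p N) x =
      cfgOf (N := N) (some (start p)) (sc x H38.NP.E) := by
    intro x
    simp only [Turing.initList, cfgOf, machine]
    congr 1
    funext k
    refine Fin.cases ?_ (fun k => ?_) k
    · rfl
    · simp [sc, H38.NP.E]
  have hh : ∀ x, Turing.haltList (machine p N) x = cfgOf (N := N) none (sc x H38.NP.E) := by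
    intro x
    simp only [Turing.haltList, cfgOf, machine]
    congr 1
    funext k
    refine Fin.cases ?_ (fun k => ?_) k
    · rfl
    · simp [sc, H38.NP.E]
  refine ⟨⟨machine p N, Equiv.refl _, Equiv.refl _⟩, f, g, c, hf, hg,
    fun a => ⟨r a, (h a).1, (h a).2, ?_⟩⟩
  obtain ⟨s, hs, he⟩ := hp a
  refine ⟨⟨⟨s, ?_⟩, hs.trans (hb a)⟩⟩
  have := Reach.iter hN he.reach
  simp only [Equiv.refl, Option.map_some]
  erw [List.map_id, List.map_id, hi, hh]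
  exact this

end Pool.Agent.Helper89.HF
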