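import Pool.Agent.Helper89.HF.TG

/-! The gadget for double stars: a long chain of kinds. -/

namespace Pool.Agent.Helper89.HF

open Pool.Agent.H22.CT Pool.Agent.H38.NP Pool.Agent.H36.Par SimpleGraph Function

inductive Cc : Type where
  | R : Cc
  | S : Cc
  | C (i : ℕ) : Cc
  | P (i : ℕ) : Cc
  | L (e i : ℕ) : Cc
  | F (e : ℕ) : Cc
  | Y (e : ℕ) : Cc
  deriving DecidableEq

def rC : Cc → Cc → Prop
  | .R, .S => True
  | .R, .P j => j = 0
  | .R, .Y _ => True
  | .C i, .C j => j = i + 1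
  | .P i, .C j => j = i ∨ j = i + 1 ∨ j = i + 2
  | .P i, .L e j => e = 0 ∧ j = i
  | .L _ i, .C j => j = i + 1 ∨ j = i + 2
  | .F _, .P j => j = 0
  | .F _, .C j => j = 1
  | _, _ => False

def okC (a b k : ℕ) : Cc → Prop
  | .C i => 0 < i ∧ i < 4 * k + 8
  | .P i => i < 4 * k + 8
  | .L e i => e < a - 1 ∧ i < 4 * k + 8
  | .F e => e < a - 2
  | .Y e => e < b - 1
  | _ => False

def lvC : Cc → ℕ
  | .C i => i
  | .P i => i
  | .L _ i => i + 1
  | _ => 0

def ecC : Cc → ℕ × ℕ × ℕ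
  | .R => (0, 0, 0)
  | .S => (1, 0, 0)
  | .C i => (2, 0, i)
  | .P i => (3, 0, i)
  | .L e i => (4, e, i)
  | .F e => (5, e, 0)
  | .Y e => (6, e, 0)

def rbC (s t : ℕ × ℕ × ℕ) : Bool :=
  (decide (s.1 = 0) && decide (t.1 = 1)) ||
  (decide (s.1 = 0) && decide (t.1 = 3) && decide (t.2.2 = 0)) ||
  (decide (s.1 = 0) && decide (t.1 = 6)) ||
  (decide (s.1 = 2) && decide (t.1 = 2) && decide (t.2.2 = s.2.2 + 1)) ||
  (decide (s.1 = 3) && decide (t.1 = 2) && (decide (t.2.2 = s.2.2) || decide (t.2.2 = s.2.2 + 1) ||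
    decide (t.2.2 = s.2.2 + 2))) ||
  (decide (s.1 = 3) && decide (t.1 = 4) && decide (t.2.1 = 0) && decide (t.2.2 = s.2.2)) ||
  (decide (s.1 = 4) && decide (t.1 = 2) && (decide (t.2.2 = s.2.2 + 1) ||
    decide (t.2.2 = s.2.2 + 2))) ||
  (decide (s.1 = 5) && decide (t.1 = 3) && decide (t.2.2 = 0)) ||
  (decide (s.1 = 5) && decide (t.1 = 2) && decide (t.2.2 = 1))

def obC (a b : ℕ) (s : ℕ × ℕ × ℕ) : Bool :=
  (decide (s.1 = 2) && decide (s.2.1 = 0) && decide (0 < s.2.2)) ||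
  (decide (s.1 = 3) && decide (s.2.1 = 0)) ||
  (decide (s.1 = 4) && decide (s.2.1 < a - 1)) ||
  (decide (s.1 = 5) && decide (s.2.1 < a - 2) && decide (s.2.2 = 0)) ||
  (decide (s.1 = 6) && decide (s.2.1 < b - 1) && decide (s.2.2 = 0))

def LcC (a b k : ℕ) : List (ℕ × ℕ × ℕ) :=
  ((List.range 7).product ((List.range (a + b + 1)).product (List.range (4 * k + 8)))).filter
    (obC a b)

def GC (a b : ℕ) : Gd Cc where
  R := .R
  S := .S
  Q := .C 0
  r := rC
  okc := okC a b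
  lv := lvC
  ec := ecC
  rb := rbC
  Lc := LcC a b

theorem GC_ok (a b : ℕ) : (GC a b).Ok where
  RS := by simp [GC]
  RQ := by simp [GC]
  SQ := by simp [GC]
  rRS := by simp [GC, rC]
  nRQ := by simp [GC, rC]
  sN := fun c h => by cases c <;> simp_all [GC, rC]
  okn := fun k c h => by
    cases c <;> simp_all [GC, okC]
    omega
  ecI := fun s t h => by cases s <;> cases t <;> simp_all [GC, ecC]
  rbs := fun s t => by
    simp only [GC, rbC, Bool.or_eq_true, Bool.and_eq_true, decide_eq_true_eq]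
    cases s <;> cases t <;> simp [ecC, rC, or_assoc]
  Lcs := fun k s => by
    obtain ⟨s1, s2, s3⟩ := s
    simp only [GC, LcC, List.mem_filter, List.pair_mem_product, List.mem_range, obC,
      Bool.or_eq_true, Bool.and_eq_true, decide_eq_true_eq]
    constructor
    · rintro ⟨⟨h1, h2, h3⟩, h⟩
      rcases h with (((h | h) | h) | h) | h
      · exact ⟨.C s3, ⟨h.2, h3⟩, by simp [ecC, h.1.1, h.1.2]⟩
      · exact ⟨.P s3, h3, by simp [ecC, h.1, h.2]⟩
      · exact ⟨.L s2 s3, ⟨h.2, h3⟩, by simp [ecC, h.1]⟩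
      · exact ⟨.F s2, h.1.2, by simp [ecC, h.1.1, h.2]⟩
      · exact ⟨.Y s2, h.1.2, by simp [ecC, h.1.1, h.2]⟩
    · rintro ⟨c, h, e⟩
      cases c <;> simp only [okC, ecC, Prod.mk.injEq] at h e <;> obtain ⟨rfl, rfl, rfl⟩ := e <;>
        first
          | exact h.elim
          | (simp; omega)
  ptr := by unfold GC rbC; fun_prop
  ptL := by unfold GC LcC obC; fun_prop
  lvR := rfl

/-- a colouring of the kinds -/
def χC : Cc → ℕ
  | .L e _ => e
  | .F e => e + 1
  | _ => 0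

theorem χC_lt {a b k : ℕ} (ha : 2 ≤ a) {c : Cc} (h : (GC a b).okT k c) : χC c < a - 1 := by
  rcases h with h | h | h | h
  · rw [h]; simp only [GC, χC]; omega
  · rw [h]; simp only [GC, χC]; omega
  · rw [h]; simp only [GC, χC]; omega
  · cases c <;> simp only [GC, okC, χC] at h ⊢ <;> omega

def sideC (a b : ℕ) (s t : Cc) : Prop :=
  ∀ x y, (GC a b).may s x → ¬ (GC a b).ful x t → (GC a b).may s y → ¬ (GC a b).ful y t →
    χC x = χC y → (GC a b).ful x y

theorem sideF (a b : ℕ) (e : ℕ) (t : Cc) (h : (GC a b).may (.F e) t) : sideC a b (.F e) t := by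
  intro x y h1 h2 h3 h4 h5
  cases t <;> cases x <;> cases y <;>
    simp [GC, Gd.may, Gd.ful, Gd.fu, rC, χC] at h h1 h2 h3 h4 h5 ⊢ <;> omega

theorem sideY (a b : ℕ) (e : ℕ) (t : Cc) (h : (GC a b).may (.Y e) t) : sideC a b (.Y e) t := by
  intro x y h1 h2 h3 h4 h5
  cases t <;> cases x <;> cases y <;>
    simp [GC, Gd.may, Gd.ful, Gd.fu, rC, χC] at h h1 h2 h3 h4 h5 ⊢ <;> omega

theorem sideS (a b : ℕ) (t : Cc) (h : (GC a b).may .S t) : sideC a b .S t := by
  intro x y h1 h2 h3 h4 h5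
  cases t <;> cases x <;> cases y <;>
    simp [GC, Gd.may, Gd.ful, Gd.fu, rC, χC] at h h1 h2 h3 h4 h5 ⊢ <;> omega

theorem sideL (a b : ℕ) (e i : ℕ) (t : Cc) (h : (GC a b).may (.L e i) t) :
    sideC a b (.L e i) t := by
  intro x y h1 h2 h3 h4 h5
  cases t <;> cases x <;> cases y <;>
    simp [GC, Gd.may, Gd.ful, Gd.fu, rC, χC] at h h1 h2 h3 h4 h5 ⊢ <;> omega

theorem sideR (a b : ℕ) : sideC a b .R .R := by
  intro x y h1 h2 h3 h4 h5
  cases x <;> cases y <;>
    simp [GC, Gd.may, Gd.ful, Gd.fu, rC, χC] at h1 h2 h3 h4 h5 ⊢ <;> omega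

theorem sidePR (a b i : ℕ) (h : (GC a b).may (.P i) .R) : sideC a b (.P i) .R := by
  intro x y h1 h2 h3 h4 h5
  cases x <;> cases y <;>
    simp [GC, Gd.may, Gd.ful, Gd.fu, rC, χC] at h h1 h2 h3 h4 h5 ⊢ <;> omega

theorem sidePP (a b i j : ℕ) (h : (GC a b).may (.P i) (.P j)) : sideC a b (.P i) (.P j) := by
  intro x y h1 h2 h3 h4 h5
  cases x <;> cases y <;>
    simp [GC, Gd.may, Gd.ful, Gd.fu, rC, χC] at h h1 h2 h3 h4 h5 ⊢ <;> omega

theorem sidePC (a b i j : ℕ) (h : (GC a b).may (.P i) (.C j)) : sideC a b (.P i) (.C j) := by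
  intro x y h1 h2 h3 h4 h5
  cases x <;> cases y <;>
    simp [GC, Gd.may, Gd.ful, Gd.fu, rC, χC] at h h1 h2 h3 h4 h5 ⊢ <;> omega

theorem sideCR (a b i : ℕ) (h : (GC a b).may (.C i) .R) : sideC a b (.C i) .R := by
  intro x y h1 h2 h3 h4 h5
  cases x <;> cases y <;>
    simp [GC, Gd.may, Gd.ful, Gd.fu, rC, χC] at h h1 h2 h3 h4 h5 ⊢ <;> omega

theorem sideCC (a b i j : ℕ) (h : j = i ∨ j = i + 1) : sideC a b (.C i) (.C j) := by
  intro x y h1 h2 h3 h4 h5
  cases x <;> cases y <;>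
    simp [GC, Gd.may, Gd.ful, Gd.fu, rC, χC] at h h1 h2 h3 h4 h5 ⊢ <;> omega

theorem side_all (a b : ℕ) {s t : Cc} (h : (GC a b).may s t) :
    sideC a b s t ∨ sideC a b t s := by
  have h' := h.symm
  cases s with
  | F e => exact Or.inl (sideF a b e t h)
  | Y e => exact Or.inl (sideY a b e t h)
  | S => exact Or.inl (sideS a b t h)
  | L e i => exact Or.inl (sideL a b e i t h)
  | R =>
    cases t with
    | F e => exact Or.inr (sideF a b e _ h')
    | Y e => exact Or.inr (sideY a b e _ h')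
    | S => exact Or.inr (sideS a b _ h')
    | L e i => exact Or.inr (sideL a b e i _ h')
    | R => exact Or.inl (sideR a b)
    | P i => exact Or.inr (sidePR a b i h')
    | C i => exact Or.inr (sideCR a b i h')
  | P i =>
    cases t with
    | F e => exact Or.inr (sideF a b e _ h')
    | Y e => exact Or.inr (sideY a b e _ h')
    | S => exact Or.inr (sideS a b _ h')
    | L e i => exact Or.inr (sideL a b e i _ h')
    | R => exact Or.inl (sidePR a b i h)
    | P j => exact Or.inl (sidePP a b i j h)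
    | C j => exact Or.inl (sidePC a b i j h)
  | C i =>
    cases t with
    | F e => exact Or.inr (sideF a b e _ h')
    | Y e => exact Or.inr (sideY a b e _ h')
    | S => exact Or.inr (sideS a b _ h')
    | L e i => exact Or.inr (sideL a b e i _ h')
    | R => exact Or.inl (sideCR a b i h)
    | P j => exact Or.inr (sidePC a b j i h')
    | C j =>
      have : j = i ∨ j = i + 1 ∨ i = j + 1 := by
        simp [GC, Gd.may, Gd.ful, Gd.fu, rC] at h; omega
      rcases this with e | e | e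
      · exact Or.inl (sideCC a b i j (Or.inl e))
      · exact Or.inl (sideCC a b i j (Or.inr e))
      · exact Or.inr (sideCC a b j i (Or.inr e))

end Pool.Agent.Helper89.HF
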