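import Pool.Agent.Helper89.HF.Ch

/-! Double stars. -/

namespace Pool.Agent.Helper89.HF

open Pool.Agent.H22.CT Pool.Agent.H38.NP Pool.Agent.H36.Par SimpleGraph Function

variable {m : ℕ}

/-- the double star with `a` leaves at `xa` and `b` leaves at `xb` -/
structure DS (H : SimpleGraph (Fin m)) (a b : ℕ) (xa xb : Fin m) (A B : Fin m → Prop)
    (ia ib : Fin m → ℕ) : Prop where
  ab : H.Adj xa xb
  cov : ∀ v, v = xa ∨ v = xb ∨ A v ∨ B v
  Aa : ∀ v, A v → ∀ u, H.Adj v u ↔ u = xa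
  Bb : ∀ v, B v → ∀ u, H.Adj v u ↔ u = xb
  Axb : ∀ v, A v → v ≠ xb
  Bxa : ∀ v, B v → v ≠ xa
  a1 : ∀ v, A v → ia v < a
  a2 : ∀ v v', A v → A v' → ia v = ia v' → v = v'
  b1 : ∀ v, B v → ib v < b
  b2 : ∀ v v', B v → B v' → ib v = ib v' → v = v'

theorem DS.Axa {H : SimpleGraph (Fin m)} {a b : ℕ} {xa xb : Fin m} {A B : Fin m → Prop}
    {ia ib : Fin m → ℕ} (h : DS H a b xa xb A B ia ib) {v : Fin m} (hv : A v) : v ≠ xa :=
  ((h.Aa v hv xa).2 rfl).ne

theorem DS.Bxb {H : SimpleGraph (Fin m)} {a b : ℕ} {xa xb : Fin m} {A B : Fin m → Prop}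
    {ia ib : Fin m → ℕ} (h : DS H a b xa xb A B ia ib) {v : Fin m} (hv : B v) : v ≠ xb :=
  ((h.Bb v hv xb).2 rfl).ne

theorem DS.AB {H : SimpleGraph (Fin m)} {a b : ℕ} {xa xb : Fin m} {A B : Fin m → Prop}
    {ia ib : Fin m → ℕ} (h : DS H a b xa xb A B ia ib) {v : Fin m} (hv : A v) : ¬ B v :=
  fun hb => h.ab.ne ((h.Bb v hb xa).1 ((h.Aa v hv xa).2 rfl))

theorem ds_pat {Cd : Type} {G : Gd Cd} {H : SimpleGraph (Fin m)} {a b : ℕ} {xa xb : Fin m}
    {A B : Fin m → Prop} {ia ib : Fin m → ℕ} (h : DS H a b xa xb A B ia ib) {k : ℕ}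
    {Z : Cd → Prop} (ca : Cd) (cA cB : ℕ → Cd) (o0 : G.okT k ca) (o1 : ∀ e < a, G.okT k (cA e))
    (o2 : ∀ e < b, G.okT k (cB e)) (n0 : ca ≠ G.R) (n1 : ∀ e < a, cA e ≠ G.R)
    (n2 : ∀ e < b, cB e ≠ G.R) (n3 : ∀ e < a, ca ≠ cA e)
    (f1 : ∀ e < a, G.fu ca (cA e)) (f2 : ∀ e < b, ¬ G.fu ca (cB e))
    (f3 : ∀ e < a, ∀ e' < a, e ≠ e' → ¬ G.fu (cA e) (cA e'))
    (f4 : ∀ e < b, ∀ e' < b, e ≠ e' → ¬ G.fu (cB e) (cB e'))
    (f5 : ∀ e < a, ∀ e' < b, ¬ G.fu (cA e) (cB e'))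
    (d0 : ∃ c, Z c ∧ G.fu c ca) (d1 : ∀ e < a, ¬ ∃ c, Z c ∧ G.fu c (cA e))
    (d2 : ∀ e < b, ∃ c, Z c ∧ G.fu c (cB e)) :
    ∃ (τ : Fin m → Cd) (β : Fin m → ℕ), (∀ i, G.okT k (τ i)) ∧ (∀ i, β i < 2) ∧
      (∀ i j, i ≠ j → τ i = G.R → τ j ≠ G.R) ∧
      (∀ i j, i ≠ j → τ i = τ j → β i ≠ β j) ∧
      (∀ i j, i ≠ j → τ i ≠ G.R → τ j ≠ G.R → (H.Adj i j ↔ G.fu (τ i) (τ j))) ∧
      ∀ i j, i ≠ j → τ i = G.R → (H.Adj i j ↔ ∃ c, Z c ∧ G.fu c (τ j)) := by
  classical
  let τ : Fin m → Cd := fun v => if v = xb then G.R else if v = xa then ca else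
    if A v then cA (ia v) else cB (ib v)
  have tb : τ xb = G.R := if_pos rfl
  have ta : τ xa = ca := by simp [τ, h.ab.ne]
  have tA : ∀ v, A v → τ v = cA (ia v) := fun v hv => by
    simp [τ, h.Axb v hv, h.Axa hv, hv]
  have tB : ∀ v, B v → τ v = cB (ib v) := fun v hv => by
    have : ¬ A v := fun h' => h.AB h' hv
    simp [τ, h.Bxa v hv, h.Bxb hv, this]
  have nR : ∀ v, v ≠ xb → τ v ≠ G.R := fun v hv => by
    rcases h.cov v with e | e | e | e
    · rw [e, ta]; exact n0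
    · exact absurd e hv
    · rw [tA v e]; exact n1 _ (h.a1 v e)
    · rw [tB v e]; exact n2 _ (h.b1 v e)
  have only : ∀ v, τ v = G.R → v = xb := fun v hv => by
    by_contra e; exact nR v e hv
  -- pairs of vertices different from `xb`
  have adj : ∀ i j, i ≠ j → i ≠ xb → j ≠ xb → τ i ≠ τ j ∧ (H.Adj i j ↔ G.fu (τ i) (τ j)) := by
    have one : ∀ i j, i ≠ j → i ≠ xb → j ≠ xb → (i = xa ∨ (A i ∧ j ≠ xa) ∨ (B i ∧ B j)) →
        τ i ≠ τ j ∧ (H.Adj i j ↔ G.fu (τ i) (τ j)) := fun i j hij hi hj hc => by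
      rcases hc with rfl | ⟨hc, hja⟩ | ⟨hc, hc'⟩
      · rw [ta]
        rcases h.cov j with e | e | e | e
        · exact absurd e.symm hij
        · exact absurd e hj
        · rw [tA j e]
          exact ⟨n3 _ (h.a1 j e), iff_of_true ((h.Aa j e _).2 rfl).symm (f1 _ (h.a1 j e))⟩
        · rw [tB j e]
          have := f2 _ (h.b1 j e)
          exact ⟨fun e' => this (Or.inl e'),
            iff_of_false (fun h' => hi ((h.Bb j e _).1 h'.symm)) this⟩
      · rw [tA i hc]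
        rcases h.cov j with e | e | e | e
        · exact absurd e hja
        · exact absurd e hj
        · rw [tA j e]
          have := f3 _ (h.a1 i hc) _ (h.a1 j e) fun e' => hij (h.a2 i j hc e e')
          exact ⟨fun e' => this (Or.inl e'),
            iff_of_false (fun h' => hja ((h.Aa i hc _).1 h')) this⟩
        · rw [tB j e]
          have := f5 _ (h.a1 i hc) _ (h.b1 j e)
          exact ⟨fun e' => this (Or.inl e'),
            iff_of_false (fun h' => hja ((h.Aa i hc _).1 h')) this⟩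
      · rw [tB i hc, tB j hc']
        have := f4 _ (h.b1 i hc) _ (h.b1 j hc') fun e' => hij (h.b2 i j hc hc' e')
        exact ⟨fun e' => this (Or.inl e'),
          iff_of_false (fun h' => hj ((h.Bb i hc _).1 h')) this⟩
    intro i j hij hi hj
    have sw : (j = xa ∨ (A j ∧ i ≠ xa) ∨ (B j ∧ B i)) →
        τ i ≠ τ j ∧ (H.Adj i j ↔ G.fu (τ i) (τ j)) := fun hc => by
      have := one j i hij.symm hj hi hc
      exact ⟨this.1.symm, (H.adj_comm i j).trans (this.2.trans ⟨Gd.fu.symm, Gd.fu.symm⟩)⟩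
    rcases h.cov i with e | e | e | e
    · exact one i j hij hi hj (Or.inl e)
    · exact absurd e hi
    · by_cases e' : j = xa
      · exact sw (Or.inl e')
      · exact one i j hij hi hj (Or.inr (Or.inl ⟨e, e'⟩))
    · rcases h.cov j with e' | e' | e' | e'
      · exact sw (Or.inl e')
      · exact absurd e' hj
      · exact sw (Or.inr (Or.inl ⟨e', h.Bxa i e⟩))
      · exact one i j hij hi hj (Or.inr (Or.inr ⟨e, e'⟩))
  refine ⟨τ, fun _ => 0, fun v => ?_, fun _ => Nat.zero_lt_two, fun i j hij hi hj => ?_,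
    fun i j hij e => ?_, fun i j hij hi hj => ?_, fun i j hij hi => ?_⟩
  · rcases h.cov v with e | e | e | e
    · rw [e, ta]; exact o0
    · rw [e, tb]; exact Or.inl rfl
    · rw [tA v e]; exact o1 _ (h.a1 v e)
    · rw [tB v e]; exact o2 _ (h.b1 v e)
  · exact hij ((only i hi).trans (only j hj).symm)
  · exfalso
    by_cases hi : i = xb
    · rw [hi, tb] at e; exact hij (hi.trans (only j e.symm).symm)
    · by_cases hj : j = xb
      · rw [hj, tb] at e; exact hi (only i e)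
      · exact (adj i j hij hi hj).1 e
  · exact (adj i j hij (fun e => hi (e ▸ tb)) fun e => hj (e ▸ tb)).2
  · obtain rfl := only i hi
    rcases h.cov j with e | e | e | e
    · rw [e, ta]; exact iff_of_true h.ab.symm d0
    · exact absurd e.symm hij
    · rw [tA j e]
      exact iff_of_false (fun h' => h.ab.ne' ((h.Aa j e _).1 h'.symm)) (d1 _ (h.a1 j e))
    · rw [tB j e]
      exact iff_of_true ((h.Bb j e _).2 rfl).symm (d2 _ (h.b1 j e))

theorem chain_free {H : SimpleGraph (Fin m)} {a b : ℕ} {xa xb : Fin m} {A B : Fin m → Prop}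
    {ia ib : Fin m → ℕ} (h : DS H a b xa xb A B ia ib) (ha : 2 ≤ a) (hab : a ≤ b)
    (cA : ∃ s : Finset (Fin m), (∀ v ∈ s, A v) ∧ a ≤ s.card)
    (cB : ∃ s : Finset (Fin m), (∀ v ∈ s, B v) ∧ b ≤ s.card) : FreeT (GC a b) H := by
  intro k τ t0 t1 t2 t3
  obtain ⟨sA, sA1, sA2⟩ := cA
  obtain ⟨sB, sB1, sB2⟩ := cB
  rcases side_all a b (t2 xa xb h.ab.ne h.ab) with hs | hs
  · have := Finset.card_le_card_of_injOn (s := sA) (t := Finset.range (a - 1))
      (fun v => χC (τ v)) (fun v _ => by simpa using χC_lt ha (t0 v)) (fun v hv v' hv' e => by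
        by_contra hne
        have hv := sA1 v hv
        have hv' := sA1 v' hv'
        have c : ∀ v, A v → (GC a b).may (τ xa) (τ v) ∧ ¬ (GC a b).ful (τ v) (τ xb) :=
          fun v hv => ⟨t2 xa v (h.Axa hv).symm ((h.Aa v hv _).2 rfl).symm, fun hf =>
            h.ab.ne' ((h.Aa v hv _).1 (t3 v xb (h.Axb v hv) hf))⟩
        exact h.Axa hv' ((h.Aa v hv _).1 (t3 v v' hne (hs _ _ (c v hv).1 (c v hv).2 (c v' hv').1
          (c v' hv').2 e))))
    rw [Finset.card_range] at this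
    omega
  · have := Finset.card_le_card_of_injOn (s := sB) (t := Finset.range (a - 1))
      (fun v => χC (τ v)) (fun v _ => by simpa using χC_lt ha (t0 v)) (fun v hv v' hv' e => by
        by_contra hne
        have hv := sB1 v hv
        have hv' := sB1 v' hv'
        have c : ∀ v, B v → (GC a b).may (τ xb) (τ v) ∧ ¬ (GC a b).ful (τ v) (τ xa) :=
          fun v hv => ⟨t2 xb v (h.Bxb hv).symm ((h.Bb v hv _).2 rfl).symm, fun hf =>
            h.ab.ne ((h.Bb v hv _).1 (t3 v xa (h.Bxa v hv) hf))⟩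
        exact h.Bxb hv' ((h.Bb v hv _).1 (t3 v v' hne (hs _ _ (c v hv).1 (c v hv).2 (c v' hv').1
          (c v' hv').2 e))))
    rw [Finset.card_range] at this
    omega

theorem lv_step {a b : ℕ} {c c' : Cc} (h : (GC a b).fu c c' ∨ (c = (GC a b).S ∧ c' = (GC a b).Q) ∨
    (c = (GC a b).Q ∧ c' = (GC a b).S)) : lvC c' ≤ lvC c + 2 := by
  rcases h with (h | h | h) | h | h
  · rw [h]; omega
  · cases c <;> cases c' <;> simp [GC, rC, lvC] at h ⊢ <;> omega
  · cases c <;> cases c' <;> simp [GC, rC, lvC] at h ⊢ <;> omega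
  · rw [h.1, h.2]; simp [GC, lvC]
  · rw [h.1, h.2]; simp [GC, lvC]

theorem chain_adv {H : SimpleGraph (Fin m)} {a b : ℕ} {xa xb : Fin m} {A B : Fin m → Prop}
    {ia ib : Fin m → ℕ} (h : DS H a b xa xb A B ia ib) (ha : 2 ≤ a) (hab : a ≤ b) :
    AdvT (GC a b) H := by
  classical
  intro k Z ZR Zok conn blk
  have ZR : Z .R := ZR
  obtain ⟨b0, hb0, hblk⟩ := blk
  have hlv : ∀ c, Z c → lvC c < 2 * b0 + 2 := by
    refine conn (fun c => lvC c < 2 * b0 + 2) (by simp [GC, lvC]) fun c c' hc hP hc' hA => ?_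
    have h1 := lv_step hA
    have h2 : lvC c' / 2 ≠ b0 + 1 := hblk c' hc'
    omega
  have D : ∀ c, (∃ c', Z c' ∧ (GC a b).fu c' c) → lvC c ≤ 4 * k + 3 := fun c ⟨c', h1, h2⟩ => by
    have := lv_step (Or.inl h2 : (GC a b).fu c' c ∨ _)
    have := hlv c' h1
    omega
  have dS : ∃ c, Z c ∧ (GC a b).fu c .S := ⟨.R, ZR, by simp [Gd.fu, GC, rC]⟩
  have dY : ∀ e, ∃ c, Z c ∧ (GC a b).fu c (.Y e) := fun e => ⟨.R, ZR, by simp [Gd.fu, GC, rC]⟩
  by_cases hbad : ∃ j, 1 ≤ j ∧ ∃ c', Z c' ∧ (GC a b).fu c' (.C j)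
  · obtain ⟨j0, hj0⟩ := hbad
    set j := Nat.findGreatest (fun j => 1 ≤ j ∧ ∃ c', Z c' ∧ (GC a b).fu c' (.C j)) (4 * k + 3)
      with hjd
    have hj : 1 ≤ j ∧ ∃ c', Z c' ∧ (GC a b).fu c' (.C j) := by
      have := Nat.findGreatest_spec (P := fun j => 1 ≤ j ∧ ∃ c', Z c' ∧ (GC a b).fu c' (.C j))
        (n := 4 * k + 3) (m := j0) (D _ hj0.2) hj0
      exact this
    have hmax : ¬ ∃ c', Z c' ∧ (GC a b).fu c' (.C (j + 1)) := fun hc => by
      have := Nat.le_findGreatest (P := fun j => 1 ≤ j ∧ ∃ c', Z c' ∧ (GC a b).fu c' (.C j))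
        (n := 4 * k + 3) (m := j + 1) (D _ hc) ⟨by omega, hc⟩
      omega
    have hjk : j ≤ 4 * k + 3 := D _ hj.2
    have nL : ∀ e, ¬ ∃ c', Z c' ∧ (GC a b).fu c' (.L e (j - 1)) := fun e ⟨c', h1, h2⟩ => by
      refine hmax ⟨c', h1, ?_⟩
      cases c' <;> simp [Gd.fu, GC, rC] at h2 ⊢ <;> omega
    have nP : ¬ ∃ c', Z c' ∧ (GC a b).fu c' (.P j) := fun ⟨c', h1, h2⟩ => by
      refine hmax ⟨c', h1, ?_⟩
      cases c' <;> simp [Gd.fu, GC, rC] at h2 ⊢ <;> omega
    refine ds_pat h (.C j) (fun e => if e = 0 then .P j else .L (e - 1) (j - 1))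
      (fun e => if e = 0 then .S else .Y (e - 1)) ?_ (fun e he => ?_) (fun e he => ?_) ?_
      (fun e he => ?_) (fun e he => ?_) (fun e he => ?_) (fun e he => ?_) (fun e he => ?_)
      (fun e he e' he' hee => ?_) (fun e he e' he' hee => ?_) (fun e he e' he' => ?_) hj.2
      (fun e he => ?_) (fun e he => ?_)
    · exact Or.inr (Or.inr (Or.inr (by simp only [GC, okC]; omega)))
    · by_cases e0 : e = 0 <;> simp only [e0, if_true, if_false]
      · exact Or.inr (Or.inr (Or.inr (by simp only [GC, okC]; omega)))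
      · exact Or.inr (Or.inr (Or.inr (by simp only [GC, okC]; omega)))
    · by_cases e0 : e = 0 <;> simp only [e0, if_true, if_false]
      · exact Or.inr (Or.inl rfl)
      · exact Or.inr (Or.inr (Or.inr (by simp only [GC, okC]; omega)))
    · simp [GC]
    · by_cases e0 : e = 0 <;> simp [e0, GC]
    · by_cases e0 : e = 0 <;> simp [e0, GC]
    · by_cases e0 : e = 0 <;> simp [e0]
    · by_cases e0 : e = 0 <;> simp [e0, GC, Gd.fu, rC]
      omega
    · by_cases e0 : e = 0 <;> simp [e0, GC, Gd.fu, rC]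
    · by_cases e0 : e = 0 <;> by_cases e1 : e' = 0 <;> simp [e0, e1, GC, Gd.fu, rC] <;> omega
    · by_cases e0 : e = 0 <;> by_cases e1 : e' = 0 <;> simp [e0, e1, GC, Gd.fu, rC] <;> omega
    · by_cases e0 : e = 0 <;> by_cases e1 : e' = 0 <;> simp [e0, e1, GC, Gd.fu, rC]
    · by_cases e0 : e = 0 <;> simp only [e0, if_true, if_false]
      · exact nP
      · exact nL _
    · by_cases e0 : e = 0 <;> simp only [e0, if_true, if_false]
      · exact dS
      · exact dY _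
  · have good : ∀ c, Z c → c = .R ∨ c = .S ∨ ∃ e, c = .Y e := fun c hc => by
      by_contra hn
      push Not at hn
      cases c with
      | R => exact hn.1 rfl
      | S => exact hn.2.1 rfl
      | Y e => exact hn.2.2 e rfl
      | C i => exact hbad ⟨i + 1, by omega, _, hc, by simp [GC, Gd.fu, rC]⟩
      | P i => exact hbad ⟨i + 1, by omega, _, hc, by simp [GC, Gd.fu, rC]⟩
      | L e i => exact hbad ⟨i + 1, by omega, _, hc, by simp [GC, Gd.fu, rC]⟩
      | F e => exact hbad ⟨1, by omega, _, hc, by simp [GC, Gd.fu, rC]⟩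
    refine ds_pat h (.P 0) (fun e => if e = 0 then .C 0 else if e = 1 then .C 2 else .F (e - 2))
      (fun e => if e = 0 then .S else .Y (e - 1)) ?_ (fun e he => ?_) (fun e he => ?_) ?_
      (fun e he => ?_) (fun e he => ?_) (fun e he => ?_) (fun e he => ?_) (fun e he => ?_)
      (fun e he e' he' hee => ?_) (fun e he e' he' hee => ?_) (fun e he e' he' => ?_) ?_
      (fun e he => ?_) (fun e he => ?_)
    · exact Or.inr (Or.inr (Or.inr (by simp only [GC, okC]; omega)))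
    · by_cases e0 : e = 0
      · simp only [e0, if_true]; exact Or.inr (Or.inr (Or.inl rfl))
      by_cases e1 : e = 1
      · simp only [e1, if_true]
        rw [if_neg (by omega)]
        exact Or.inr (Or.inr (Or.inr (by simp only [GC, okC]; omega)))
      · simp only [e0, e1, if_false]
        exact Or.inr (Or.inr (Or.inr (by simp only [GC, okC]; omega)))
    · by_cases e0 : e = 0 <;> simp only [e0, if_true, if_false]
      · exact Or.inr (Or.inl rfl)
      · exact Or.inr (Or.inr (Or.inr (by simp only [GC, okC]; omega)))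
    · simp [GC]
    · by_cases e0 : e = 0 <;> by_cases e1 : e = 1 <;> simp [e0, e1, GC]
    · by_cases e0 : e = 0 <;> simp [e0, GC]
    · by_cases e0 : e = 0 <;> by_cases e1 : e = 1 <;> simp [e0, e1]
    · by_cases e0 : e = 0 <;> by_cases e1 : e = 1 <;> simp [e0, e1, GC, Gd.fu, rC]
    · by_cases e0 : e = 0 <;> simp [e0, GC, Gd.fu, rC]
    · by_cases e0 : e = 0 <;> by_cases e1 : e' = 0 <;> by_cases e2 : e = 1 <;>
        by_cases e3 : e' = 1 <;> simp [e0, e1, e2, e3, GC, Gd.fu, rC] <;> omega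
    · by_cases e0 : e = 0 <;> by_cases e1 : e' = 0 <;> simp [e0, e1, GC, Gd.fu, rC] <;> omega
    · by_cases e0 : e = 0 <;> by_cases e1 : e' = 0 <;> by_cases e2 : e = 1 <;>
        simp [e0, e1, e2, GC, Gd.fu, rC]
    · exact ⟨.R, ZR, by simp [GC, Gd.fu, rC]⟩
    · rintro ⟨c, h1, h2⟩
      by_cases e0 : e = 0 <;> by_cases e1 : e = 1 <;> simp only [e0, e1, if_true, if_false] at h2 <;>
        rcases good c h1 with rfl | rfl | ⟨e', rfl⟩ <;> simp [GC, Gd.fu, rC] at h2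
    · by_cases e0 : e = 0 <;> simp only [e0, if_true, if_false]
      · exact dS
      · exact dY _

theorem chain_hard {H : SimpleGraph (Fin m)} {a b : ℕ} {xa xb : Fin m} {A B : Fin m → Prop}
    {ia ib : Fin m → ℕ} (h : DS H a b xa xb A B ia ib) (ha : 2 ≤ a) (hab : a ≤ b)
    (cA : ∃ s : Finset (Fin m), (∀ v ∈ s, A v) ∧ a ≤ s.card)
    (cB : ∃ s : Finset (Fin m), (∀ v ∈ s, B v) ∧ b ≤ s.card) : W2Hard (Con₁ H) :=
  tg_hard (GC_ok a b) xa.pos (chain_free h ha hab cA cB) (chain_adv h ha hab)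

end Pool.Agent.Helper89.HF
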