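import Pool.Agent.Helper89.HF.A2c

/-! Cases in which the plain gadget works. -/

namespace Pool.Agent.Helper89.HF

open Pool.Agent.H22.CT Pool.Agent.H38.NP Pool.Agent.H36.Par SimpleGraph Function

variable {m : ℕ}

/-- a complete graph with at least five vertices and a pendant vertex -/
theorem P3 {H : SimpleGraph (Fin m)} {w u q1 q2 : Fin m} (hm : 6 ≤ m) (huw : u ≠ w)
    (hu : ∀ v, H.Adj u v ↔ v = w) (hK : ∀ a b, a ≠ u → b ≠ u → a ≠ b → H.Adj a b)
    (h12 : q1 ≠ q2) (h1u : q1 ≠ u) (h2u : q2 ≠ u) : W2Hard (Con₁ H) := by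
  classical
  refine gen_hard H u (fun p => p = q1 ∨ p = q2) false ?_
  intro ρ p s inc h0 h1 h2 h3 h4 h5 h6 h7 h8
  have big : ∀ S : Fin 4 → Fin m → Prop, (∀ i, i ≠ u → ∃ k, S k i) →
      (∀ k i j, i ≠ u → j ≠ u → S k i → S k j → i = j) → False := fun S a b => by
    choose! φ hφ using a
    have := Finset.card_le_card_of_injOn (s := Finset.univ.erase u) (t := Finset.univ) φ
      (fun i _ => by simp)
      (fun i hi j hj e => b (φ i) i j (by simpa using hi) (by simpa using hj)
        (hφ i (by simpa using hi)) (e ▸ hφ j (by simpa using hj)))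
    rw [Finset.card_erase_of_mem (Finset.mem_univ _), Finset.card_univ, Finset.card_univ,
      Fintype.card_fin, Fintype.card_fin] at this
    omega
  have c2 : ∀ i, i ≠ u → ρ i = 2 := by
    have o3 : ∀ j j', j ≠ u → j' ≠ u → ρ j = 2 → ρ j' = 2 → p j = p j' → j = j' :=
      fun j j' hj hj' a b e => by
      by_contra hne
      exact h3 j j' hne a b ((h8 j j' hne a b).1 (hK j j' hj hj' hne)).1 e
    have o0 : ∀ j j', ρ j = 0 → ρ j' = 0 → j = j' := fun j j' a b => by
      by_contra hne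
      exact h2 j j' hne a b
    have c1 : ∀ i, i ≠ u → ρ i ≠ 1 := fun i hi h => by
      have o1 : ∀ j, j ≠ u → ρ j = 1 → j = i := fun j hj hj' => by
        by_contra e
        simpa using (h6 j i e hj' h).1 (hK j i hj hi e)
      have o2 : ∀ j, j ≠ u → ρ j = 2 → (p j = q1 ∨ p j = q2) := fun j hj hj' => by
        have hne : i ≠ j := fun e => by rw [e] at h; omega
        exact ((h7 i j h hj').1 (hK i j hi hj hne)).1
      refine big ![fun j => ρ j = 0, fun j => j = i, fun j => ρ j = 2 ∧ p j = q1,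
        fun j => ρ j = 2 ∧ p j = q2] (fun j hj => ?_) fun k j j' hj hj' => ?_
      · rcases h0 j with a | a | a
        · exact ⟨0, a⟩
        · exact ⟨1, o1 j hj a⟩
        · rcases o2 j hj a with b | b
          · exact ⟨2, a, b⟩
          · exact ⟨3, a, b⟩
      · fin_cases k
        · exact o0 j j'
        · exact fun a b => a.trans b.symm
        · exact fun a b => o3 j j' hj hj' a.1 b.1 (a.2.trans b.2.symm)
        · exact fun a b => o3 j j' hj hj' a.1 b.1 (a.2.trans b.2.symm)
    intro i hi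
    by_contra h
    have hi0 : ρ i = 0 := by have := h0 i; have := c1 i hi; omega
    have o2 : ∀ j, j ≠ u → j ≠ i → ρ j = 2 ∧ (p j = w ∨ p j = q1 ∨ p j = q2) :=
      fun j hj hji => by
      have a : ρ j = 2 := by have := h0 j; have := c1 j hj; have := h2 i j hji.symm hi0; omega
      have b := (h5 i j hi0 a).1 (hK i j hi hj hji.symm)
      rw [hu] at b
      exact ⟨a, b⟩
    refine big ![fun j => j = i, fun j => ρ j = 2 ∧ p j = w, fun j => ρ j = 2 ∧ p j = q1,
      fun j => ρ j = 2 ∧ p j = q2] (fun j hj => ?_) fun k j j' hj hj' => ?_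
    · by_cases e : j = i
      · exact ⟨0, e⟩
      · have := o2 j hj e
        rcases this.2 with b | b | b
        · exact ⟨1, this.1, b⟩
        · exact ⟨2, this.1, b⟩
        · exact ⟨3, this.1, b⟩
    · fin_cases k
      · exact fun a b => a.trans b.symm
      · exact fun a b => o3 j j' hj hj' a.1 b.1 (a.2.trans b.2.symm)
      · exact fun a b => o3 j j' hj hj' a.1 b.1 (a.2.trans b.2.symm)
      · exact fun a b => o3 j j' hj hj' a.1 b.1 (a.2.trans b.2.symm)
  have sw : ∀ i, i ≠ u → s i = s w := fun i hi => by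
    by_cases e : i = w
    · rw [e]
    · exact ((h8 i w e (c2 i hi) (c2 w huw.symm)).1 (hK i w hi huw.symm e)).1
  have pi : ∀ i j, i ≠ u → j ≠ u → p i = p j → i = j := fun i j hi hj e => by
    by_contra hne
    exact h3 i j hne (c2 i hi) (c2 j hj) ((sw i hi).trans (sw j hj).symm) e
  have ps : ∀ v, v ≠ u → ∃ i, i ≠ u ∧ p i = v := fun v hv => by
    obtain ⟨i, j, h, e, -⟩ := cnt_on (C := fun i => i ≠ u) (R := fun i j => i ≠ u ∧ i = j) p pi
      (fun i j h => ⟨h.1, h.2 ▸ h.1⟩) (fun i j h => ⟨h1 i (c2 i h.1), congrArg p h.2⟩)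
      (a := v) (b := v) ⟨hv, rfl⟩
    exact ⟨i, h.1, e⟩
  obtain ⟨a1, ha1, e1⟩ := ps q1 h1u
  obtain ⟨a2, ha2, e2⟩ := ps q2 h2u
  have h12' : a1 ≠ a2 := fun e => h12 (by rw [← e1, ← e2, e])
  have uw : H.Adj u w := (hu w).2 rfl
  rcases h0 u with h | h | h
  · have b1 := (h5 u a1 h (c2 a1 ha1)).2 (Or.inr (Or.inl e1))
    have b2 := (h5 u a2 h (c2 a2 ha2)).2 (Or.inr (Or.inr e2))
    rw [hu] at b1 b2
    exact h12' (b1.trans b2.symm)
  · have b := ((h7 u w h (c2 w huw.symm)).1 uw).2
    have b1 := (h7 u a1 h (c2 a1 ha1)).2 ⟨Or.inl e1, by rw [sw a1 ha1]; exact b⟩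
    have b2 := (h7 u a2 h (c2 a2 ha2)).2 ⟨Or.inr e2, by rw [sw a2 ha2]; exact b⟩
    rw [hu] at b1 b2
    exact h12' (b1.trans b2.symm)
  · have b := ((h8 u w huw h (c2 w huw.symm)).1 uw).1
    obtain ⟨i, hi, e⟩ := ps (p u) (h1 u h)
    exact h3 i u hi (c2 i hi) h ((sw i hi).trans b.symm) e

/-- a broom without universal vertex -/
structure Br (H : SimpleGraph (Fin m)) (q : Fin m) (D K L : Fin m → Prop) : Prop where
  cov : ∀ v, D v ∨ v = q ∨ K v ∨ L v
  kk : ∀ a b, K a → K b → a ≠ b → H.Adj a b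
  qd : ∀ d, D d → H.Adj q d
  qk : ∀ k, K k → H.Adj q k
  kl : ∀ k l, K k → L l → H.Adj k l
  ql : ∀ l, L l → ¬ H.Adj q l
  ll : ∀ l l', L l → L l' → ¬ H.Adj l l'
  dk : ∀ d k, D d → K k → ¬ H.Adj d k
  dl : ∀ d l, D d → L l → ¬ H.Adj d l
  lq : ∀ l, L l → l ≠ q

theorem B1 {H : SimpleGraph (Fin m)} {q : Fin m} {D K L : Fin m → Prop} (hB : Br H q D K L)
    {d1 d2 k0 l0 : Fin m} (hd1 : D d1) (hd2 : D d2) (hd : H.Adj d1 d2) (hk0 : K k0)
    (hl0 : L l0) : W2Hard (Con₁ H) := by
  classical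
  refine gen_hard H q (fun p => p = l0) false ?_
  intro ρ p s inc h0 h1 h2 h3 h4 h5 h6 h7 h8
  have DL : ∀ v, D v → ¬ L v := fun v h h' => hB.ql v h' (hB.qd v h)
  have KL : ∀ v, K v → ¬ L v := fun v h h' => hB.ql v h' (hB.qk v h)
  have DK : ∀ v, D v → ¬ K v := fun v h h' => hB.dl v l0 h hl0 (hB.kl v l0 h' hl0)
  -- a vertex that is not adjacent to the root
  have far : ∀ z i, ρ z = 0 → i ≠ z → ¬ H.Adj z i → ρ i = 2 ∧ L (p i) ∧ p i ≠ l0 :=
    fun z i hz hi hn => by
    have a : ρ i = 2 := by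
      rcases h0 i with h | h | h
      · exact absurd h (h2 z i hi.symm hz)
      · exact absurd (h4 z i hz h) hn
      · exact h
    have b : ¬ (H.Adj q (p i) ∨ p i = l0) := fun h => hn ((h5 z i hz a).2 h)
    rw [not_or] at b
    refine ⟨a, ?_, b.2⟩
    rcases hB.cov (p i) with h | h | h | h
    · exact absurd (hB.qd _ h) b.1
    · exact absurd h (h1 i a)
    · exact absurd (hB.qk _ h) b.1
    · exact h
  by_cases hr : ∃ z, ρ z = 0
  · obtain ⟨z, hz⟩ := hr
    rcases hB.cov z with h | h | h | h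
    · have a := far z k0 hz (fun e => DK z h (e ▸ hk0)) (hB.dk z k0 h hk0)
      have b := far z l0 hz (fun e => DL z h (e ▸ hl0)) (hB.dl z l0 h hl0)
      have := (h8 k0 l0 (fun e => KL k0 hk0 (e ▸ hl0)) a.1 b.1).1 (hB.kl k0 l0 hk0 hl0)
      exact hB.ll _ _ a.2.1 b.2.1 this.2
    · subst h
      have a := fun l (hl : L l) => far z l hz (hB.lq l hl) (hB.ql l hl)
      have k2 : ρ k0 = 2 ∧ ∀ l, L l → s l = s k0 := by
        have hne : ∀ l, L l → k0 ≠ l := fun l hl e => KL k0 hk0 (e ▸ hl)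
        have : ρ k0 = 2 := by
          rcases h0 k0 with h | h | h
          · exact absurd h (h2 z k0 (hB.qk k0 hk0).ne hz)
          · have := (h7 k0 l0 h (a l0 hl0).1).1 (hB.kl k0 l0 hk0 hl0)
            exact absurd this.1 (a l0 hl0).2.2
          · exact h
        exact ⟨this, fun l hl => ((h8 k0 l (hne l hl) this (a l hl).1).1
          (hB.kl k0 l hk0 hl)).1.symm⟩
      obtain ⟨i, j, h, e, -⟩ := cnt_on (C := L) (R := fun i j => L i ∧ i = j) p
        (fun i j hi hj e => by
          by_contra hne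
          exact h3 i j hne (a i hi).1 (a j hj).1 ((k2.2 i hi).trans (k2.2 j hj).symm) e)
        (fun i j h => ⟨h.1, h.2 ▸ h.1⟩) (fun i j h => ⟨(a i h.1).2.1, congrArg p h.2⟩)
        (a := l0) (b := l0) ⟨hl0, rfl⟩
      exact (a i h.1).2.2 e
    · have a := far z d1 hz (fun e => DK d1 hd1 (e ▸ h)) fun e => hB.dk d1 z hd1 h e.symm
      have b := far z d2 hz (fun e => DK d2 hd2 (e ▸ h)) fun e => hB.dk d2 z hd2 h e.symm
      exact hB.ll _ _ a.2.1 b.2.1 ((h8 d1 d2 hd.ne a.1 b.1).1 hd).2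
    · have a := far z q hz (hB.lq z h).symm fun e => hB.ql z h e.symm
      have b := far z d1 hz (fun e => DL d1 hd1 (e ▸ h)) fun e => hB.dl d1 z hd1 h e.symm
      exact hB.ll _ _ a.2.1 b.2.1 ((h8 q d1 (hB.qd d1 hd1).ne a.1 b.1).1 (hB.qd d1 hd1)).2
  · push Not at hr
    have two : ∀ i j, ρ i = 1 → H.Adj i j → ρ j = 2 ∧ p j = l0 := fun i j hi hij => by
      have : ρ j = 2 := by
        rcases h0 j with h | h | h
        · exact absurd h (hr j)
        · simpa using (h6 i j hij.ne hi h).1 hij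
        · exact h
      exact ⟨this, ((h7 i j hi this).1 hij).1⟩
    have tri : ∀ a b c, H.Adj a b → H.Adj a c → H.Adj b c → ρ a = 2 := fun a b c ab ac bc => by
      rcases h0 a with h | h | h
      · exact absurd h (hr a)
      · have x := two a b h ab
        have y := two a c h ac
        have := ((h8 b c bc.ne x.1 y.1).1 bc).2
        rw [x.2, y.2] at this
        exact absurd rfl this.ne
      · exact h
    have q2 := tri q d1 d2 (hB.qd d1 hd1) (hB.qd d2 hd2) hd
    have d12 := tri d1 q d2 (hB.qd d1 hd1).symm hd (hB.qd d2 hd2)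
    have d22 := tri d2 q d1 (hB.qd d2 hd2).symm hd.symm (hB.qd d1 hd1)
    have a1 := (h8 q d1 (hB.qd d1 hd1).ne q2 d12).1 (hB.qd d1 hd1)
    have a2 := (h8 q d2 (hB.qd d2 hd2).ne q2 d22).1 (hB.qd d2 hd2)
    have a3 := (h8 d1 d2 hd.ne d12 d22).1 hd
    have dpd := h1 d1 d12
    have dpd2 := h1 d2 d22
    rcases hB.cov (p q) with h | h | h | h
    · -- everything lies in the part `D` of one copy
      have nb : ∀ i j, ρ i = 2 → D (p i) → H.Adj i j → ρ j = 2 ∧ D (p j) ∧ s i = s j :=
        fun i j hi hDi hij => by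
        have : ρ j = 2 := by
          rcases h0 j with h | h | h
          · exact absurd h (hr j)
          · have := (h7 j i h hi).1 hij.symm
            exact absurd (this.1 ▸ hl0) (DL _ hDi)
          · exact h
        have b := (h8 i j hij.ne hi this).1 hij
        refine ⟨this, ?_, b.1⟩
        rcases hB.cov (p j) with h' | h' | h' | h'
        · exact h'
        · exact absurd h' (h1 j this)
        · exact absurd b.2 (hB.dk _ _ hDi h')
        · exact absurd b.2 (hB.dl _ _ hDi h')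
      have all : ∀ i, ρ i = 2 ∧ s i = s q := fun i => by
        rcases hB.cov i with h' | h' | h' | h'
        · have := nb q i q2 h (hB.qd i h'); exact ⟨this.1, this.2.2.symm⟩
        · rw [h']; exact ⟨q2, rfl⟩
        · have := nb q i q2 h (hB.qk i h'); exact ⟨this.1, this.2.2.symm⟩
        · have x := nb q k0 q2 h (hB.qk k0 hk0)
          have y := nb k0 i x.1 x.2.1 (hB.kl k0 i hk0 h')
          exact ⟨y.1, y.2.2.symm.trans x.2.2.symm⟩
      obtain ⟨i, j, -, e, -⟩ := cnt_on (C := fun _ => True) (R := fun i j => i = j) p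
        (fun i j _ _ e => by
          by_contra hne
          exact h3 i j hne (all i).1 (all j).1 ((all i).2.trans (all j).2.symm) e)
        (fun _ _ _ => ⟨trivial, trivial⟩) (fun i j h => congrArg p h) (a := q) (b := q) rfl
      exact h1 i (all i).1 e
    · exact h1 q q2 h
    · -- `p q ∈ K`
      have k2 : ρ k0 = 2 := by
        rcases h0 k0 with h' | h' | h'
        · exact absurd h' (hr k0)
        · have := (two k0 q h' (hB.qk k0 hk0).symm).2
          exact absurd (this ▸ hl0) (KL _ h)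
        · exact h'
      have b := (h8 q k0 (hB.qk k0 hk0).ne q2 k2).1 (hB.qk k0 hk0)
      have kl : ∀ x, x ≠ q → H.Adj (p q) x → K x ∨ L x := fun x hx hA => by
        rcases hB.cov x with h' | h' | h' | h'
        · exact absurd hA.symm (hB.dk _ _ h' h)
        · exact absurd h' hx
        · exact Or.inl h'
        · exact Or.inr h'
      have L1 : ∀ d, D d → ρ d = 2 → s q = s d → H.Adj (p q) (p d) → L (p d) :=
        fun d hDd hd2 hs hA => by
        have hne : d ≠ k0 := fun e => DK d hDd (e ▸ hk0)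
        have nA : ¬ H.Adj (p d) (p k0) := fun e =>
          hB.dk d k0 hDd hk0 ((h8 d k0 hne hd2 k2).2 ⟨hs.symm.trans b.1, e⟩)
        have pne : p d ≠ p k0 := h3 d k0 hne hd2 k2 (hs.symm.trans b.1)
        rcases kl _ (h1 d hd2) hA with h' | h'
        · rcases kl _ (h1 k0 k2) b.2 with h'' | h''
          · exact absurd (hB.kk _ _ h' h'' pne) nA
          · exact absurd (hB.kl _ _ h' h'') nA
        · exact h'
      exact hB.ll _ _ (L1 d1 hd1 d12 a1.1 a1.2) (L1 d2 hd2 d22 a2.1 a2.2) a3.2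
    · -- `p q ∈ L`
      have kx : ∀ x, x ≠ q → H.Adj (p q) x → K x := fun x hx hA => by
        rcases hB.cov x with h' | h' | h' | h'
        · exact absurd hA.symm (hB.dl _ _ h' h)
        · exact absurd h' hx
        · exact h'
        · exact absurd hA (hB.ll _ _ h h')
      have k1 : ∀ k, K k → ρ k = 1 := fun k hk => by
        rcases h0 k with h' | h' | h'
        · exact absurd h' (hr k)
        · exact h'
        · exfalso
          have b := (h8 q k (hB.qk k hk).ne q2 h').1 (hB.qk k hk)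
          have hne : d1 ≠ k := fun e => DK d1 hd1 (e ▸ hk)
          exact hB.dk d1 k hd1 hk ((h8 d1 k hne d12 h').2 ⟨a1.1.symm.trans b.1,
            hB.kk _ _ (kx _ dpd a1.2) (kx _ (h1 k h') b.2)
              (h3 d1 k hne d12 h' (a1.1.symm.trans b.1))⟩)
      have x := k1 _ (kx _ dpd a1.2)
      have y := k1 _ (kx _ dpd2 a2.2)
      have hne := h3 d1 d2 hd.ne d12 d22 a3.1
      simpa using (h6 _ _ hne x y).1 (hB.kk _ _ (kx _ dpd a1.2) (kx _ dpd2 a2.2) hne)

theorem B2 {H : SimpleGraph (Fin m)} {q : Fin m} {D K L : Fin m → Prop} (hB : Br H q D K L)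
    (hDD : ∀ d d', D d → D d' → ¬ H.Adj d d') {d0 k0 k1 l0 : Fin m} (hd0 : D d0)
    (hk0 : K k0) (hk1 : K k1) (hkk : k0 ≠ k1) (hl0 : L l0) : W2Hard (Con₁ H) := by
  classical
  refine gen_hard H k0 (fun p => p = d0) false ?_
  intro ρ p s inc h0 h1 h2 h3 h4 h5 h6 h7 h8
  have DL : ∀ v, D v → ¬ L v := fun v h h' => hB.ql v h' (hB.qd v h)
  have KL : ∀ v, K v → ¬ L v := fun v h h' => hB.ql v h' (hB.qk v h)
  have DK : ∀ v, D v → ¬ K v := fun v h h' => hB.dl v l0 h hl0 (hB.kl v l0 h' hl0)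
  have Dq : ∀ v, D v → v ≠ q := fun v h => (hB.qd v h).ne'
  have Kq : ∀ v, K v → v ≠ q := fun v h => (hB.qk v h).ne'
  -- the neighbours of a vertex of `D`
  have nD : ∀ d x, D d → H.Adj d x → x = q := fun d x h hA => by
    rcases hB.cov x with h' | h' | h' | h'
    · exact absurd hA (hDD _ _ h h')
    · exact h'
    · exact absurd hA (hB.dk _ _ h h')
    · exact absurd hA (hB.dl _ _ h h')
  have far : ∀ z i, ρ z = 0 → i ≠ z → ¬ H.Adj z i → ρ i = 2 ∧ D (p i) ∧ p i ≠ d0 :=
    fun z i hz hi hn => by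
    have a : ρ i = 2 := by
      rcases h0 i with h | h | h
      · exact absurd h (h2 z i hi.symm hz)
      · exact absurd (h4 z i hz h) hn
      · exact h
    have b : ¬ (H.Adj k0 (p i) ∨ p i = d0) := fun h => hn ((h5 z i hz a).2 h)
    rw [not_or] at b
    refine ⟨a, ?_, b.2⟩
    rcases hB.cov (p i) with h | h | h | h
    · exact h
    · exact absurd (h ▸ (hB.qk _ hk0).symm) b.1
    · exact absurd (hB.kk _ _ hk0 h (h1 i a).symm) b.1
    · exact absurd (hB.kl _ _ hk0 h) b.1
  by_cases hr : ∃ z, ρ z = 0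
  · obtain ⟨z, hz⟩ := hr
    rcases hB.cov z with h | h | h | h
    · have a := far z k0 hz (fun e => DK z h (e ▸ hk0)) (hB.dk z k0 h hk0)
      have b := far z k1 hz (fun e => DK z h (e ▸ hk1)) (hB.dk z k1 h hk1)
      exact hDD _ _ a.2.1 b.2.1 ((h8 k0 k1 hkk a.1 b.1).1 (hB.kk _ _ hk0 hk1 hkk)).2
    · subst h
      have a := far z l0 hz (hB.lq l0 hl0) (hB.ql l0 hl0)
      have key : ∀ k, K k → ρ k = 2 ∧ p k = z ∧ s k = s l0 := fun k hk => by
        have : ρ k = 2 := by
          rcases h0 k with h | h | h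
          · exact absurd h (h2 z k (hB.qk k hk).ne hz)
          · have := (h7 k l0 h a.1).1 (hB.kl k l0 hk hl0)
            exact absurd this.1 a.2.2
          · exact h
        have b := (h8 k l0 (fun e => KL k hk (e ▸ hl0)) this a.1).1 (hB.kl k l0 hk hl0)
        exact ⟨this, nD _ _ a.2.1 b.2.symm, b.1⟩
      have x := key k0 hk0
      have y := key k1 hk1
      exact h3 k0 k1 hkk x.1 y.1 (x.2.2.trans y.2.2.symm) (x.2.1.trans y.2.1.symm)
    · have a := fun d (hd : D d) => far z d hz (fun e => DK d hd (e ▸ h))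
        fun e => hB.dk d z hd h e.symm
      have q2 : ρ q = 2 := by
        rcases h0 q with h' | h' | h'
        · exact absurd h' (h2 z q (Kq z h) hz)
        · have := (h7 q d0 h' (a d0 hd0).1).1 (hB.qd d0 hd0)
          exact absurd this.1 (a d0 hd0).2.2
        · exact h'
      have sq : ∀ d, D d → s d = s q := fun d hd =>
        ((h8 q d (Dq d hd).symm q2 (a d hd).1).1 (hB.qd d hd)).1.symm
      obtain ⟨i, j, h, e, -⟩ := cnt_on (C := D) (R := fun i j => D i ∧ i = j) p
        (fun i j hi hj e => by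
          by_contra hne
          exact h3 i j hne (a i hi).1 (a j hj).1 ((sq i hi).trans (sq j hj).symm) e)
        (fun i j h => ⟨h.1, h.2 ▸ h.1⟩) (fun i j h => ⟨(a i h.1).2.1, congrArg p h.2⟩)
        (a := d0) (b := d0) ⟨hd0, rfl⟩
      exact (a i h.1).2.2 e
    · have a := far z q hz (hB.lq z h).symm fun e => hB.ql z h e.symm
      have b := far z d0 hz (fun e => DL d0 hd0 (e ▸ h)) fun e => hB.dl d0 z hd0 h e.symm
      exact hDD _ _ a.2.1 b.2.1 ((h8 q d0 (Dq d0 hd0).symm a.1 b.1).1 (hB.qd d0 hd0)).2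
  · push Not at hr
    have two : ∀ i j, ρ i = 1 → H.Adj i j → ρ j = 2 ∧ p j = d0 := fun i j hi hij => by
      have : ρ j = 2 := by
        rcases h0 j with h | h | h
        · exact absurd h (hr j)
        · simpa using (h6 i j hij.ne hi h).1 hij
        · exact h
      exact ⟨this, ((h7 i j hi this).1 hij).1⟩
    have tri : ∀ a b c, H.Adj a b → H.Adj a c → H.Adj b c → ρ a = 2 := fun a b c ab ac bc => by
      rcases h0 a with h | h | h
      · exact absurd h (hr a)
      · have x := two a b h ab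
        have y := two a c h ac
        have := ((h8 b c bc.ne x.1 y.1).1 bc).2
        rw [x.2, y.2] at this
        exact absurd rfl this.ne
      · exact h
    -- the clique `K + q`
    let C : Fin m → Prop := fun i => K i ∨ i = q
    have cl : ∀ i j, C i → C j → i ≠ j → H.Adj i j := fun i j hi hj hij => by
      rcases hi with hi | rfl <;> rcases hj with hj | rfl
      · exact hB.kk _ _ hi hj hij
      · exact (hB.qk _ hi).symm
      · exact hB.qk _ hj
      · exact absurd rfl hij
    have oth : ∀ i, ∃ a b, C a ∧ C b ∧ a ≠ b ∧ a ≠ i ∧ b ≠ i := fun i => by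
      by_cases e1 : i = k0
      · exact ⟨k1, q, Or.inl hk1, Or.inr rfl, Kq k1 hk1, e1 ▸ hkk.symm, e1 ▸ (Kq k0 hk0).symm⟩
      by_cases e2 : i = k1
      · exact ⟨k0, q, Or.inl hk0, Or.inr rfl, Kq k0 hk0, e2 ▸ hkk, e2 ▸ (Kq k1 hk1).symm⟩
      · exact ⟨k0, k1, Or.inl hk0, Or.inl hk1, hkk, Ne.symm e1, Ne.symm e2⟩
    have r2 : ∀ i, C i → ρ i = 2 := fun i hi => by
      obtain ⟨a, b, ha, hb, hab, hai, hbi⟩ := oth i
      exact tri i a b (cl i a hi ha hai.symm) (cl i b hi hb hbi.symm) (cl a b ha hb hab)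
    have ad : ∀ i j, C i → C j → i ≠ j → s i = s j ∧ H.Adj (p i) (p j) := fun i j hi hj hij =>
      (h8 i j hij (r2 i hi) (r2 j hj)).1 (cl i j hi hj hij)
    have pj : ∀ i j, C i → C j → p i = p j → i = j := fun i j hi hj e => by
      by_contra hne
      exact (ad i j hi hj hne).2.ne e
    have nDp : ∀ i, C i → ¬ D (p i) := fun i hi hD => by
      obtain ⟨a, b, ha, hb, hab, hai, hbi⟩ := oth i
      have x := nD _ _ hD (ad i a hi ha hai.symm).2
      have y := nD _ _ hD (ad i b hi hb hbi.symm).2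
      exact hab (pj a b ha hb (x.trans y.symm))
    have φC : ∀ i, C i → ¬ L (p i) → C (p i) ∧ p i ≠ k0 := fun i hi hL => by
      refine ⟨?_, h1 i (r2 i hi)⟩
      rcases hB.cov (p i) with h' | h' | h' | h'
      · exact absurd h' (nDp i hi)
      · exact Or.inr h'
      · exact Or.inl h'
      · exact absurd h' hL
    obtain ⟨i, j, h, e, -⟩ := cnt_on (C := C) (R := fun i j => C i ∧ i = j)
      (fun i => if L (p i) then q else p i)
      (fun i j hi hj e => by
        by_cases e1 : L (p i) <;> by_cases e2 : L (p j) <;>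
          simp only [e1, e2, if_true, if_false] at e
        · by_contra hne
          exact hB.ll _ _ e1 e2 (ad i j hi hj hne).2
        · by_contra hne
          exact hB.ql _ e1 (e ▸ (ad i j hi hj hne).2.symm)
        · by_contra hne
          exact hB.ql _ e2 (e ▸ (ad i j hi hj hne).2)
        · exact pj i j hi hj e)
      (fun i j h => ⟨h.1, h.2 ▸ h.1⟩) (fun i j h => by
        refine ⟨?_, by rw [h.2]⟩
        by_cases e1 : L (p i)
        · simp only [e1, if_true]; exact Or.inr rfl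
        · simp only [e1, if_false]; exact (φC i h.1 e1).1)
      (a := k0) (b := k0) ⟨Or.inl hk0, rfl⟩
    by_cases e1 : L (p i)
    · simp only [e1, if_true] at e; exact (Kq k0 hk0) e.symm
    · simp only [e1, if_false] at e; exact (φC i h.1 e1).2 e

end Pool.Agent.Helper89.HF
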