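import Pool.Agent.Helper89.HF.TG

/-! The gadget for stars and their one-vertex extensions. -/

namespace Pool.Agent.Helper89.HF

open Pool.Agent.H22.CT Pool.Agent.H38.NP Pool.Agent.H36.Par SimpleGraph Function

variable {m : ℕ}

inductive Cs : Type where
  | R : Cs
  | S : Cs
  | Q : Cs
  | W : Cs
  | U (i : ℕ) : Cs
  | E (e : ℕ) : Cs
  | V (e : ℕ) : Cs
  deriving DecidableEq

def rS : Cs → Cs → Prop
  | .R, .S => True
  | .R, .W => True
  | .R, .U j => j = 0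
  | .Q, .W => True
  | .Q, .E _ => True
  | .W, .V _ => True
  | .U i, .U j => j = i + 1
  | _, _ => False

def okS (t k : ℕ) : Cs → Prop
  | .W => True
  | .U i => i < 4 * k + 8
  | .E e => e < t - 3
  | .V e => e < t - 2
  | _ => False

def lvS : Cs → ℕ
  | .U i => i
  | _ => 0

def ecS : Cs → ℕ × ℕ × ℕ
  | .R => (0, 0, 0)
  | .S => (1, 0, 0)
  | .Q => (2, 0, 0)
  | .W => (3, 0, 0)
  | .U i => (4, 0, i)
  | .E e => (5, e, 0)
  | .V e => (6, e, 0)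

def rbS (s t : ℕ × ℕ × ℕ) : Bool :=
  (decide (s.1 = 0) && decide (t.1 = 1)) ||
  (decide (s.1 = 0) && decide (t.1 = 3)) ||
  (decide (s.1 = 0) && decide (t.1 = 4) && decide (t.2.2 = 0)) ||
  (decide (s.1 = 2) && decide (t.1 = 3)) ||
  (decide (s.1 = 2) && decide (t.1 = 5)) ||
  (decide (s.1 = 3) && decide (t.1 = 6)) ||
  (decide (s.1 = 4) && decide (t.1 = 4) && decide (t.2.2 = s.2.2 + 1))

def obS (t : ℕ) (s : ℕ × ℕ × ℕ) : Bool :=
  (decide (s.1 = 3) && decide (s.2.1 = 0) && decide (s.2.2 = 0)) ||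
  (decide (s.1 = 4) && decide (s.2.1 = 0)) ||
  (decide (s.1 = 5) && decide (s.2.1 < t - 3) && decide (s.2.2 = 0)) ||
  (decide (s.1 = 6) && decide (s.2.1 < t - 2) && decide (s.2.2 = 0))

def LcS (t k : ℕ) : List (ℕ × ℕ × ℕ) :=
  ((List.range 7).product ((List.range (t + 1)).product (List.range (4 * k + 8)))).filter (obS t)

def GS (t : ℕ) : Gd Cs where
  R := .R
  S := .S
  Q := .Q
  r := rS
  okc := okS t
  lv := lvS
  ec := ecS
  rb := rbS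
  Lc := LcS t

theorem GS_ok (t : ℕ) : (GS t).Ok where
  RS := by simp [GS]
  RQ := by simp [GS]
  SQ := by simp [GS]
  rRS := by simp [GS, rS]
  nRQ := by simp [GS, rS]
  sN := fun c h => by cases c <;> simp_all [GS, rS]
  okn := fun k c h => by cases c <;> simp_all [GS, okS]
  ecI := fun s t h => by cases s <;> cases t <;> simp_all [GS, ecS]
  rbs := fun s t => by
    simp only [GS, rbS, Bool.or_eq_true, Bool.and_eq_true, decide_eq_true_eq]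
    cases s <;> cases t <;> simp [ecS, rS, or_assoc]
  Lcs := fun k s => by
    obtain ⟨s1, s2, s3⟩ := s
    simp only [GS, LcS, List.mem_filter, List.pair_mem_product, List.mem_range, obS,
      Bool.or_eq_true, Bool.and_eq_true, decide_eq_true_eq]
    constructor
    · rintro ⟨⟨h1, h2, h3⟩, h⟩
      rcases h with ((h | h) | h) | h
      · exact ⟨.W, trivial, by simp [ecS, h.1.1, h.1.2, h.2]⟩
      · exact ⟨.U s3, h3, by simp [ecS, h.1, h.2]⟩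
      · exact ⟨.E s2, h.1.2, by simp [ecS, h.1.1, h.2]⟩
      · exact ⟨.V s2, h.1.2, by simp [ecS, h.1.1, h.2]⟩
    · rintro ⟨c, h, e⟩
      cases c <;> simp only [okS, ecS, Prod.mk.injEq] at h e <;> obtain ⟨rfl, rfl, rfl⟩ := e <;>
        first
          | exact h.elim
          | (simp; done)
          | (simp; omega)
  ptr := by unfold GS rbS; fun_prop
  ptL := by unfold GS LcS obS; fun_prop
  lvR := rfl

def χS : Cs → ℕ
  | .S => 0
  | .U i => if i / 2 % 2 = 0 then 2 else 0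
  | .E e => e + 2
  | .V e => if e = 0 then 0 else e + 1
  | _ => 1

theorem χS_lt {t k : ℕ} (ht : 4 ≤ t) {c : Cs} (h : (GS t).okT k c) : χS c < t - 1 := by
  rcases h with h | h | h | h
  · rw [h]; simp only [GS, χS]; omega
  · rw [h]; simp only [GS, χS]; omega
  · rw [h]; simp only [GS, χS]; omega
  · cases c <;> simp only [GS, okS, χS] at h ⊢ <;> first | omega | (split_ifs <;> omega)

theorem χS_ful (t : ℕ) (z x y : Cs) (h1 : (GS t).may z x) (h2 : (GS t).may z y)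
    (h : χS x = χS y) : (GS t).ful x y := by
  cases z <;> cases x <;> cases y <;>
    simp [GS, Gd.may, Gd.ful, Gd.fu, rS, χS] at h1 h2 h ⊢ <;> first | omega | (split_ifs at h <;> omega)

/-- a star with `t` leaves, possibly with one further vertex: a twin of a leaf (`ty = 1`) or a
vertex that hangs on a leaf (`ty = 2`) -/
structure SH (H : SimpleGraph (Fin m)) (t ty : ℕ) (z : Fin m) (lf ex : Fin m → Prop)
    (il : Fin m → ℕ) : Prop where
  cov : ∀ v, v = z ∨ lf v ∨ ex v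
  zl : ∀ v, lf v → H.Adj z v
  ll : ∀ v v', lf v → lf v' → ¬ H.Adj v v'
  i1 : ∀ v, lf v → il v < t
  i2 : ∀ v v', lf v → lf v' → il v = il v' → v = v'
  ne : ¬ ex z
  dj : ∀ v, lf v → ¬ ex v
  e1 : ∀ v v', ex v → ex v' → v = v'
  ze : ∀ v, ex v → (H.Adj z v ↔ ty = 1)
  le : ∀ v v', lf v → ex v' → (H.Adj v v' ↔ il v = 0)

theorem star_free {H : SimpleGraph (Fin m)} {t ty : ℕ} {z : Fin m} {lf ex : Fin m → Prop}
    {il : Fin m → ℕ} (h : SH H t ty z lf ex il) (ht : 4 ≤ t)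
    (hl : ∃ s : Finset (Fin m), (∀ v ∈ s, lf v) ∧ t ≤ s.card) : FreeT (GS t) H := by
  intro k τ t0 t1 t2 t3
  obtain ⟨s, s1, s2⟩ := hl
  have := Finset.card_le_card_of_injOn (s := s) (t := Finset.range (t - 1))
    (fun v => χS (τ v)) (fun v _ => by simpa using χS_lt ht (t0 v)) (fun v hv v' hv' e => by
      by_contra hne
      have hv := s1 v hv
      have hv' := s1 v' hv'
      exact h.ll v v' hv hv' (t3 v v' hne (χS_ful t (τ z) _ _ (t2 z v (h.zl v hv).ne (h.zl v hv))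
        (t2 z v' (h.zl v' hv').ne (h.zl v' hv')) e)))
  rw [Finset.card_range] at this
  omega

/-- adjacency of fresh vertices and the root -/
def AD {Cd : Type} (G : Gd Cd) (Z : Cd → Prop) (s t : Cd) : Prop :=
  (s = G.R ∧ ∃ c, Z c ∧ G.fu c t) ∨ (s ≠ G.R ∧ t = G.R ∧ ∃ c, Z c ∧ G.fu c s) ∨
    (s ≠ G.R ∧ t ≠ G.R ∧ G.fu s t)

theorem AD.symm {Cd : Type} {G : Gd Cd} {Z : Cd → Prop} {s t : Cd} (hn : s = G.R → t ≠ G.R)
    (h : AD G Z s t) : AD G Z t s := by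
  rcases h with h | h | h
  · exact Or.inr (Or.inl ⟨hn h.1, h.1, h.2⟩)
  · exact Or.inl ⟨h.2.1, h.2.2⟩
  · exact Or.inr (Or.inr ⟨h.2.1, h.1, h.2.2.symm⟩)

theorem sh_pat {Cd : Type} {G : Gd Cd} {H : SimpleGraph (Fin m)} {t ty : ℕ} {z : Fin m}
    {lf ex : Fin m → Prop} {il : Fin m → ℕ} (h : SH H t ty z lf ex il) {k : ℕ} {Z : Cd → Prop}
    (cz cx : Cd) (cl : ℕ → Cd) (o0 : G.okT k cz) (o1 : G.okT k cx) (o2 : ∀ e < t, G.okT k (cl e))
    (x0 : cx ≠ G.R) (n1 : ∀ e < t, cz ≠ cl e) (n2 : cz ≠ cx)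
    (n3 : ∀ e < t, ∀ e' < t, e ≠ e' → cl e ≠ cl e')
    (f1 : ∀ e < t, AD G Z cz (cl e)) (f2 : ∀ e < t, ∀ e' < t, e ≠ e' → ¬ AD G Z (cl e) (cl e'))
    (f3 : AD G Z cz cx ↔ ty = 1) (f4 : ∀ e < t, (AD G Z (cl e) cx ↔ e = 0)) :
    ∃ (τ : Fin m → Cd) (β : Fin m → ℕ), (∀ i, G.okT k (τ i)) ∧ (∀ i, β i < 2) ∧
      (∀ i j, i ≠ j → τ i = G.R → τ j ≠ G.R) ∧
      (∀ i j, i ≠ j → τ i = τ j → β i ≠ β j) ∧
      (∀ i j, i ≠ j → τ i ≠ G.R → τ j ≠ G.R → (H.Adj i j ↔ G.fu (τ i) (τ j))) ∧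
      ∀ i j, i ≠ j → τ i = G.R → (H.Adj i j ↔ ∃ c, Z c ∧ G.fu c (τ j)) := by
  classical
  let τ : Fin m → Cd := fun v => if v = z then cz else if lf v then cl (il v) else cx
  let β : Fin m → ℕ := fun v => if ex v then 1 else 0
  have lz : ∀ v, lf v → v ≠ z := fun v hv => (h.zl v hv).ne'
  have tz : τ z = cz := if_pos rfl
  have tl : ∀ v, lf v → τ v = cl (il v) := fun v hv => by simp [τ, lz v hv, hv]
  have tx : ∀ v, ex v → τ v = cx := fun v hv => by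
    have a : v ≠ z := fun e => h.ne (e ▸ hv)
    have b : ¬ lf v := fun e => h.dj v e hv
    simp [τ, a, b]
  have βl : ∀ v, lf v → β v = 0 := fun v hv => if_neg (h.dj v hv)
  have βx : ∀ v, ex v → β v = 1 := fun v hv => if_pos hv
  have key : ∀ i j, i ≠ j → (τ i = G.R → τ j ≠ G.R) ∧ (τ i = τ j → β i ≠ β j) ∧
      (H.Adj i j ↔ AD G Z (τ i) (τ j)) := by
    have one : ∀ i j, i ≠ j → (i = z ∨ (lf i ∧ (lf j ∨ ex j))) →
        (τ i = G.R → τ j ≠ G.R) ∧ (τ i = τ j → β i ≠ β j) ∧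
          (H.Adj i j ↔ AD G Z (τ i) (τ j)) := fun i j hij hc => by
      rcases hc with rfl | ⟨hc, hc' | hc'⟩
      · rw [tz]
        rcases h.cov j with e | e | e
        · exact absurd e.symm hij
        · rw [tl j e]
          have := n1 _ (h.i1 j e)
          exact ⟨fun a b => this (a.trans b.symm), fun a => absurd a this,
            iff_of_true (h.zl j e) (f1 _ (h.i1 j e))⟩
        · rw [tx j e]
          exact ⟨fun _ => x0, fun a => absurd a n2, (h.ze j e).trans f3.symm⟩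
      · rw [tl i hc, tl j hc']
        have hne : il i ≠ il j := fun e => hij (h.i2 i j hc hc' e)
        have := n3 _ (h.i1 i hc) _ (h.i1 j hc') hne
        exact ⟨fun a b => this (a.trans b.symm), fun a => absurd a this,
          iff_of_false (h.ll i j hc hc') (f2 _ (h.i1 i hc) _ (h.i1 j hc') hne)⟩
      · rw [tl i hc, tx j hc', βl i hc, βx j hc']
        exact ⟨fun _ => x0, fun _ => by omega, (h.le i j hc hc').trans (f4 _ (h.i1 i hc)).symm⟩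
    intro i j hij
    have sw : (j = z ∨ (lf j ∧ (lf i ∨ ex i))) → _ := fun hc => by
      have := one j i hij.symm hc
      exact (⟨fun a b => this.1 b a, fun a => (this.2.1 a.symm).symm,
        (H.adj_comm i j).trans (this.2.2.trans ⟨AD.symm this.1, AD.symm fun a b => this.1 b a⟩)⟩ :
        (τ i = G.R → τ j ≠ G.R) ∧ (τ i = τ j → β i ≠ β j) ∧ (H.Adj i j ↔ AD G Z (τ i) (τ j)))
    rcases h.cov i with e | e | e
    · exact one i j hij (Or.inl e)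
    · rcases h.cov j with e' | e' | e'
      · exact sw (Or.inl e')
      · exact one i j hij (Or.inr ⟨e, Or.inl e'⟩)
      · exact one i j hij (Or.inr ⟨e, Or.inr e'⟩)
    · rcases h.cov j with e' | e' | e'
      · exact sw (Or.inl e')
      · exact sw (Or.inr ⟨e', Or.inr e⟩)
      · exact absurd (h.e1 i j e e') hij
  refine ⟨τ, β, fun v => ?_, fun v => ?_, fun i j hij => (key i j hij).1,
    fun i j hij => (key i j hij).2.1, fun i j hij hi hj => ?_, fun i j hij hi => ?_⟩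
  · rcases h.cov v with e | e | e
    · rw [e, tz]; exact o0
    · rw [tl v e]; exact o2 _ (h.i1 v e)
    · rw [tx v e]; exact o1
  · simp only [β]; split_ifs <;> omega
  · rw [(key i j hij).2.2]
    simp [AD, hi, hj]
  · rw [(key i j hij).2.2]
    simp [AD, hi]

theorem lv_stepS {t : ℕ} {c c' : Cs} (h : (GS t).fu c c' ∨ (c = (GS t).S ∧ c' = (GS t).Q) ∨
    (c = (GS t).Q ∧ c' = (GS t).S)) : lvS c' ≤ lvS c + 2 := by
  rcases h with (h | h | h) | h | h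
  · rw [h]; omega
  · cases c <;> cases c' <;> simp [GS, rS, lvS] at h ⊢ <;> omega
  · cases c <;> cases c' <;> simp [GS, rS, lvS] at h ⊢ <;> omega
  · rw [h.1, h.2]; simp [GS, lvS]
  · rw [h.1, h.2]; simp [GS, lvS]

def cf {Cd : Type} (c0 c1 c2 : Cd) (f : ℕ → Cd) : ℕ → Cd
  | 0 => c0
  | 1 => c1
  | 2 => c2
  | e + 3 => f e

def PP {Cd : Type} (G : Gd Cd) (Z : Cd → Prop) (a b : Cd) : Prop := a ≠ b ∧ ¬ AD G Z a b

theorem PP.symm {Cd : Type} {G : Gd Cd} {Z : Cd → Prop} {a b : Cd} (h : PP G Z a b) :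
    PP G Z b a :=
  ⟨h.1.symm, fun h' => h.2 (AD.symm (fun e e' => h.1 (e'.trans e.symm)) h')⟩

theorem cf_pw {Cd : Type} {P : Cd → Cd → Prop} (sy : ∀ a b, P a b → P b a) {c0 c1 c2 : Cd}
    {f : ℕ → Cd} (h01 : P c0 c1) (h02 : P c0 c2) (h12 : P c1 c2) (h0 : ∀ e, P c0 (f e))
    (h1 : ∀ e, P c1 (f e)) (h2 : ∀ e, P c2 (f e)) (hf : ∀ e e', e ≠ e' → P (f e) (f e')) :
    ∀ e e', e ≠ e' → P (cf c0 c1 c2 f e) (cf c0 c1 c2 f e') := by
  intro e e' hee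
  rcases e with _ | _ | _ | e <;> rcases e' with _ | _ | _ | e'
  · exact absurd rfl hee
  · exact h01
  · exact h02
  · exact h0 _
  · exact sy _ _ h01
  · exact absurd rfl hee
  · exact h12
  · exact h1 _
  · exact sy _ _ h02
  · exact sy _ _ h12
  · exact absurd rfl hee
  · exact h2 _
  · exact sy _ _ (h0 _)
  · exact sy _ _ (h1 _)
  · exact sy _ _ (h2 _)
  · exact hf _ _ (fun h => hee (by rw [h]))

theorem cf_all {Cd : Type} {P : Cd → Prop} {t : ℕ} {c0 c1 c2 : Cd}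
    {f : ℕ → Cd} (h0 : P c0) (h1 : P c1) (h2 : P c2) (hf : ∀ e, e + 3 < t → P (f e)) :
    ∀ e < t, P (cf c0 c1 c2 f e) := by
  intro e he
  rcases e with _ | _ | _ | e
  · exact h0
  · exact h1
  · exact h2
  · exact hf _ he

theorem sh_cf {Cd : Type} {G : Gd Cd} {H : SimpleGraph (Fin m)} {t ty : ℕ} {z : Fin m}
    {lf ex : Fin m → Prop} {il : Fin m → ℕ} (h : SH H t ty z lf ex il) {k : ℕ} {Z : Cd → Prop}
    (cz cx c0 c1 c2 : Cd) (f : ℕ → Cd) (o0 : G.okT k cz) (o1 : G.okT k cx)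
    (g0 : G.okT k c0) (g1 : G.okT k c1) (g2 : G.okT k c2) (gf : ∀ e, e + 3 < t → G.okT k (f e))
    (x0 : cx ≠ G.R) (n2 : cz ≠ cx)
    (n0 : cz ≠ c0) (n1 : cz ≠ c1) (n3 : cz ≠ c2) (nf : ∀ e, cz ≠ f e)
    (a0 : AD G Z cz c0) (a1 : AD G Z cz c1) (a2 : AD G Z cz c2) (af : ∀ e, AD G Z cz (f e))
    (h01 : PP G Z c0 c1) (h02 : PP G Z c0 c2) (h12 : PP G Z c1 c2) (h0 : ∀ e, PP G Z c0 (f e))
    (h1 : ∀ e, PP G Z c1 (f e)) (h2 : ∀ e, PP G Z c2 (f e))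
    (hf : ∀ e e', e ≠ e' → PP G Z (f e) (f e'))
    (f3 : AD G Z cz cx ↔ ty = 1) (x1 : AD G Z c0 cx) (x2 : ¬ AD G Z c1 cx) (x3 : ¬ AD G Z c2 cx)
    (xf : ∀ e, ¬ AD G Z (f e) cx) :
    ∃ (τ : Fin m → Cd) (β : Fin m → ℕ), (∀ i, G.okT k (τ i)) ∧ (∀ i, β i < 2) ∧
      (∀ i j, i ≠ j → τ i = G.R → τ j ≠ G.R) ∧
      (∀ i j, i ≠ j → τ i = τ j → β i ≠ β j) ∧
      (∀ i j, i ≠ j → τ i ≠ G.R → τ j ≠ G.R → (H.Adj i j ↔ G.fu (τ i) (τ j))) ∧
      ∀ i j, i ≠ j → τ i = G.R → (H.Adj i j ↔ ∃ c, Z c ∧ G.fu c (τ j)) := by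
  have pw := cf_pw (P := PP G Z) (fun a b h => h.symm) h01 h02 h12 h0 h1 h2 hf
  refine sh_pat h cz cx (cf c0 c1 c2 f) o0 o1 (cf_all g0 g1 g2 gf) x0
    (cf_all n0 n1 n3 fun e _ => nf e) n2 (fun e _ e' _ hee => (pw e e' hee).1)
    (cf_all a0 a1 a2 fun e _ => af e) (fun e _ e' _ hee => (pw e e' hee).2) f3 fun e _ => ?_
  rcases e with _ | _ | _ | e
  · exact iff_of_true x1 rfl
  · exact iff_of_false x2 (by omega)
  · exact iff_of_false x3 (by omega)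
  · exact iff_of_false (xf _) (by omega)

theorem pp_of {t : ℕ} {Z : Cs → Prop} {a b : Cs} (h : a ≠ b) (ha : a ≠ .R) (hb : b ≠ .R)
    (hf : ¬ (GS t).fu a b) : PP (GS t) Z a b :=
  ⟨h, fun h' => by
    rcases h' with h' | h' | h'
    · exact ha h'.1
    · exact hb h'.2.1
    · exact hf h'.2.2⟩

theorem ad_of {t : ℕ} {Z : Cs → Prop} {a b : Cs} (ha : a ≠ .R) (hb : b ≠ .R)
    (hf : ¬ (GS t).fu a b) : ¬ AD (GS t) Z a b := fun h' => by
  rcases h' with h' | h' | h'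
  · exact ha h'.1
  · exact hb h'.2.1
  · exact hf h'.2.2

theorem pp_R {t : ℕ} {Z : Cs → Prop} {b : Cs} (hb : b ≠ .R)
    (hf : ¬ ∃ c, Z c ∧ (GS t).fu c b) : PP (GS t) Z .R b :=
  ⟨hb.symm, fun h' => by
    rcases h' with h' | h' | h'
    · exact hf h'.2
    · exact h'.1 rfl
    · exact h'.1 rfl⟩

theorem ad_R {t : ℕ} {Z : Cs → Prop} {b : Cs}
    (hf : ¬ ∃ c, Z c ∧ (GS t).fu c b) : ¬ AD (GS t) Z .R b := fun h' => by
  rcases h' with h' | h' | h'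
  · exact hf h'.2
  · exact h'.1 rfl
  · exact h'.1 rfl

theorem ad_fu {t : ℕ} {Z : Cs → Prop} {a b : Cs} (ha : a ≠ .R) (hb : b ≠ .R)
    (hf : (GS t).fu a b) : AD (GS t) Z a b := Or.inr (Or.inr ⟨ha, hb, hf⟩)

theorem okR {t k : ℕ} : (GS t).okT k .R := Or.inl rfl
theorem okSS {t k : ℕ} : (GS t).okT k .S := Or.inr (Or.inl rfl)
theorem okQ {t k : ℕ} : (GS t).okT k .Q := Or.inr (Or.inr (Or.inl rfl))
theorem okW {t k : ℕ} : (GS t).okT k .W := Or.inr (Or.inr (Or.inr trivial))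
theorem okU {t k i : ℕ} (h : i < 4 * k + 8) : (GS t).okT k (.U i) :=
  Or.inr (Or.inr (Or.inr h))
theorem okE {t k i : ℕ} (h : i < t - 3) : (GS t).okT k (.E i) :=
  Or.inr (Or.inr (Or.inr h))
theorem okV {t k i : ℕ} (h : i < t - 2) : (GS t).okT k (.V i) :=
  Or.inr (Or.inr (Or.inr h))

section
variable {H : SimpleGraph (Fin m)} {t ty : ℕ} {z : Fin m} {lf ex : Fin m → Prop}
    {il : Fin m → ℕ} {k : ℕ} {Z : Cs → Prop}

theorem star_c1 (h : SH H t ty z lf ex il) (ht : 4 ≤ t) (hty : ty = 1 ∨ ty = 2) {i : ℕ}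
    (hi1 : ∃ c, Z c ∧ (GS t).fu c (.U i)) (hi2 : ¬ ∃ c, Z c ∧ (GS t).fu c (.U (i + 1)))
    (hi3 : i ≤ 4 * k + 3) (dS : ∃ c, Z c ∧ (GS t).fu c .S) (hW : Z .W) :
    ∃ (τ : Fin m → Cs) (β : Fin m → ℕ), (∀ i, (GS t).okT k (τ i)) ∧ (∀ i, β i < 2) ∧
      (∀ i j, i ≠ j → τ i = (GS t).R → τ j ≠ (GS t).R) ∧
      (∀ i j, i ≠ j → τ i = τ j → β i ≠ β j) ∧
      (∀ i j, i ≠ j → τ i ≠ (GS t).R → τ j ≠ (GS t).R → (H.Adj i j ↔ (GS t).fu (τ i) (τ j))) ∧
      ∀ i j, i ≠ j → τ i = (GS t).R → (H.Adj i j ↔ ∃ c, Z c ∧ (GS t).fu c (τ j)) := by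
  have dV : ∀ e, ∃ c, Z c ∧ (GS t).fu c (.V e) := fun e => ⟨.W, hW, by simp [Gd.fu, GS, rS]⟩
  obtain ⟨cx, hcx, o1, x0, x1, x2, x3⟩ : ∃ cx : Cs, (AD (GS t) Z .R cx ↔ ty = 1) ∧
      (GS t).okT k cx ∧ cx ≠ .R ∧ (GS t).fu (.U i) cx ∧ (¬ (GS t).fu .S cx) ∧
      ∀ e, ¬ (GS t).fu (.V e) cx := by
    rcases hty with hty | hty
    · exact ⟨.U i, iff_of_true (Or.inl ⟨rfl, hi1⟩) hty, okU (by omega), by simp,
        by simp [Gd.fu], by simp [Gd.fu, GS, rS], fun e => by simp [Gd.fu, GS, rS]⟩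
    · exact ⟨.U (i + 1), iff_of_false (ad_R hi2) (by omega), okU (by omega), by simp,
        by simp [Gd.fu, GS, rS], by simp [Gd.fu, GS, rS], fun e => by simp [Gd.fu, GS, rS]⟩
  exact sh_cf h .R cx (.U i) .S (.V 0) (fun e => .V (e + 1)) okR o1 (okU (by omega)) okSS
    (okV (by omega)) (fun e he => okV (by omega)) x0 x0.symm (by simp) (by simp) (by simp)
    (by simp) (Or.inl ⟨rfl, hi1⟩) (Or.inl ⟨rfl, dS⟩) (Or.inl ⟨rfl, dV _⟩)
    (fun e => Or.inl ⟨rfl, dV _⟩)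
    (pp_of (by simp) (by simp) (by simp) (by simp [Gd.fu, GS, rS]))
    (pp_of (by simp) (by simp) (by simp) (by simp [Gd.fu, GS, rS]))
    (pp_of (by simp) (by simp) (by simp) (by simp [Gd.fu, GS, rS]))
    (fun e => pp_of (by simp) (by simp) (by simp) (by simp [Gd.fu, GS, rS]))
    (fun e => pp_of (by simp) (by simp) (by simp) (by simp [Gd.fu, GS, rS]))
    (fun e => pp_of (by simp) (by simp) (by simp) (by simp [Gd.fu, GS, rS]))
    (fun e e' hee => pp_of (by simp; omega) (by simp) (by simp) (by simp [Gd.fu, GS, rS]; omega))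
    hcx (ad_fu (by simp) x0 x1) (ad_of (by simp) x0 x2) (ad_of (by simp) x0 (x3 _))
    (fun e => ad_of (by simp) x0 (x3 _))

theorem star_c2 (h : SH H t ty z lf ex il) (ht : 4 ≤ t) (hty : ty = 1 ∨ ty = 2) {i : ℕ}
    (hi1 : ∃ c, Z c ∧ (GS t).fu c (.U i)) (hi2 : ¬ ∃ c, Z c ∧ (GS t).fu c (.U (i + 1)))
    (hi3 : i ≤ 4 * k + 3) (dS : ∃ c, Z c ∧ (GS t).fu c .S) (dW : ∃ c, Z c ∧ (GS t).fu c .W)
    (hQ : Z .Q) :
    ∃ (τ : Fin m → Cs) (β : Fin m → ℕ), (∀ i, (GS t).okT k (τ i)) ∧ (∀ i, β i < 2) ∧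
      (∀ i j, i ≠ j → τ i = (GS t).R → τ j ≠ (GS t).R) ∧
      (∀ i j, i ≠ j → τ i = τ j → β i ≠ β j) ∧
      (∀ i j, i ≠ j → τ i ≠ (GS t).R → τ j ≠ (GS t).R → (H.Adj i j ↔ (GS t).fu (τ i) (τ j))) ∧
      ∀ i j, i ≠ j → τ i = (GS t).R → (H.Adj i j ↔ ∃ c, Z c ∧ (GS t).fu c (τ j)) := by
  have dE : ∀ e, ∃ c, Z c ∧ (GS t).fu c (.E e) := fun e => ⟨.Q, hQ, by simp [Gd.fu, GS, rS]⟩
  obtain ⟨cx, hcx, o1, x0, x1, x2, x3, x4⟩ : ∃ cx : Cs, (AD (GS t) Z .R cx ↔ ty = 1) ∧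
      (GS t).okT k cx ∧ cx ≠ .R ∧ (GS t).fu (.U i) cx ∧ (¬ (GS t).fu .S cx) ∧
      (¬ (GS t).fu .W cx) ∧ ∀ e, ¬ (GS t).fu (.E e) cx := by
    rcases hty with hty | hty
    · exact ⟨.U i, iff_of_true (Or.inl ⟨rfl, hi1⟩) hty, okU (by omega), by simp,
        by simp [Gd.fu], by simp [Gd.fu, GS, rS], by simp [Gd.fu, GS, rS],
        fun e => by simp [Gd.fu, GS, rS]⟩
    · exact ⟨.U (i + 1), iff_of_false (ad_R hi2) (by omega), okU (by omega), by simp,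
        by simp [Gd.fu, GS, rS], by simp [Gd.fu, GS, rS], by simp [Gd.fu, GS, rS],
        fun e => by simp [Gd.fu, GS, rS]⟩
  exact sh_cf h .R cx (.U i) .S .W (fun e => .E e) okR o1 (okU (by omega)) okSS
    okW (fun e he => okE (by omega)) x0 x0.symm (by simp) (by simp) (by simp)
    (by simp) (Or.inl ⟨rfl, hi1⟩) (Or.inl ⟨rfl, dS⟩) (Or.inl ⟨rfl, dW⟩)
    (fun e => Or.inl ⟨rfl, dE _⟩)
    (pp_of (by simp) (by simp) (by simp) (by simp [Gd.fu, GS, rS]))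
    (pp_of (by simp) (by simp) (by simp) (by simp [Gd.fu, GS, rS]))
    (pp_of (by simp) (by simp) (by simp) (by simp [Gd.fu, GS, rS]))
    (fun e => pp_of (by simp) (by simp) (by simp) (by simp [Gd.fu, GS, rS]))
    (fun e => pp_of (by simp) (by simp) (by simp) (by simp [Gd.fu, GS, rS]))
    (fun e => pp_of (by simp) (by simp) (by simp) (by simp [Gd.fu, GS, rS]))
    (fun e e' hee => pp_of (by simp; omega) (by simp) (by simp) (by simp [Gd.fu, GS, rS]; omega))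
    hcx (ad_fu (by simp) x0 x1) (ad_of (by simp) x0 x2) (ad_of (by simp) x0 x3)
    (fun e => ad_of (by simp) x0 (x4 _))

theorem star_c3 (h : SH H t ty z lf ex il) (ht : 4 ≤ t) (hty : ty = 1)
    (dW : ∃ c, Z c ∧ (GS t).fu c .W)
    (nQ : ¬ ∃ c, Z c ∧ (GS t).fu c .Q) (nV : ∀ e, ¬ ∃ c, Z c ∧ (GS t).fu c (.V e)) :
    ∃ (τ : Fin m → Cs) (β : Fin m → ℕ), (∀ i, (GS t).okT k (τ i)) ∧ (∀ i, β i < 2) ∧
      (∀ i j, i ≠ j → τ i = (GS t).R → τ j ≠ (GS t).R) ∧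
      (∀ i j, i ≠ j → τ i = τ j → β i ≠ β j) ∧
      (∀ i j, i ≠ j → τ i ≠ (GS t).R → τ j ≠ (GS t).R → (H.Adj i j ↔ (GS t).fu (τ i) (τ j))) ∧
      ∀ i j, i ≠ j → τ i = (GS t).R → (H.Adj i j ↔ ∃ c, Z c ∧ (GS t).fu c (τ j)) :=
  sh_cf h .W (.V 0) (.V 0) .R .Q (fun e => .V (e + 1)) okW (okV (by omega)) (okV (by omega)) okR
    okQ (fun e he => okV (by omega)) (by simp [GS]) (by simp) (by simp) (by simp) (by simp)
    (by simp) (ad_fu (by simp) (by simp) (by simp [Gd.fu, GS, rS]))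
    (Or.inr (Or.inl ⟨by simp [GS], rfl, dW⟩))
    (ad_fu (by simp) (by simp) (by simp [Gd.fu, GS, rS]))
    (fun e => ad_fu (by simp) (by simp) (by simp [Gd.fu, GS, rS]))
    (pp_R (by simp) (nV _)).symm
    (pp_of (by simp) (by simp) (by simp) (by simp [Gd.fu, GS, rS]))
    (pp_R (by simp) nQ)
    (fun e => pp_of (by simp) (by simp) (by simp) (by simp [Gd.fu, GS, rS]))
    (fun e => pp_R (by simp) (nV _))
    (fun e => pp_of (by simp) (by simp) (by simp) (by simp [Gd.fu, GS, rS]))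
    (fun e e' hee => pp_of (by simp; omega) (by simp) (by simp) (by simp [Gd.fu, GS, rS]; omega))
    (iff_of_true (ad_fu (by simp) (by simp) (by simp [Gd.fu, GS, rS])) hty)
    (ad_fu (by simp) (by simp) (by simp [Gd.fu, GS, rS]))
    (ad_R (nV _))
    (ad_of (by simp) (by simp) (by simp [Gd.fu, GS, rS]))
    (fun e => ad_of (by simp) (by simp) (by simp [Gd.fu, GS, rS]))

theorem star_c4 (h : SH H t ty z lf ex il) (ht : 4 ≤ t) (hty : ty = 2)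
    (dW : ∃ c, Z c ∧ (GS t).fu c .W) (dU : ∃ c, Z c ∧ (GS t).fu c (.U 0))
    (nQ : ¬ ∃ c, Z c ∧ (GS t).fu c .Q) (nV : ∀ e, ¬ ∃ c, Z c ∧ (GS t).fu c (.V e)) :
    ∃ (τ : Fin m → Cs) (β : Fin m → ℕ), (∀ i, (GS t).okT k (τ i)) ∧ (∀ i, β i < 2) ∧
      (∀ i j, i ≠ j → τ i = (GS t).R → τ j ≠ (GS t).R) ∧
      (∀ i j, i ≠ j → τ i = τ j → β i ≠ β j) ∧
      (∀ i j, i ≠ j → τ i ≠ (GS t).R → τ j ≠ (GS t).R → (H.Adj i j ↔ (GS t).fu (τ i) (τ j))) ∧
      ∀ i j, i ≠ j → τ i = (GS t).R → (H.Adj i j ↔ ∃ c, Z c ∧ (GS t).fu c (τ j)) :=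
  sh_cf h .W (.U 0) .R .Q (.V 0) (fun e => .V (e + 1)) okW (okU (by omega)) okR okQ
    (okV (by omega)) (fun e he => okV (by omega)) (by simp [GS]) (by simp) (by simp) (by simp)
    (by simp) (by simp) (Or.inr (Or.inl ⟨by simp [GS], rfl, dW⟩))
    (ad_fu (by simp) (by simp) (by simp [Gd.fu, GS, rS]))
    (ad_fu (by simp) (by simp) (by simp [Gd.fu, GS, rS]))
    (fun e => ad_fu (by simp) (by simp) (by simp [Gd.fu, GS, rS]))
    (pp_R (by simp) nQ) (pp_R (by simp) (nV _))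
    (pp_of (by simp) (by simp) (by simp) (by simp [Gd.fu, GS, rS]))
    (fun e => pp_R (by simp) (nV _))
    (fun e => pp_of (by simp) (by simp) (by simp) (by simp [Gd.fu, GS, rS]))
    (fun e => pp_of (by simp) (by simp) (by simp) (by simp [Gd.fu, GS, rS]))
    (fun e e' hee => pp_of (by simp; omega) (by simp) (by simp) (by simp [Gd.fu, GS, rS]; omega))
    (iff_of_false (ad_of (by simp) (by simp) (by simp [Gd.fu, GS, rS])) (by omega))
    (Or.inl ⟨rfl, dU⟩)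
    (ad_of (by simp) (by simp) (by simp [Gd.fu, GS, rS]))
    (ad_of (by simp) (by simp) (by simp [Gd.fu, GS, rS]))
    (fun e => ad_of (by simp) (by simp) (by simp [Gd.fu, GS, rS]))

end

theorem star_adv {H : SimpleGraph (Fin m)} {t ty : ℕ} {z : Fin m} {lf ex : Fin m → Prop}
    {il : Fin m → ℕ} (h : SH H t ty z lf ex il) (ht : 4 ≤ t) (hty : ty = 1 ∨ ty = 2) :
    AdvT (GS t) H := by
  classical
  intro k Z ZR Zok conn blk
  have ZR : Z .R := ZR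
  obtain ⟨b0, hb0, hblk⟩ := blk
  have hlv : ∀ c, Z c → lvS c < 2 * b0 + 2 := by
    refine conn (fun c => lvS c < 2 * b0 + 2) (by simp [GS, lvS]) fun c c' hc hP hc' hA => ?_
    have h1 := lv_stepS hA
    have h2 : lvS c' / 2 ≠ b0 + 1 := hblk c' hc'
    omega
  have D : ∀ c, (∃ c', Z c' ∧ (GS t).fu c' c) → lvS c ≤ 4 * k + 3 := fun c ⟨c', h1, h2⟩ => by
    have := lv_stepS (Or.inl h2 : (GS t).fu c' c ∨ _)
    have := hlv c' h1
    omega
  have dS : ∃ c, Z c ∧ (GS t).fu c .S := ⟨.R, ZR, by simp [Gd.fu, GS, rS]⟩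
  have dU : ∃ c, Z c ∧ (GS t).fu c (.U 0) := ⟨.R, ZR, by simp [Gd.fu, GS, rS]⟩
  have dW : ∃ c, Z c ∧ (GS t).fu c .W := ⟨.R, ZR, by simp [Gd.fu, GS, rS]⟩
  have hR : (GS t).R = .R := rfl
  -- the end of the path
  obtain ⟨i, hi1, hi2, hi3⟩ : ∃ i, (∃ c, Z c ∧ (GS t).fu c (.U i)) ∧
      (¬ ∃ c, Z c ∧ (GS t).fu c (.U (i + 1))) ∧ i ≤ 4 * k + 3 := by
    generalize hg : Nat.findGreatest (fun i => ∃ c, Z c ∧ (GS t).fu c (.U i)) (4 * k + 3) = g
    refine ⟨g, ?_, fun hc => ?_, ?_⟩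
    · rw [← hg]
      exact Nat.findGreatest_spec (P := fun i => ∃ c, Z c ∧ (GS t).fu c (.U i))
        (n := 4 * k + 3) (m := 0) (by omega) dU
    · have h1 : g + 1 ≤ 4 * k + 3 := D _ hc
      have := Nat.le_findGreatest (P := fun i => ∃ c, Z c ∧ (GS t).fu c (.U i)) (n := 4 * k + 3)
        h1 hc
      omega
    · rw [← hg]; exact Nat.findGreatest_le _
  by_cases hW : Z .W
  · exact star_c1 h ht hty hi1 hi2 hi3 dS hW
  by_cases hQ : Z .Q
  · exact star_c2 h ht hty hi1 hi2 hi3 dS dW hQ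
  have good : ∀ c, Z c → c = .R ∨ c = .S ∨ ∃ e, c = .U e := by
    refine conn (fun c => c = .R ∨ c = .S ∨ ∃ e, c = .U e) (Or.inl rfl)
      fun c c' hc hP hc' hA => ?_
    cases c' with
    | R => exact Or.inl rfl
    | S => exact Or.inr (Or.inl rfl)
    | U e => exact Or.inr (Or.inr ⟨e, rfl⟩)
    | Q => exact absurd hc' hQ
    | W => exact absurd hc' hW
    | E e => rcases hP with rfl | rfl | ⟨e', rfl⟩ <;> simp [GS, Gd.fu, rS] at hA
    | V e => rcases hP with rfl | rfl | ⟨e', rfl⟩ <;> simp [GS, Gd.fu, rS] at hA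
  have nQ : ¬ ∃ c, Z c ∧ (GS t).fu c .Q := by
    rintro ⟨c, h1, h2⟩
    rcases good c h1 with rfl | rfl | ⟨e', rfl⟩ <;> simp [GS, Gd.fu, rS] at h2
  have nV : ∀ e, ¬ ∃ c, Z c ∧ (GS t).fu c (.V e) := by
    rintro e ⟨c, h1, h2⟩
    rcases good c h1 with rfl | rfl | ⟨e', rfl⟩ <;> simp [GS, Gd.fu, rS] at h2
  rcases hty with hty | hty
  · exact star_c3 h ht hty dW nQ nV
  · exact star_c4 h ht hty dW dU nQ nV

theorem star_hard {H : SimpleGraph (Fin m)} {t ty : ℕ} {z : Fin m} {lf ex : Fin m → Prop}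
    {il : Fin m → ℕ} (h : SH H t ty z lf ex il) (ht : 4 ≤ t) (hty : ty = 1 ∨ ty = 2)
    (hl : ∃ s : Finset (Fin m), (∀ v ∈ s, lf v) ∧ t ≤ s.card) : W2Hard (Con₁ H) :=
  tg_hard (GS_ok t) z.pos (star_free h ht hl) (star_adv h ht hty)

end Pool.Agent.Helper89.HF
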