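import Pool.Agent.Helper89.HF.A2b
import Pool.Agent.Helper89.HF.A2c
import Pool.Agent.Helper89.HF.Pl
import Pool.Agent.Helper89.HF.Ds
import Pool.Agent.Helper89.HF.St

/-! The case distinction. -/

namespace Pool.Agent.Helper89.HF

open Pool.Agent.H22.CT Pool.Agent.H38.NP Pool.Agent.H36.Par SimpleGraph Function

variable {m : ℕ}

theorem num (s : Finset (Fin m)) : ∃ g : Fin m → ℕ, (∀ v ∈ s, g v < s.card) ∧
    ∀ v ∈ s, ∀ v' ∈ s, g v = g v' → v = v' := by
  classical
  refine ⟨fun v => if h : v ∈ s then s.equivFin ⟨v, h⟩ else 0, fun v hv => ?_,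
    fun v hv v' hv' e => ?_⟩
  · simp only [hv, dif_pos]; exact (s.equivFin ⟨v, hv⟩).2
  · simp only [hv, hv', dif_pos] at e
    have := s.equivFin.injective (Fin.ext e)
    exact congrArg Subtype.val this

theorem num0 (s : Finset (Fin m)) {x : Fin m} (hx : x ∈ s) : ∃ g : Fin m → ℕ,
    (∀ v ∈ s, g v < s.card) ∧ (∀ v ∈ s, ∀ v' ∈ s, g v = g v' → v = v') ∧ g x = 0 := by
  classical
  obtain ⟨g, h1, h2⟩ := num (s.erase x)
  have hc : (s.erase x).card + 1 = s.card := Finset.card_erase_add_one hx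
  refine ⟨fun v => if v = x then 0 else g v + 1, fun v hv => ?_, fun v hv v' hv' e => ?_,
    if_pos rfl⟩
  · by_cases e : v = x
    · simp only [e, if_true]; omega
    · have := h1 v (Finset.mem_erase.2 ⟨e, hv⟩)
      simp only [e, if_false]; omega
  · by_cases e1 : v = x <;> by_cases e2 : v' = x
    · rw [e1, e2]
    · simp only [e1, e2, if_true, if_false] at e; omega
    · simp only [e1, e2, if_true, if_false] at e; omega
    · simp only [e1, e2, if_false] at e
      exact h2 v (Finset.mem_erase.2 ⟨e1, hv⟩) v' (Finset.mem_erase.2 ⟨e2, hv'⟩) (by omega)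

/-- stars -/
theorem star_pl {H : SimpleGraph (Fin m)} (hm : 6 ≤ m) {z : Fin m}
    (zl : ∀ v, v ≠ z → H.Adj z v) (ll : ∀ v v', v ≠ z → v' ≠ z → ¬ H.Adj v v') :
    W2Hard (Con₁ H) := by
  classical
  obtain ⟨g, h1, h2⟩ := num (Finset.univ.erase z)
  have hc : (Finset.univ.erase z).card = m - 1 := by
    rw [Finset.card_erase_of_mem (Finset.mem_univ _), Finset.card_univ, Fintype.card_fin]
  have hS : SH H (m - 1) 1 z (fun v => v ≠ z) (fun _ => False) g :=
    { cov := fun v => by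
        by_cases e : v = z
        · exact Or.inl e
        · exact Or.inr (Or.inl e)
      zl := zl
      ll := ll
      i1 := fun v hv => hc ▸ h1 v (by simpa using hv)
      i2 := fun v v' hv hv' e => h2 v (by simpa using hv) v' (by simpa using hv') e
      ne := id
      dj := fun _ _ h => h
      e1 := fun _ _ h => h.elim
      ze := fun _ h => h.elim
      le := fun _ _ _ h => h.elim }
  exact star_hard hS (by omega) (Or.inl rfl)
    ⟨Finset.univ.erase z, fun v hv => (Finset.mem_erase.1 hv).1, hc.ge⟩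

/-- stars with an additional vertex -/
theorem star_ex {H : SimpleGraph (Fin m)} (hm : 6 ≤ m) {ty : ℕ} (hty : ty = 1 ∨ ty = 2)
    {z x e : Fin m} (hze : z ≠ e) (hxz : x ≠ z) (hxe : x ≠ e)
    (zl : ∀ v, v ≠ z → v ≠ e → H.Adj z v)
    (ll : ∀ v v', v ≠ z → v ≠ e → v' ≠ z → v' ≠ e → ¬ H.Adj v v')
    (ze : H.Adj z e ↔ ty = 1) (le : ∀ v, v ≠ z → v ≠ e → (H.Adj v e ↔ v = x)) :
    W2Hard (Con₁ H) := by
  classical
  have mem : ∀ v, v ≠ z ∧ v ≠ e ↔ v ∈ (Finset.univ.erase z).erase e := fun v => by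
    simp [and_comm]
  obtain ⟨g, h1, h2, h3⟩ := num0 ((Finset.univ.erase z).erase e) ((mem x).1 ⟨hxz, hxe⟩)
  have hc : ((Finset.univ.erase z).erase e).card = m - 2 := by
    rw [Finset.card_erase_of_mem (by simpa using hze.symm),
      Finset.card_erase_of_mem (Finset.mem_univ _), Finset.card_univ, Fintype.card_fin]
    omega
  have hS : SH H (m - 2) ty z (fun v => v ≠ z ∧ v ≠ e) (fun v => v = e) g :=
    { cov := fun v => by
        by_cases e1 : v = z
        · exact Or.inl e1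
        by_cases e2 : v = e
        · exact Or.inr (Or.inr e2)
        · exact Or.inr (Or.inl ⟨e1, e2⟩)
      zl := fun v h => zl v h.1 h.2
      ll := fun v v' h h' => ll v v' h.1 h.2 h'.1 h'.2
      i1 := fun v hv => hc ▸ h1 v ((mem v).1 hv)
      i2 := fun v v' hv hv' => h2 v ((mem v).1 hv) v' ((mem v').1 hv')
      ne := hze
      dj := fun _ h h' => h.2 h'
      e1 := fun _ _ h h' => h.trans h'.symm
      ze := fun v h => by rw [h]; exact ze
      le := fun v v' h h' => by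
        rw [h', le v h.1 h.2]
        constructor
        · rintro rfl; exact h3
        · intro h4
          exact h2 v ((mem v).1 h) x ((mem x).1 ⟨hxz, hxe⟩) (h4.trans h3.symm) }
  exact star_hard hS (by omega) hty
    ⟨_, fun v hv => (mem v).2 hv, hc.ge⟩

/-- double stars with at least two leaves at each centre -/
theorem ds_mk {H : SimpleGraph (Fin m)} {xa xb : Fin m} {A B : Fin m → Prop}
    (ab : H.Adj xa xb) (cov : ∀ v, v = xa ∨ v = xb ∨ A v ∨ B v)
    (Aa : ∀ v, A v → ∀ u, H.Adj v u ↔ u = xa) (Bb : ∀ v, B v → ∀ u, H.Adj v u ↔ u = xb)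
    (Axb : ∀ v, A v → v ≠ xb) (Bxa : ∀ v, B v → v ≠ xa)
    {a1 a2 b1 b2 : Fin m} (ha1 : A a1) (ha2 : A a2) (ha : a1 ≠ a2) (hb1 : B b1) (hb2 : B b2)
    (hb : b1 ≠ b2) : W2Hard (Con₁ H) := by
  classical
  obtain ⟨sA, hA⟩ : ∃ s : Finset (Fin m), ∀ v, A v ↔ v ∈ s :=
    ⟨Finset.univ.filter A, fun v => by simp⟩
  obtain ⟨sB, hB⟩ : ∃ s : Finset (Fin m), ∀ v, B v ↔ v ∈ s :=
    ⟨Finset.univ.filter B, fun v => by simp⟩
  obtain ⟨ia, i1, i2⟩ := num sA
  obtain ⟨ib, i3, i4⟩ := num sB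
  have cA : 2 ≤ sA.card := Finset.one_lt_card.2 ⟨a1, (hA _).1 ha1, a2, (hA _).1 ha2, ha⟩
  have cB : 2 ≤ sB.card := Finset.one_lt_card.2 ⟨b1, (hB _).1 hb1, b2, (hB _).1 hb2, hb⟩
  rcases le_total sA.card sB.card with hab | hab
  · have hS : DS H sA.card sB.card xa xb A B ia ib :=
      { ab := ab, cov := cov, Aa := Aa, Bb := Bb, Axb := Axb, Bxa := Bxa
        a1 := fun v h => i1 v ((hA v).1 h)
        a2 := fun v v' h h' => i2 v ((hA v).1 h) v' ((hA v').1 h')
        b1 := fun v h => i3 v ((hB v).1 h)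
        b2 := fun v v' h h' => i4 v ((hB v).1 h) v' ((hB v').1 h') }
    exact chain_hard hS cA hab ⟨sA, fun v hv => (hA v).2 hv, le_rfl⟩
      ⟨sB, fun v hv => (hB v).2 hv, le_rfl⟩
  · have hS : DS H sB.card sA.card xb xa B A ib ia :=
      { ab := ab.symm, cov := fun v => by have := cov v; tauto
        Aa := Bb, Bb := Aa, Axb := Bxa, Bxa := Axb
        a1 := fun v h => i3 v ((hB v).1 h)
        a2 := fun v v' h h' => i4 v ((hB v).1 h) v' ((hB v').1 h')
        b1 := fun v h => i1 v ((hA v).1 h)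
        b2 := fun v v' h h' => i2 v ((hA v).1 h) v' ((hA v').1 h') }
    exact chain_hard hS cB hab ⟨sB, fun v hv => (hB v).2 hv, le_rfl⟩
      ⟨sA, fun v hv => (hA v).2 hv, le_rfl⟩

theorem sz3 {H : SimpleGraph (Fin m)} {w a b c : Fin m} (ha : a ≠ w) (hb : b ≠ w) (hc : c ≠ w)
    (hab : H.Adj a b) (hac : H.Adj a c) (hbc : b ≠ c) : 3 ≤ sz H w a := by
  classical
  have : ({a, b, c} : Finset (Fin m)) ⊆ Finset.univ.filter (Kc H w a) := by
    intro v hv
    simp only [Finset.mem_insert, Finset.mem_singleton] at hv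
    simp only [Finset.mem_filter, Finset.mem_univ, true_and]
    rcases hv with rfl | rfl | rfl
    · exact ⟨ha, Or.inl rfl⟩
    · exact ⟨hb, Or.inr hab⟩
    · exact ⟨hc, Or.inr hac⟩
  have h := Finset.card_le_card this
  rw [Finset.card_eq_three.2 ⟨a, b, c, hab.ne, hac.ne, hbc, rfl⟩] at h
  unfold sz
  convert h

theorem sz_adj {H : SimpleGraph (Fin m)} {w a b : Fin m} (hT : CU H w) (ha : a ≠ w) (hb : b ≠ w)
    (hab : H.Adj a b) : sz H w a ≤ sz H w b :=
  sz_le id (fun _ _ _ _ h => h) fun i h => ⟨h.1, by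
    by_cases e : i = b
    · exact Or.inl e
    · rcases h.2 with h1 | h1
      · exact Or.inr (h1 ▸ hab.symm)
      · exact Or.inr (hT b a i hb ha h.1 hab.symm h1 (Ne.symm e))⟩

/-- a universal vertex whose removal leaves disjoint cliques, one with three vertices -/
theorem big {H : SimpleGraph (Fin m)} (hm : 6 ≤ m) (hn : H ≠ ⊤) {w a0 : Fin m}
    (hw : ∀ v, v ≠ w → H.Adj w v) (hT : CU H w) (ha0 : a0 ≠ w) (h30 : 3 ≤ sz H w a0) :
    W2Hard (Con₁ H) := by
  classical
  obtain ⟨q, hq, hmax⟩ := Finset.exists_max_image (Finset.univ.erase w) (sz H w)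
    ⟨a0, by simpa using ha0⟩
  have hqw : q ≠ w := by simpa using hq
  have h3 : 3 ≤ sz H w q := h30.trans (hmax a0 (by simpa using ha0))
  by_cases hiso : ∃ u u', u ≠ w ∧ u' ≠ w ∧ u ≠ u' ∧ (∀ v, H.Adj u v → v = w) ∧
      ∀ v, H.Adj u' v → v = w
  · obtain ⟨u, u', h1, h2, h4, h5, h6⟩ := hiso
    exact A2d hw hT h1 h2 hqw h4 h5 h6 h3
  obtain ⟨v0, hv0, hv1, hv2⟩ : ∃ v, v ≠ w ∧ v ≠ q ∧ ¬ H.Adj q v := by
    by_contra hcon
    push Not at hcon
    refine hn (top_le_iff.1 fun a b hab => ?_)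
    have hab : a ≠ b := hab
    by_cases ea : a = w
    · rw [ea]; exact hw b (fun e => hab (ea.trans e.symm))
    by_cases eb : b = w
    · rw [eb]; exact (hw a ea).symm
    by_cases eq : a = q
    · rw [eq]; exact hcon b eb (fun e => hab (eq.trans e.symm))
    by_cases eq' : b = q
    · rw [eq']; exact (hcon a ea eq).symm
    · exact hT a q b ea hqw eb (hcon a ea eq).symm (hcon b eb eq') hab
  by_cases hall : ∀ v, v ≠ w → sz H w v = sz H w q
  · obtain ⟨n1, -, -, e1, -, k1, -⟩ := Kc_three hv0 (h3.trans (hall v0 hv0).ge)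
    exact A2e hw hT hv0 hqw hv1 (fun h => hv2 h.symm) h3 (hall v0 hv0) k1.1
      (k1.2.resolve_left e1)
  push Not at hall
  obtain ⟨u, huw, hu⟩ := hall
  have hlt : sz H w u < sz H w q := lt_of_le_of_ne (hmax u (by simpa using huw)) hu
  have huq : u ≠ q := fun e => hu (by rw [e])
  have hnuq : ¬ H.Adj u q := fun h => by
    have := sz_adj hT hqw huw h.symm
    omega
  by_cases hy : ∃ y y2, y ≠ w ∧ y2 ≠ w ∧ H.Adj y y2 ∧ q ≠ y ∧ ¬ H.Adj q y
  · obtain ⟨y, y2, hyw, hyw2, hyy, hyq, hnq⟩ := hy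
    obtain ⟨x, hx, hmin⟩ := Finset.exists_min_image
      (Finset.univ.filter fun v => v ≠ w ∧ ∃ v', v' ≠ w ∧ H.Adj v v') (sz H w)
      ⟨y, by simpa using ⟨hyw, y2, hyw2, hyy⟩⟩
    simp only [Finset.mem_filter, Finset.mem_univ, true_and] at hx
    obtain ⟨hxw, x2, hxw2, hxx⟩ := hx
    have hsy := hmin y (by simpa using ⟨hyw, y2, hyw2, hyy⟩)
    exact A2c hw hT huw hqw hxw huq hnuq h3 hlt (hmax x (by simpa using hxw)) hxw2 hxx hyw hyw2
      hyy hyq hnq hsy
  · push Not at hy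
    push Not at hiso
    -- the other vertices are isolated, and there is only one of them
    have iso : ∀ v, v ≠ w → v ≠ q → ¬ H.Adj q v → ∀ v', H.Adj v v' → v' = w :=
      fun v h1 h2 h4 v' h5 => by
        by_contra h6
        exact h4 (hy v v' h1 h6 h5 h2.symm)
    have nqu : ¬ H.Adj q u := fun h => hnuq h.symm
    have all : ∀ v, v ≠ w → v ≠ u → v ≠ q → H.Adj q v := fun v h1 h2 h4 => by
      by_contra h5
      obtain ⟨v', h6, h7⟩ := hiso u v huw h1 (Ne.symm h2) (iso u huw huq nqu)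
      exact h7 (iso v h1 h4 h5 v' h6)
    refine P3 hm huw (fun v => ⟨iso u huw huq nqu v, fun h => ?_⟩) (fun a b ha hb hab => ?_)
      (q1 := w) (q2 := q) hqw.symm (Ne.symm huw) huq.symm
    · rw [h]; exact (hw u huw).symm
    · by_cases ea : a = w
      · rw [ea]; exact hw b (fun e => hab (ea.trans e.symm))
      by_cases eb : b = w
      · rw [eb]; exact (hw a ea).symm
      by_cases eq : a = q
      · rw [eq]; exact all b eb hb (fun e => hab (eq.trans e.symm))
      by_cases eq' : b = q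
      · rw [eq']; exact (all a ea ha eq).symm
      · exact hT a q b ea hqw eb (all a ea ha eq).symm (all b eb hb eq') hab

/-- a universal vertex -/
theorem uni {H : SimpleGraph (Fin m)} (hm : 6 ≤ m) (hn : H ≠ ⊤) {w : Fin m}
    (hw : ∀ v, v ≠ w → H.Adj w v) : W2Hard (Con₁ H) := by
  classical
  by_cases hT : CU H w
  swap
  · unfold CU at hT
    push Not at hT
    obtain ⟨a, b, c, ha, hb, hc, hab, hbc, hac, hn'⟩ := hT
    exact A1 hw ha hac hn' (.head ⟨⟨ha, hb⟩, hab⟩ (.single ⟨⟨hb, hc⟩, hbc⟩))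
  by_cases h3 : ∃ a b c, a ≠ w ∧ b ≠ w ∧ c ≠ w ∧ H.Adj a b ∧ H.Adj a c ∧ b ≠ c
  · obtain ⟨a, b, c, ha, hb, hc, hab, hac, hbc⟩ := h3
    exact big hm hn hw hT ha (sz3 ha hb hc hab hac hbc)
  push Not at h3
  by_cases he : ∃ q q', q ≠ w ∧ q' ≠ w ∧ H.Adj q q'
  swap
  · push Not at he
    exact star_pl hm hw fun v v' h h' => he v v' h h'
  obtain ⟨q, q', hqw, hqw', hqq⟩ := he
  have nb : ∀ a b, a ≠ w → b ≠ w → H.Adj a b → ∀ v, H.Adj a v → v = w ∨ v = b :=
    fun a b h1 h2 h4 v h5 => by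
      by_cases e : v = w
      · exact Or.inl e
      · exact Or.inr (h3 a v b h1 e h2 h5 h4)
  by_cases hs : ∃ s s', s ≠ w ∧ s' ≠ w ∧ H.Adj s s' ∧ s ≠ q ∧ s ≠ q'
  swap
  · push Not at hs
    refine star_ex hm (Or.inl rfl) (z := w) (x := q) (e := q') hqw'.symm hqw hqq.ne
      (fun v h _ => hw v h) (fun v v' h1 h2 h4 h5 h6 => ?_) (iff_of_true (hw q' hqw') rfl)
      (fun v h1 h2 => ⟨fun h => ?_, fun h => h ▸ hqq⟩)
    · by_cases e : v = q
      · subst e
        rcases nb v q' hqw hqw' hqq v' h6 with h | h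
        exacts [h4 h, h5 h]
      · exact h2 (hs v v' h1 h4 h6 e)
    · rcases nb q' q hqw' hqw hqq.symm v h.symm with h | h
      exacts [absurd h h1, h]
  obtain ⟨s, s', hsw, hsw', hss, h1, h2⟩ := hs
  have h4 : s' ≠ q := fun e => by
    subst e
    rcases nb s' q' hqw hqw' hqq s hss.symm with h | h
    exacts [hsw h, h2 h]
  have h5 : s' ≠ q' := fun e => by
    subst e
    rcases nb s' q hqw' hqw hqq.symm s hss.symm with h | h
    exacts [hsw h, h1 h]
  by_cases hi : ∃ u, u ≠ w ∧ ∀ v, H.Adj u v → v = w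
  · obtain ⟨u, huw, hu⟩ := hi
    exact A2a hw huw hu hqq hqw hqw' (nb q q' hqw hqw' hqq) (nb q' q hqw' hqw hqq.symm)
      hss hsw hsw' h1 h2 h4 h5
  push Not at hi
  obtain ⟨u, hu⟩ : ∃ u, u ∉ ({w, q, q', s, s'} : Finset (Fin m)) := by
    by_contra hcon
    push Not at hcon
    have := Finset.card_le_card (s := Finset.univ) (t := ({w, q, q', s, s'} : Finset (Fin m)))
      fun v _ => hcon v
    rw [Finset.card_univ, Fintype.card_fin] at this
    have := this.trans Finset.card_le_five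
    omega
  simp only [Finset.mem_insert, Finset.mem_singleton, not_or] at hu
  obtain ⟨huw, huq, huq', hus, hus'⟩ := hu
  obtain ⟨u', huu, huw'⟩ := hi u huw
  refine A2b hw huu huw huw' (nb u u' huw huw' huu) (nb u' u huw' huw huu.symm) hqq hqw hqw'
    (nb q q' hqw hqw' hqq) (nb q' q hqw' hqw hqq.symm) huq huq' hss hsw hsw' h1 h2 h4 h5
    (Ne.symm hus) (fun e => ?_) (Ne.symm hus') (fun e => ?_)
  · subst e
    rcases nb s s' hsw hsw' hss u huu.symm with h | h
    exacts [huw h, hus' h]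
  · subst e
    rcases nb s' s hsw' hsw hss.symm u huu.symm with h | h
    exacts [huw h, hus h]

/-- brooms without a universal vertex -/
theorem broom {H : SimpleGraph (Fin m)} (hm : 6 ≤ m) {q : Fin m} {D K L : Fin m → Prop}
    (hB : Br H q D K L) {d0 k0 l0 : Fin m} (hd0 : D d0) (hk0 : K k0) (hl0 : L l0) :
    W2Hard (Con₁ H) := by
  classical
  by_cases hD : ∃ d d', D d ∧ D d' ∧ H.Adj d d'
  · obtain ⟨d, d', h1, h2, h3⟩ := hD
    exact B1 hB h1 h2 h3 hk0 hl0
  push Not at hD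
  by_cases hK : ∃ k, K k ∧ k ≠ k0
  · obtain ⟨k, h1, h2⟩ := hK
    exact B2 hB hD hd0 h1 hk0 h2 hl0
  push Not at hK
  have hDK : ∀ d, D d → d ≠ k0 := fun d h e => hB.dl d l0 h hl0 (e ▸ hB.kl k0 l0 hk0 hl0)
  have hDq : ∀ d, D d → d ≠ q := fun d h => (hB.qd d h).ne'
  have hLk : ∀ l, L l → l ≠ k0 := fun l h => (hB.kl k0 l hk0 h).ne'
  have hLq := hB.lq
  have hkq : k0 ≠ q := (hB.qk k0 hk0).ne'
  have hDL : ∀ d, D d → ¬ L d := fun d h h' => hB.ql d h' (hB.qd d h)
  have Aa : ∀ v, D v → ∀ u, H.Adj v u ↔ u = q := fun v hv u =>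
    ⟨fun h => by
      rcases hB.cov u with h' | h' | h' | h'
      · exact absurd h (hD v u hv h')
      · exact h'
      · exact absurd h (hB.dk v u hv h')
      · exact absurd h (hB.dl v u hv h'), fun h => h ▸ (hB.qd v hv).symm⟩
  have Bb : ∀ v, L v → ∀ u, H.Adj v u ↔ u = k0 := fun v hv u =>
    ⟨fun h => by
      rcases hB.cov u with h' | h' | h' | h'
      · exact absurd h.symm (hB.dl u v h' hv)
      · exact absurd (h' ▸ h.symm) (hB.ql v hv)
      · exact hK u h'
      · exact absurd h (hB.ll v u hv h'), fun h => h ▸ (hB.kl k0 v hk0 hv).symm⟩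
  have cov : ∀ v, v = q ∨ v = k0 ∨ D v ∨ L v := fun v => by
    rcases hB.cov v with h | h | h | h
    · exact Or.inr (Or.inr (Or.inl h))
    · exact Or.inl h
    · exact Or.inr (Or.inl (hK v h))
    · exact Or.inr (Or.inr (Or.inr h))
  by_cases hL2 : ∃ l, L l ∧ l ≠ l0
  swap
  · -- one leaf at `k0`
    push Not at hL2
    have lfD : ∀ v, v ≠ q → v ≠ l0 → v = k0 ∨ D v := fun v h1 h2 => by
      rcases cov v with h | h | h | h
      · exact absurd h h1
      · exact Or.inl h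
      · exact Or.inr h
      · exact absurd (hL2 v h) h2
    refine star_ex hm (Or.inr rfl) (z := q) (x := k0) (e := l0) (hLq l0 hl0).symm hkq
      (hLk l0 hl0).symm (fun v h1 h2 => ?_) (fun v v' h1 h2 h3 h4 h5 => ?_)
      (iff_of_false (hB.ql l0 hl0) (by omega)) (fun v h1 h2 => ?_)
    · rcases lfD v h1 h2 with h | h
      · rw [h]; exact hB.qk k0 hk0
      · exact hB.qd v h
    · rcases lfD v h1 h2 with h | h
      · subst h
        rcases lfD v' h3 h4 with h | h
        · exact h5.ne h.symm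
        · exact hkq (((Aa v' h v).1 h5.symm))
      · exact h3 ((Aa v h v').1 h5)
    · rw [H.adj_comm, Bb l0 hl0 v]
  by_cases hD2 : ∃ d, D d ∧ d ≠ d0
  swap
  · -- one leaf at `q`
    push Not at hD2
    have lfL : ∀ v, v ≠ k0 → v ≠ d0 → v = q ∨ L v := fun v h1 h2 => by
      rcases cov v with h | h | h | h
      · exact Or.inl h
      · exact absurd h h1
      · exact absurd (hD2 v h) h2
      · exact Or.inr h
    refine star_ex hm (Or.inr rfl) (z := k0) (x := q) (e := d0) (hDK d0 hd0).symm hkq.symm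
      (hDq d0 hd0).symm (fun v h1 h2 => ?_) (fun v v' h1 h2 h3 h4 h5 => ?_)
      (iff_of_false (fun h => hB.dk d0 k0 hd0 hk0 h.symm) (by omega)) (fun v h1 h2 => ?_)
    · rcases lfL v h1 h2 with h | h
      · rw [h]; exact (hB.qk k0 hk0).symm
      · exact hB.kl k0 v hk0 h
    · rcases lfL v h1 h2 with h | h
      · subst h
        rcases lfL v' h3 h4 with h | h
        · exact h5.ne h.symm
        · exact h1 (((Bb v' h v).1 h5.symm))
      · exact h3 ((Bb v h v').1 h5)
    · rw [H.adj_comm, Aa d0 hd0 v]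
  obtain ⟨l1, hl1, hl⟩ := hL2
  obtain ⟨d1, hd1, hd⟩ := hD2
  exact ds_mk (hB.qk k0 hk0) cov Aa Bb hDK hLq hd1 hd0 hd hl1 hl0 hl

theorem main (hm : 6 ≤ m) (H : SimpleGraph (Fin m)) (hc : H.Connected) (hn : H ≠ ⊤) :
    W2Hard (Con₁ H) := by
  classical
  by_cases hu : ∃ w, Univ H w
  · obtain ⟨w, hw⟩ := hu
    exact uni hm hn hw
  push Not at hu
  have nU : ∀ U : Set (Fin m), (∀ w ∈ U, Univ H w) → U = ∅ := fun U h =>
    Set.eq_empty_iff_forall_notMem.2 fun w hw => hu w (h w hw)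
  by_cases hC : Cone H
  · obtain ⟨U, -, h1, h2⟩ := hC
    rw [nU U h1, Set.compl_empty] at h2
    exact absurd ((induceUnivIso H).connected_iff.2 hc) h2
  by_cases hB : Broom H
  · obtain ⟨q, U, D, K, L, -, h1, h2, ⟨d0, h3⟩, ⟨k0, h4⟩, ⟨l0, h5⟩, h6, h7, h8, h9, h10, h11, h12,
      h13, h14⟩ := hB
    have hU := nU U h1
    subst hU
    refine broom hm (q := q) (D := fun v => v ∈ D) (K := fun v => v ∈ K) (L := fun v => v ∈ L)
      { cov := fun v => by
          rcases h2 v with h | h | h | h | h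
          · exact h.elim
          · exact Or.inl h
          · exact Or.inr (Or.inl h)
          · exact Or.inr (Or.inr (Or.inl h))
          · exact Or.inr (Or.inr (Or.inr h))
        kk := fun a b ha hb hab => h7 ha hb hab
        qd := h8
        qk := h9
        kl := fun a b ha hb => h10 a ha b hb
        ql := h11
        ll := fun a b ha hb => h12 a ha b hb
        dk := fun a b ha hb => h13 a ha b hb
        dl := fun a b ha hb => h14 a ha b hb
        lq := fun l hl e => h6 (e ▸ hl) } h3 h4 h5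
  · exact hard_gen hn hC hB

end Pool.Agent.Helper89.HF
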