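import Pool.Agent.Helper89.HF.Bridge

/-! Gadgets whose vertices have finitely many kinds, the vertices of each kind forming a clique.
The number of kinds may depend on the parameter. -/

namespace Pool.Agent.Helper89.HF

open Pool.Agent.H22.CT Pool.Agent.H38.NP Pool.Agent.H36.Par SimpleGraph Function

abbrev T5 := (ℕ × ℕ × ℕ) × ℕ × ℕ

/-- kinds of vertices: `R` the root, `S` the sets, `Q` the elements -/
structure Gd (Cd : Type) where
  R : Cd
  S : Cd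
  Q : Cd
  r : Cd → Cd → Prop
  okc : ℕ → Cd → Prop
  lv : Cd → ℕ
  ec : Cd → ℕ × ℕ × ℕ
  rb : ℕ × ℕ × ℕ → ℕ × ℕ × ℕ → Bool
  Lc : ℕ → List (ℕ × ℕ × ℕ)

variable {Cd : Type} (G : Gd Cd)

structure Gd.Ok : Prop where
  RS : G.R ≠ G.S
  RQ : G.R ≠ G.Q
  SQ : G.S ≠ G.Q
  rRS : G.r G.R G.S
  nRQ : ¬ G.r G.R G.Q ∧ ¬ G.r G.Q G.R
  sN : ∀ c, (G.r G.S c ∨ G.r c G.S) → c = G.R
  okn : ∀ k c, G.okc k c → c ≠ G.R ∧ c ≠ G.S ∧ c ≠ G.Q
  ecI : Injective G.ec
  rbs : ∀ s t, G.rb (G.ec s) (G.ec t) = true ↔ G.r s t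
  Lcs : ∀ k a, a ∈ G.Lc k ↔ ∃ c, G.okc k c ∧ G.ec c = a
  ptr : PT fun p : (ℕ × ℕ × ℕ) × (ℕ × ℕ × ℕ) => G.rb p.1 p.2
  ptL : PT G.Lc
  lvR : G.lv G.R = 0

variable {G}

/-- adjacency of kinds -/
def Gd.fu (G : Gd Cd) (s t : Cd) : Prop := s = t ∨ G.r s t ∨ G.r t s

/-- adjacency of kinds in the final graph -/
def Gd.ful (G : Gd Cd) (s t : Cd) : Prop := G.fu s t ∨ (s = G.R ∧ t = G.Q) ∨ (s = G.Q ∧ t = G.R)

/-- possible adjacency of kinds in the final graph -/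
def Gd.may (G : Gd Cd) (s t : Cd) : Prop := G.ful s t ∨ (s = G.S ∧ t = G.Q) ∨ (s = G.Q ∧ t = G.S)

def Gd.okT (G : Gd Cd) (k : ℕ) (c : Cd) : Prop := c = G.R ∨ c = G.S ∨ c = G.Q ∨ G.okc k c

def Gd.Val (G : Gd Cd) (n k : ℕ) (a : Cd × ℕ × ℕ) : Prop :=
  (a.1 = G.R ∧ a.2.1 = 0 ∧ a.2.2 = 0) ∨
  (a.1 = G.S ∧ ((a.2.1 < n ∧ a.2.2 = 0) ∨ (a.2.1 = n ∧ a.2.2 < 4 * k + 2))) ∨
  (a.1 = G.Q ∧ a.2.1 < n ∧ a.2.2 < 4 * k + 2) ∨
  (G.okc k a.1 ∧ a.2.1 = 0 ∧ a.2.2 < 4 * k + 2)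

def Gd.rl (G : Gd Cd) (x : GK) (a b : Cd × ℕ × ℕ) : Prop :=
  a.1 = b.1 ∨ G.r a.1 b.1 ∨ (a.1 = G.S ∧ b.1 = G.Q ∧ cov x a.2.1 b.2.1 = true)

def Gd.Ad (G : Gd Cd) (x : GK) (a b : Cd × ℕ × ℕ) : Prop := a ≠ b ∧ (G.rl x a b ∨ G.rl x b a)

theorem Gd.Ad.symm {x : GK} {a b : Cd × ℕ × ℕ} (h : G.Ad x a b) : G.Ad x b a :=
  ⟨h.1.symm, h.2.symm⟩

def Gd.adg (G : Gd Cd) (x : GK) (a b : Cd × ℕ × ℕ) : Prop :=
  G.Val x.1 x.2.2 a ∧ G.Val x.1 x.2.2 b ∧ G.Ad x a b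

theorem Gd.adg.symm {x : GK} {a b : Cd × ℕ × ℕ} (h : G.adg x a b) : G.adg x b a :=
  ⟨h.2.1, h.1, h.2.2.symm⟩

theorem Gd.fu.symm {s t : Cd} (h : G.fu s t) : G.fu t s := h.imp Eq.symm Or.symm

theorem Gd.ful.symm {s t : Cd} (h : G.ful s t) : G.ful t s := by
  rcases h with h | h | h
  · exact Or.inl h.symm
  · exact Or.inr (Or.inr ⟨h.2, h.1⟩)
  · exact Or.inr (Or.inl ⟨h.2, h.1⟩)

theorem Gd.may.symm {s t : Cd} (h : G.may s t) : G.may t s := by
  rcases h with h | h | h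
  · exact Or.inl h.symm
  · exact Or.inr (Or.inr ⟨h.2, h.1⟩)
  · exact Or.inr (Or.inl ⟨h.2, h.1⟩)

theorem Gd.val_ok {n k : ℕ} {a : Cd × ℕ × ℕ} (h : G.Val n k a) : G.okT k a.1 := by
  rcases h with h | h | h | h
  · exact Or.inl h.1
  · exact Or.inr (Or.inl h.1)
  · exact Or.inr (Or.inr (Or.inl h.1))
  · exact Or.inr (Or.inr (Or.inr h.1))

theorem Gd.Ok.val_R (hG : G.Ok) {n k : ℕ} {a : Cd × ℕ × ℕ} (h : G.Val n k a) (e : a.1 = G.R) :
    a = (G.R, 0, 0) := by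
  rcases h with h | h | h | h
  · exact Prod.ext h.1 (Prod.ext h.2.1 h.2.2)
  · exact absurd (e.symm.trans h.1) hG.RS
  · exact absurd (e.symm.trans h.1) hG.RQ
  · exact absurd e (hG.okn _ _ h.1).1

theorem Gd.Ok.val_Q (hG : G.Ok) {n k : ℕ} {a : Cd × ℕ × ℕ} (h : G.Val n k a) (e : a.1 = G.Q) :
    a.2.1 < n ∧ a.2.2 < 4 * k + 2 := by
  rcases h with h | h | h | h
  · exact absurd (h.1.symm.trans e) hG.RQ
  · exact absurd (h.1.symm.trans e) hG.SQ
  · exact h.2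
  · exact absurd e (hG.okn _ _ h.1).2.2

theorem Gd.Ok.nSQ (hG : G.Ok) : ¬ G.fu G.S G.Q := by
  rintro (h | h | h)
  · exact hG.SQ h
  · exact hG.RQ (hG.sN _ (Or.inl h)).symm
  · exact hG.RQ (hG.sN _ (Or.inr h)).symm

theorem Gd.Ok.nRQ' (hG : G.Ok) : ¬ G.fu G.R G.Q := by
  rintro (h | h | h)
  · exact hG.RQ h
  · exact hG.nRQ.1 h
  · exact hG.nRQ.2 h

variable {m : ℕ}

/-- no copy of `H` in the final graph -/
def FreeT (G : Gd Cd) (H : SimpleGraph (Fin m)) : Prop :=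
  ∀ (k : ℕ) (τ : Fin m → Cd), (∀ i, G.okT k (τ i)) → (∀ i j, i ≠ j → τ i = G.R → τ j ≠ G.R) →
    (∀ i j, i ≠ j → H.Adj i j → G.may (τ i) (τ j)) →
    (∀ i j, i ≠ j → G.ful (τ i) (τ j) → H.Adj i j) → False

theorem tg_fwd (hG : G.Ok) {H : SimpleGraph (Fin m)} (free : FreeT G H) {x : GK} {S : Finset ℕ}
    (hS : ∀ u ∈ S, u < x.1) (hc : ∀ v < x.1, ∃ u ∈ S, cov x u v = true) :
    ¬ Cpy H (G.Val x.1 x.2.2) (G.adg x)
      ((S.toList.map fun u => (G.S, u, 0)).map fun s => ((G.R, 0, 0), s)) := by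
  classical
  rintro ⟨f, hf, hf'⟩
  set S' : List (Cd × ℕ × ℕ) := S.toList.map fun u => (G.S, u, 0) with hS'
  set F := S'.map fun s => (((G.R, 0, 0) : Cd × ℕ × ℕ), s) with hF
  have sy : ∀ a b, G.adg x a b → G.adg x b a := fun _ _ h => h.symm
  let W : Cd × ℕ × ℕ → Prop := fun a => a = (G.R, 0, 0) ∨ a ∈ S'
  have hS1 : ∀ s ∈ S', s.1 = G.S ∧ s.2.2 = 0 ∧ G.Val x.1 x.2.2 s := fun s hs => by
    obtain ⟨v, hv, rfl⟩ := List.mem_map.1 hs
    exact ⟨rfl, rfl, Or.inr (Or.inl ⟨rfl, Or.inl ⟨hS v (Finset.mem_toList.1 hv), rfl⟩⟩)⟩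
  have vR : G.Val x.1 x.2.2 (G.R, 0, 0) := Or.inl ⟨rfl, rfl, rfl⟩
  have sg : ∀ a, ¬ W a → ¬ Tch F a := by
    rintro a h ⟨y, h' | h'⟩ <;> obtain ⟨s, hs, e⟩ := List.mem_map.1 h'
    · exact h (Or.inl (Prod.mk.inj e).1.symm)
    · exact h (Or.inr ((Prod.mk.inj e).2 ▸ hs))
  -- adjacency of the class of the root
  have QR : ∀ a b, W a → ¬ W b → G.Val x.1 x.2.2 b → (QA (G.adg x) F a b ↔ G.ful G.R b.1) := by
    intro a b ha hb vb
    have bR : b.1 ≠ G.R := fun e => hb (Or.inl (hG.val_R vb e))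
    rw [QA_single' (sg b hb)]
    constructor
    · rintro ⟨y, hy, -, -, -, h⟩
      have wy : W y := (star_E _ _ hy).elim (fun e => e ▸ ha) fun h => h.2
      rcases wy with rfl | wy
      · rcases h with (h | h | h) | (h | h | h)
        · exact absurd h.symm bR
        · exact Or.inl (Or.inr (Or.inl h))
        · exact absurd h.1 hG.RS
        · exact absurd h bR
        · exact Or.inl (Or.inr (Or.inr h))
        · exact absurd h.2.1 hG.RQ
      · have e := (hS1 y wy).1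
        rcases h with (h | h | h) | (h | h | h)
        · rw [← h, e]; exact Or.inl (Or.inr (Or.inl hG.rRS))
        · exact absurd (hG.sN _ (Or.inl (e ▸ h))) bR
        · exact Or.inr (Or.inl ⟨rfl, h.2.1⟩)
        · rw [h, e]; exact Or.inl (Or.inr (Or.inl hG.rRS))
        · exact absurd (hG.sN _ (Or.inr (e ▸ h))) bR
        · exact absurd (e.symm.trans h.2.1) hG.SQ
    · have via : (G.r G.R b.1 ∨ G.r b.1 G.R) → ∃ u, H22.CT.E F a u ∧ G.adg x u b := fun h =>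
        ⟨_, star_E' _ _ ha (Or.inl rfl), vR, vb, fun e => hb (Or.inl e.symm),
          h.imp (fun h => Or.inr (Or.inl h)) fun h => Or.inr (Or.inl h)⟩
      rintro ((h | h | h) | h | h)
      · exact absurd h.symm bR
      · exact via (Or.inl h)
      · exact via (Or.inr h)
      · obtain ⟨u, hu, hcv⟩ := hc b.2.1 (hG.val_Q vb h.2).1
        have hm : ((G.S, u, 0) : Cd × ℕ × ℕ) ∈ S' :=
          List.mem_map.2 ⟨u, Finset.mem_toList.2 hu, rfl⟩
        exact ⟨_, star_E' _ _ ha (Or.inr hm), (hS1 _ hm).2.2, vb, fun e => hb (e ▸ Or.inr hm),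
          Or.inl (Or.inr (Or.inr ⟨rfl, h.2, hcv⟩))⟩
      · exact absurd h.1 hG.RQ
  let τ : Fin m → Cd := fun i => if W (f i) then G.R else (f i).1
  have t1 : ∀ i, W (f i) → τ i = G.R := fun i h => if_pos h
  have t2 : ∀ i, ¬ W (f i) → τ i = (f i).1 := fun i h => if_neg h
  refine free x.2.2 τ (fun i => ?_) (fun i j hij hi hj => ?_) (fun i j hij hA => ?_)
    fun i j hij h => ?_
  · by_cases h : W (f i)
    · rw [t1 i h]; exact Or.inl rfl
    · rw [t2 i h]; exact Gd.val_ok (hf i)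
  · have key : ∀ i, τ i = G.R → W (f i) := fun i e => by
      by_contra h
      rw [t2 i h] at e
      exact h (Or.inl (hG.val_R (hf i) e))
    exact (hf' i j hij).1 (star_E' _ _ (key i hi) (key j hj))
  · have h := (hf' i j hij).2.2 hA
    by_cases h1 : W (f i) <;> by_cases h2 : W (f j)
    · exact absurd (star_E' _ _ h1 h2) (hf' i j hij).1
    · rw [t1 i h1, t2 j h2]; exact Or.inl ((QR _ _ h1 h2 (hf j)).1 h)
    · rw [t2 i h1, t1 j h2]; exact Gd.may.symm (Or.inl ((QR _ _ h2 h1 (hf i)).1 (h.symm sy)))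
    · rw [t2 i h1, t2 j h2]
      rw [QA_single (sg _ h1) (sg _ h2)] at h
      rcases h.2.2.2 with (h | h | h) | (h | h | h)
      · exact Or.inl (Or.inl (Or.inl h))
      · exact Or.inl (Or.inl (Or.inr (Or.inl h)))
      · exact Or.inr (Or.inl ⟨h.1, h.2.1⟩)
      · exact Or.inl (Or.inl (Or.inl h.symm))
      · exact Or.inl (Or.inl (Or.inr (Or.inr h)))
      · exact Or.inr (Or.inr ⟨h.2.1, h.1⟩)
  · rw [← (hf' i j hij).2]
    by_cases h1 : W (f i) <;> by_cases h2 : W (f j)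
    · exact absurd (star_E' _ _ h1 h2) (hf' i j hij).1
    · rw [t1 i h1, t2 j h2] at h; exact (QR _ _ h1 h2 (hf j)).2 h
    · rw [t2 i h1, t1 j h2] at h; exact ((QR _ _ h2 h1 (hf i)).2 h.symm).symm sy
    · rw [t2 i h1, t2 j h2] at h
      rw [QA_single (sg _ h1) (sg _ h2)]
      refine ⟨hf i, hf j, fun e => (hf' i j hij).1 (e ▸ E.refl _ _), ?_⟩
      rcases h with (h | h | h) | h | h
      · exact Or.inl (Or.inl h)
      · exact Or.inl (Or.inr (Or.inl h))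
      · exact Or.inr (Or.inr (Or.inl h))
      · exact absurd (Or.inl (hG.val_R (hf i) h.1)) h1
      · exact absurd (Or.inl (hG.val_R (hf j) h.2)) h2

/-- the condition for the other direction: every connected set `Z` of kinds that contains the
root and avoids a block of levels creates a copy of `H` -/
def AdvT (G : Gd Cd) (H : SimpleGraph (Fin m)) : Prop :=
  ∀ (k : ℕ) (Z : Cd → Prop), Z G.R → (∀ c, Z c → G.okT k c) →
    (∀ P : Cd → Prop, P G.R → (∀ c c', Z c → P c → Z c' →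
      (G.fu c c' ∨ (c = G.S ∧ c' = G.Q) ∨ (c = G.Q ∧ c' = G.S)) → P c') → ∀ c, Z c → P c) →
    (∃ b < 2 * k + 1, ∀ c, Z c → G.lv c / 2 ≠ b + 1) →
    ∃ (τ : Fin m → Cd) (β : Fin m → ℕ), (∀ i, G.okT k (τ i)) ∧ (∀ i, β i < 2) ∧
      (∀ i j, i ≠ j → τ i = G.R → τ j ≠ G.R) ∧
      (∀ i j, i ≠ j → τ i = τ j → β i ≠ β j) ∧
      (∀ i j, i ≠ j → τ i ≠ G.R → τ j ≠ G.R → (H.Adj i j ↔ G.fu (τ i) (τ j))) ∧
      ∀ i j, i ≠ j → τ i = G.R → (H.Adj i j ↔ ∃ c, Z c ∧ G.fu c (τ j))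

theorem tg_bwd (hG : G.Ok) {H : SimpleGraph (Fin m)} (adv : AdvT G H) {x : GK}
    {F : List ((Cd × ℕ × ℕ) × (Cd × ℕ × ℕ))} (h1 : ∀ p ∈ F, G.adg x p.1 p.2)
    (h2 : F.length ≤ x.2.2) (h3 : ¬ Cpy H (G.Val x.1 x.2.2) (G.adg x) F) :
    ∃ S : Finset ℕ, S.card ≤ x.2.2 ∧ (∀ u ∈ S, u < x.1) ∧ ∀ v < x.1, ∃ u ∈ S, cov x u v = true := by
  classical
  have sy : ∀ a b, G.adg x a b → G.adg x b a := fun _ _ h => h.symm
  set rt : Cd × ℕ × ℕ := (G.R, 0, 0) with hrt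
  have vR : G.Val x.1 x.2.2 rt := Or.inl ⟨rfl, rfl, rfl⟩
  have tv : ∀ a, Tch F a → G.Val x.1 x.2.2 a := fun a h => by
    obtain ⟨y, h | h⟩ := h
    · exact (h1 _ h).1
    · exact (h1 _ h).2.1
  have ev : ∀ a, H22.CT.E F rt a → G.Val x.1 x.2.2 a := fun a h => by
    by_cases e : rt = a
    · exact e ▸ vR
    · exact tv a (h.symm.tch' (Ne.symm e))
  refine ⟨(Finset.range x.1).filter fun u => H22.CT.E F rt (G.S, u, 0),
    (sets_card F rt (fun u => (G.S, u, 0)) (fun a b h => by simpa using h)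
      (by simp [hrt, hG.RS.symm]) _ fun u hu => (Finset.mem_filter.1 hu).2).trans h2,
    fun u hu => Finset.mem_range.1 (Finset.mem_filter.1 hu).1, fun v hv => ?_⟩
  by_contra hcv
  obtain ⟨j, hj, hj'⟩ := avoid F h2 fun t => t.2.2 / 2
  obtain ⟨b, hb, hb'⟩ := avoid F h2 fun t => if G.lv t.1 / 2 = 0 then 2 * x.2.2 + 1 else
    G.lv t.1 / 2 - 1
  let Z : Cd → Prop := fun c => ∃ y, H22.CT.E F rt (c, y)
  obtain ⟨τ, β, t0, t1, t2, t3, t4, t5⟩ := adv x.2.2 Z ⟨_, E.refl _ _⟩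
    (fun c ⟨y, hy⟩ => Gd.val_ok (ev _ hy))
    (fun P hP hs c ⟨y, hy⟩ => (hy.closed (P := fun w => H22.CT.E F rt w ∧ P w.1) ⟨E.refl _ _, hP⟩
      fun a b ⟨ea, pa⟩ hab => by
        have eb := ea.trans (E.one hab)
        refine ⟨eb, hs a.1 b.1 ⟨_, ea⟩ pa ⟨_, eb⟩ ?_⟩
        have had : G.adg x a b := hab.elim (h1 _) fun h => sy _ _ (h1 _ h)
        rcases had.2.2.2 with (h | h | h) | (h | h | h)
        · exact Or.inl (Or.inl h)
        · exact Or.inl (Or.inr (Or.inl h))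
        · exact Or.inr (Or.inl ⟨h.1, h.2.1⟩)
        · exact Or.inl (Or.inl h.symm)
        · exact Or.inl (Or.inr (Or.inr h))
        · exact Or.inr (Or.inr ⟨h.2.1, h.1⟩)).2)
    ⟨b, hb, fun c ⟨y, hy⟩ => by
      by_cases e : rt = (c, y)
      · have : c = G.R := (Prod.mk.inj e).1.symm
        rw [this, hG.lvR]; omega
      · have := hb' _ (hy.symm.tch' (Ne.symm e))
        intro h
        apply this
        simp only [h]
        rw [if_neg (by omega)]; omega⟩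
  -- fresh vertices
  let fr : Cd → ℕ → Cd × ℕ × ℕ := fun c i =>
    (c, (if c = G.S then x.1 else if c = G.Q then v else 0), 2 * j + i)
  have ut : ∀ c i, i < 2 → ¬ Tch F (fr c i) := fun c i hi h => by
    have := hj' _ h
    simp only [fr] at this
    omega
  have vf : ∀ c i, i < 2 → c ≠ G.R → G.okT x.2.2 c → G.Val x.1 x.2.2 (fr c i) :=
    fun c i hi hc hok => by
    rcases hok with h | h | h | h
    · exact absurd h hc
    · refine Or.inr (Or.inl ⟨h, Or.inr ⟨?_, ?_⟩⟩)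
      · simp [fr, h]
      · simp only [fr]; omega
    · refine Or.inr (Or.inr (Or.inl ⟨h, ?_, ?_⟩))
      · simp [fr, h, hG.SQ.symm, hv]
      · simp only [fr]; omega
    · have := hG.okn _ _ h
      refine Or.inr (Or.inr (Or.inr ⟨h, ?_, ?_⟩))
      · simp [fr, this.2.1, this.2.2]
      · simp only [fr]; omega
  have fne : ∀ c i, c ≠ G.R → rt ≠ fr c i := fun c i hc e => hc (Prod.mk.inj e).1.symm
  have Qr : ∀ c i, i < 2 → c ≠ G.R → G.okT x.2.2 c → (¬ H22.CT.E F rt (fr c i) ∧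
      (QA (G.adg x) F rt (fr c i) ↔ ∃ c', Z c' ∧ G.fu c' c)) := fun c i hi hc hok => by
    refine ⟨fun h => ut c i hi (h.symm.tch' (fne c i hc).symm), ?_⟩
    rw [QA_single' (ut c i hi)]
    constructor
    · rintro ⟨z, hz, -, -, -, h⟩
      rcases h with (h | h | h) | (h | h | h)
      · exact ⟨z.1, ⟨z.2, hz⟩, Or.inl h⟩
      · exact ⟨z.1, ⟨z.2, hz⟩, Or.inr (Or.inl h)⟩
      · exfalso
        have hv0 : c = G.Q := h.2.1
        have e2 : (fr c i).2.1 = v := by simp [fr, hv0, hG.SQ.symm]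
        have hcc := h.2.2
        rw [e2] at hcc
        have hz1 : z.2.1 < x.1 := by
          simp only [cov, Bool.and_eq_true, decide_eq_true_eq] at hcc
          exact hcc.1
        have hz2 : z.2.2 = 0 := by
          rcases ev z hz with h' | h' | h' | h'
          · exact h'.2.2
          · rcases h'.2 with h'' | h''
            · exact h''.2
            · omega
          · exact absurd (h.1.symm.trans h'.1) hG.SQ
          · exact absurd h.1 (hG.okn _ _ h'.1).2.1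
        refine hcv ⟨z.2.1, Finset.mem_filter.2 ⟨Finset.mem_range.2 hz1, ?_⟩, hcc⟩
        have : z = (G.S, z.2.1, 0) := Prod.ext h.1 (Prod.ext rfl hz2)
        exact this ▸ hz
      · exact ⟨z.1, ⟨z.2, hz⟩, Or.inl h.symm⟩
      · exact ⟨z.1, ⟨z.2, hz⟩, Or.inr (Or.inr h)⟩
      · exfalso
        have e2 : (fr c i).2.1 = x.1 := by
          have : c = G.S := h.1
          simp [fr, this]
        have hcc := h.2.2
        rw [e2] at hcc
        simp [cov] at hcc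
    · rintro ⟨c', ⟨y, hy⟩, h⟩
      refine ⟨(c', y), hy, ev _ hy, vf c i hi hc hok, fun e => ?_, ?_⟩
      · exact ut c i hi (e ▸ (e ▸ hy : H22.CT.E F rt (fr c i)).symm.tch' (fne c i hc).symm)
      · rcases h with h | h | h
        · exact Or.inl (Or.inl h)
        · exact Or.inl (Or.inr (Or.inl h))
        · exact Or.inr (Or.inr (Or.inl h))
  have Qf : ∀ c i c' i', i < 2 → i' < 2 → c ≠ G.R → c' ≠ G.R → G.okT x.2.2 c → G.okT x.2.2 c' →
      fr c i ≠ fr c' i' → (¬ H22.CT.E F (fr c i) (fr c' i') ∧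
        (QA (G.adg x) F (fr c i) (fr c' i') ↔ G.fu c c')) :=
    fun c i c' i' hi hi' hc hc' hok hok' hne => by
    refine ⟨fun h => ut c i hi (h.tch' hne), ?_⟩
    rw [QA_single (ut c i hi) (ut c' i' hi')]
    have ns : ∀ c i c' i', (fr c i).1 = G.S → (fr c' i').1 = G.Q →
        cov x (fr c i).2.1 (fr c' i').2.1 = true → False := fun c i c' i' e1 _ e3 => by
      have : c = G.S := e1
      have e2 : (fr c i).2.1 = x.1 := by simp [fr, this]
      rw [e2] at e3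
      simp [cov] at e3
    constructor
    · rintro ⟨-, -, -, (h | h | h) | (h | h | h)⟩
      · exact Or.inl h
      · exact Or.inr (Or.inl h)
      · exact (ns _ _ _ _ h.1 h.2.1 h.2.2).elim
      · exact Or.inl h.symm
      · exact Or.inr (Or.inr h)
      · exact (ns _ _ _ _ h.1 h.2.1 h.2.2).elim
    · intro h
      refine ⟨vf c i hi hc hok, vf c' i' hi' hc' hok', hne, ?_⟩
      rcases h with h | h | h
      · exact Or.inl (Or.inl h)
      · exact Or.inl (Or.inr (Or.inl h))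
      · exact Or.inr (Or.inr (Or.inl h))
  refine h3 ⟨fun i => if τ i = G.R then rt else fr (τ i) (β i), fun i => ?_, fun i i' hii => ?_⟩
  · by_cases e : τ i = G.R
    · simp only [e, if_true]; exact vR
    · simp only [e, if_false]; exact vf _ _ (t1 i) e (t0 i)
  · by_cases e1 : τ i = G.R <;> by_cases e2 : τ i' = G.R <;> simp only [e1, e2, if_true, if_false]
    · exact absurd e2 (t2 i i' hii e1)
    · have := Qr _ _ (t1 i') e2 (t0 i')
      exact ⟨this.1, this.2.trans (t5 i i' hii e1).symm⟩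
    · have := Qr _ _ (t1 i) e1 (t0 i)
      refine ⟨fun h => this.1 h.symm, ?_⟩
      rw [H.adj_comm, t5 i' i hii.symm e2, ← this.2]
      exact ⟨fun h => h.symm sy, fun h => h.symm sy⟩
    · have hne : fr (τ i) (β i) ≠ fr (τ i') (β i') := fun e => by
        have a := (Prod.mk.inj e).1
        have b := (Prod.mk.inj (Prod.mk.inj e).2).2
        exact t3 i i' hii a (by omega)
      have := Qf _ _ _ _ (t1 i) (t1 i') e1 e2 (t0 i) (t0 i') hne
      exact ⟨this.1, this.2.trans (t4 i i' hii e1 e2).symm⟩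

/-! ### the reduction -/

def okv (cR cS cQ : ℕ × ℕ × ℕ) (n : ℕ) (a : T5) : Bool :=
  (decide (a.1 = cR) && decide (a.2.1 = 0) && decide (a.2.2 = 0)) ||
  (decide (a.1 = cS) && ((decide (a.2.1 < n) && decide (a.2.2 = 0)) || decide (a.2.1 = n))) ||
  (decide (a.1 = cQ) && decide (a.2.1 < n)) ||
  (!decide (a.1 = cR) && !decide (a.1 = cS) && !decide (a.1 = cQ) && decide (a.2.1 = 0))

def Gd.Lg (G : Gd Cd) (x : GK) : List T5 :=
  ((G.ec G.R :: G.ec G.S :: G.ec G.Q :: G.Lc x.2.2).product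
    ((List.range (x.1 + 1)).product (List.range (4 * x.2.2 + 2)))).filter
      (okv (G.ec G.R) (G.ec G.S) (G.ec G.Q) x.1)

def Gd.rg (G : Gd Cd) (x : GK) (a b : T5) : Bool :=
  decide (a.1 = b.1) || G.rb a.1 b.1 ||
  (decide (a.1 = G.ec G.S) && decide (b.1 = G.ec G.Q) && cov x a.2.1 b.2.1)

def Gd.red (G : Gd Cd) (x : GK) : GK :=
  ((dd (G.Lg x)).length, tgE (dd (G.Lg x)) (G.rg x) ((0, 0, 0), 0, 0), x.2.2)

theorem tg_red (hG : G.Ok) (hm : 0 < m) {H : SimpleGraph (Fin m)} (free : FreeT G H)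
    (adv : AdvT G H) (x : GK) : DomSet x ↔ Con₁ H (G.red x) := by
  let en : Cd × ℕ × ℕ → T5 := fun a => (G.ec a.1, a.2)
  have enI : Injective en := fun a b h => Prod.ext (hG.ecI (Prod.mk.inj h).1) (Prod.mk.inj h).2
  rw [Gd.red, con_iff (G.Lg x) _ _ _ hm H en enI (G.Val x.1 x.2.2) (fun a => ?_) (G.Ad x)
    (fun a b _ _ => ?_), dom_iff]
  · constructor
    · rintro ⟨S, a1, a2, a3⟩
      refine ⟨(S.toList.map fun u => (G.S, u, 0)).map fun s => ((G.R, 0, 0), s), fun p hp => ?_,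
        by simpa using a1, tg_fwd hG free a2 a3⟩
      obtain ⟨s, hs, rfl⟩ := List.mem_map.1 hp
      obtain ⟨u, hu, rfl⟩ := List.mem_map.1 hs
      exact ⟨Or.inl ⟨rfl, rfl, rfl⟩,
        Or.inr (Or.inl ⟨rfl, Or.inl ⟨a2 u (Finset.mem_toList.1 hu), rfl⟩⟩),
        fun e => hG.RS (Prod.mk.inj e).1, Or.inl (Or.inr (Or.inl hG.rRS))⟩
    · rintro ⟨F, a1, a2, a3⟩
      exact tg_bwd hG adv a1 a2 a3
  · obtain ⟨c, v, j⟩ := a
    have h1 : (c, v, j) ∈ G.Lg x ↔ ((c = G.ec G.R ∨ c = G.ec G.S ∨ c = G.ec G.Q ∨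
        ∃ c', G.okc x.2.2 c' ∧ G.ec c' = c) ∧ v < x.1 + 1 ∧ j < 4 * x.2.2 + 2) ∧
        ((c = G.ec G.R ∧ v = 0 ∧ j = 0) ∨ (c = G.ec G.S ∧ ((v < x.1 ∧ j = 0) ∨ v = x.1)) ∨
          (c = G.ec G.Q ∧ v < x.1) ∨ (c ≠ G.ec G.R ∧ c ≠ G.ec G.S ∧ c ≠ G.ec G.Q ∧ v = 0)) := by
      simp only [Gd.Lg, okv, List.mem_filter, List.pair_mem_product, List.mem_cons, hG.Lcs,
        List.mem_range, Bool.or_eq_true, Bool.and_eq_true, decide_eq_true_eq,
        Bool.not_eq_true', decide_eq_false_iff_not, and_assoc, or_assoc, ne_eq]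
    rw [h1]
    have nS := hG.ecI.ne hG.RS
    have nQ := hG.ecI.ne hG.RQ
    have nSQ := hG.ecI.ne hG.SQ
    constructor
    · rintro ⟨⟨hc, hv, hj⟩, h | h | h | h⟩
      · exact ⟨(G.R, v, j), Or.inl ⟨rfl, h.2.1, h.2.2⟩, by simp [en, h.1]⟩
      · exact ⟨(G.S, v, j), Or.inr (Or.inl ⟨rfl, h.2.imp id fun h => ⟨h, hj⟩⟩), by simp [en, h.1]⟩
      · exact ⟨(G.Q, v, j), Or.inr (Or.inr (Or.inl ⟨rfl, h.2, hj⟩)), by simp [en, h.1]⟩
      · rcases hc with hc | hc | hc | ⟨c', hc, rfl⟩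
        · exact absurd hc h.1
        · exact absurd hc h.2.1
        · exact absurd hc h.2.2.1
        · exact ⟨(c', v, j), Or.inr (Or.inr (Or.inr ⟨hc, h.2.2.2, hj⟩)), rfl⟩
    · rintro ⟨⟨c', v', j'⟩, h, e⟩
      simp only [en, Prod.mk.injEq] at e
      obtain ⟨rfl, rfl, rfl⟩ := e
      rcases h with h | h | h | h
      · simp only at h
        exact ⟨⟨Or.inl (by rw [h.1]), by omega, by omega⟩, Or.inl ⟨by rw [h.1], h.2⟩⟩
      · simp only at h
        exact ⟨⟨Or.inr (Or.inl (by rw [h.1])), by omega, by omega⟩,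
          Or.inr (Or.inl ⟨by rw [h.1], h.2.imp id And.left⟩)⟩
      · simp only at h
        exact ⟨⟨Or.inr (Or.inr (Or.inl (by rw [h.1]))), by omega, by omega⟩,
          Or.inr (Or.inr (Or.inl ⟨by rw [h.1], h.2.1⟩))⟩
      · simp only at h
        have := hG.okn _ _ h.1
        exact ⟨⟨Or.inr (Or.inr (Or.inr ⟨c', h.1, rfl⟩)), by omega, by omega⟩,
          Or.inr (Or.inr (Or.inr ⟨hG.ecI.ne this.1, hG.ecI.ne this.2.1, hG.ecI.ne this.2.2,
            h.2.1⟩))⟩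
  · have key : ∀ a b, G.rg x (en a) (en b) = true ↔ G.rl x a b := fun a b => by
      simp only [Gd.rg, en, Gd.rl, Bool.or_eq_true, Bool.and_eq_true, decide_eq_true_eq,
        hG.rbs, hG.ecI.eq_iff, or_assoc, and_assoc]
    simp only [TA, Gd.Ad, enI.ne_iff, key]

theorem tg_pt (hG : G.Ok) : PT G.red := by
  have hr := hG.ptr
  have hL : PT fun x : GK => G.Lc x.2.2 := hG.ptL.comp (by fun_prop)
  have h : PT fun x => dd (G.Lg x) := by unfold Gd.Lg okv; fun_prop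
  have hr' : PT fun p : GK × T5 × T5 => G.rb p.2.1.1 p.2.2.1 :=
    hr.comp (g := fun p : GK × T5 × T5 => (p.2.1.1, p.2.2.1)) (by fun_prop)
  exact h.length.mk ((PT.tgE _ h (by unfold Gd.rg cov; fun_prop)).mk (by fun_prop))

theorem tg_hard (hG : G.Ok) (hm : 0 < m) {H : SimpleGraph (Fin m)} (free : FreeT G H)
    (adv : AdvT G H) : W2Hard (Con₁ H) :=
  freduces_of_ft (FT.of_pt (tg_pt hG)) fun x => ⟨tg_red hG hm free adv x, le_rfl⟩

end Pool.Agent.Helper89.HF
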