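import Pool.Agent.Helper89.HF.Bridge

/-! A gadget for `H`-free contraction: choosing a set costs two contractions, and contractions of
the root with dangerous vertices create copies of `H`. -/

namespace Pool.Agent.Helper89.HF

open Pool.Agent.H22.CT Pool.Agent.H38.NP Pool.Agent.H36.Par SimpleGraph Function

inductive VX (m : ℕ) : Type where
  | root : VX m
  | mid (t : ℕ) : VX m
  | set (t : ℕ) : VX m
  | cp (p : Fin m) (c : ℕ × ℕ) : VX m
  | att (d p : Fin m) (c : ℕ × ℕ) (i : ℕ) : VX m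
  deriving DecidableEq

structure Par (m : ℕ) where
  H : SimpleGraph (Fin m)
  u : Fin m
  q : Fin m
  x : Fin m
  N1 : Fin m → Prop
  N2 : Fin m → Prop
  X : Fin m → Fin m → Prop
  Dg : Fin m → Prop

variable {m : ℕ}

def rel (P : Par m) (f : Prop) (inc : ℕ → ℕ × ℕ → Prop) : VX m → VX m → Prop
  | .root, .mid _ => True
  | .root, .cp p _ => P.H.Adj P.u p ∨ (f ∧ p = P.q)
  | .root, .att _ p _ _ => P.N1 p
  | .mid t, .set t' => t = t'
  | .set t, .cp p c => p = P.q ∧ inc t c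
  | .cp p c, .cp p' c' => (c = c' ∧ P.H.Adj p p') ∨ (c ≠ c' ∧ P.X p p')
  | .cp p c, .att d p' c' _ => c = c' ∧ p = d ∧ P.N2 p'
  | .att d p c i, .att d' p' c' i' => d = d' ∧ c = c' ∧ i = i' ∧ P.H.Adj p p'
  | _, _ => False

def AdV (P : Par m) (f : Prop) (inc : ℕ → ℕ × ℕ → Prop) (a b : VX m) : Prop :=
  a ≠ b ∧ (rel P f inc a b ∨ rel P f inc b a)

theorem AdV.symm {P : Par m} {f : Prop} {inc : ℕ → ℕ × ℕ → Prop} {a b : VX m}
    (h : AdV P f inc a b) : AdV P f inc b a := ⟨h.1.symm, h.2.symm⟩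

def Val (P : Par m) (n M : ℕ) : VX m → Prop
  | .root => True
  | .mid t => t < n
  | .set t => t < n
  | .cp p c => p ≠ P.u ∧ c.1 < n ∧ c.2 < M
  | .att d p c i => P.Dg d ∧ p ≠ P.x ∧ c.1 < n ∧ c.2 < M ∧ i < M

def Good (P : Par m) : VX m → Prop
  | .root => True
  | .mid _ => True
  | .set _ => True
  | .cp p _ => p ≠ P.u
  | .att d p _ _ => P.Dg d ∧ p ≠ P.x

def OKU (P : Par m) : Prop := ∀ (inc : ℕ → ℕ × ℕ → Prop) (f : Fin m → VX m), Injective f →
  (∀ i, Good P (f i)) → (∀ i j, i ≠ j → (AdV P True inc (f i) (f j) ↔ P.H.Adj i j)) → False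

structure Fit (P : Par m) : Prop where
  xs : ∀ p p', P.X p p' → P.X p' p
  ns : ∀ p, P.H.Adj P.x p ↔ P.N1 p ∨ P.N2 p
  dg : ∀ p p', P.X p p' → ¬ P.H.Adj P.u p' → P.Dg p
  dq : P.Dg P.q
  qu : P.q ≠ P.u

def WW (S : Finset ℕ) (a : VX m) : Prop := a = .root ∨ ∃ s ∈ S, a = .mid s ∨ a = .set s

noncomputable def F0 (S : Finset ℕ) : List (VX m × VX m) :=
  S.toList.flatMap fun s => [(.root, .mid s), (.mid s, .set s)]

theorem F0_len (S : Finset ℕ) : (F0 (m := m) S).length = 2 * S.card := by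
  simp [F0, List.length_flatMap, mul_comm]

theorem mem_F0 {S : Finset ℕ} {p : VX m × VX m} :
    p ∈ F0 S ↔ ∃ s ∈ S, p = (.root, .mid s) ∨ p = (.mid s, .set s) := by
  simp [F0]

theorem tch_F0 {S : Finset ℕ} {a : VX m} (h : Tch (F0 S) a) : WW S a := by
  obtain ⟨y, h | h⟩ := h <;> obtain ⟨s, hs, e | e⟩ := mem_F0.1 h <;>
    simp only [Prod.mk.injEq] at e
  · exact Or.inl e.1
  · exact Or.inr ⟨s, hs, Or.inl e.1⟩
  · exact Or.inr ⟨s, hs, Or.inl e.2⟩
  · exact Or.inr ⟨s, hs, Or.inr e.2⟩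

theorem E_F0 {S : Finset ℕ} {a b : VX m} (ha : WW S a) (hb : WW S b) : H22.CT.E (F0 S) a b := by
  have h1 : ∀ t : VX m, WW S t → H22.CT.E (F0 S) .root t := by
    rintro t (rfl | ⟨s, hs, rfl | rfl⟩)
    · exact E.refl _ _
    · exact E.one (Or.inl (mem_F0.2 ⟨s, hs, Or.inl rfl⟩))
    · exact (E.one (Or.inl (mem_F0.2 ⟨s, hs, Or.inl rfl⟩))).trans
        (E.one (Or.inl (mem_F0.2 ⟨s, hs, Or.inr rfl⟩)))
  exact (h1 a ha).symm.trans (h1 b hb)

theorem E_F0' {S : Finset ℕ} {a b : VX m} (h : H22.CT.E (F0 S) a b) (hne : a ≠ b) :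
    WW S a ∧ WW S b := ⟨tch_F0 (h.tch' hne), tch_F0 (h.symm.tch' hne.symm)⟩

def incx (x : GK) (t : ℕ) (c : ℕ × ℕ) : Prop := cov x t c.1 = true

/-- The graph of the instance. -/
def adx (P : Par m) (x : GK) (a b : VX m) : Prop :=
  Val P x.1 (4 * x.2.2 + 1) a ∧ Val P x.1 (4 * x.2.2 + 1) b ∧ AdV P False (incx x) a b

theorem adx_symm {P : Par m} {x : GK} {a b : VX m} (h : adx P x a b) : adx P x b a :=
  ⟨h.2.1, h.1, h.2.2.symm⟩

theorem good_of_val {P : Par m} {n M : ℕ} {a : VX m} (h : Val P n M a) : Good P a := by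
  cases a <;> simp only [Val, Good] at h ⊢ <;> tauto

/-- a class that contains the root, in the solution that belongs to a dominating set -/
theorem QA_root {P : Par m} (hF : Fit P) {x : GK} {S : Finset ℕ} (hS : ∀ u ∈ S, u < x.1)
    (hc : ∀ v < x.1, ∃ u ∈ S, cov x u v = true) {a b : VX m} (ha : WW S a)
    (hb : ¬ WW S b) (vb : Val P x.1 (4 * x.2.2 + 1) b) :
    QA (adx P x) (F0 S) a b ↔ AdV P True (incx x) .root b := by
  rw [QA_single' (fun h => hb (tch_F0 h))]
  have hbr : b ≠ .root := fun e => hb (Or.inl e)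
  have wr : H22.CT.E (F0 S) a (.root : VX m) := E_F0 ha (Or.inl rfl)
  constructor
  · rintro ⟨y, hy, -, -, hne, h⟩
    have wy : WW S y := by
      by_cases e : a = y
      · exact e ▸ ha
      · exact (E_F0' hy e).2
    refine ⟨hbr.symm, ?_⟩
    obtain rfl | ⟨s, hs, rfl | rfl⟩ := wy
    · cases b <;> simp_all [rel]
    · cases b with
      | set t =>
        simp only [rel, or_false] at h
        exact absurd (Or.inr ⟨s, hs, Or.inr (by rw [h])⟩) hb
      | _ => simp_all [rel]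
    · cases b <;> simp_all [rel]
  · rintro ⟨-, h⟩
    cases b with
    | root => exact absurd rfl hbr
    | mid t => exact ⟨.root, wr, trivial, vb, by simp, Or.inl (by simp [rel])⟩
    | set t => simp [rel] at h
    | cp p c =>
      simp only [rel, true_and, or_false] at h
      rcases h with h | h
      · exact ⟨.root, wr, trivial, vb, by simp, Or.inl (Or.inl h)⟩
      · obtain ⟨s, hs, hcv⟩ := hc c.1 vb.2.1
        exact ⟨.set s, E_F0 ha (Or.inr ⟨s, hs, Or.inr rfl⟩), hS s hs, vb, by simp,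
          Or.inl ⟨h, hcv⟩⟩
    | att d p c i =>
      simp only [rel, or_false] at h
      exact ⟨.root, wr, trivial, vb, by simp, Or.inl h⟩

theorem AdV_ne_root {P : Par m} {inc : ℕ → ℕ × ℕ → Prop} {a b : VX m} (ha : a ≠ .root)
    (hb : b ≠ .root) : AdV P False inc a b ↔ AdV P True inc a b := by
  cases a <;> cases b <;> simp_all [AdV, rel]

theorem U_fwd {P : Par m} (hF : Fit P) (ok : OKU P) {x : GK} {S : Finset ℕ}
    (hS : ∀ u ∈ S, u < x.1) (hc : ∀ v < x.1, ∃ u ∈ S, cov x u v = true) :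
    ¬ Cpy P.H (Val P x.1 (4 * x.2.2 + 1)) (adx P x) (F0 S) := by
  classical
  rintro ⟨f, hf, hf'⟩
  let g : Fin m → VX m := fun i => if WW S (f i) then .root else f i
  have g1 : ∀ i, WW S (f i) → g i = .root := fun i h => by simp only [g, h, if_true]
  have g2 : ∀ i, ¬ WW S (f i) → g i = f i := fun i h => by simp only [g, h, if_false]
  refine ok (incx x) g (fun i j e => ?_) (fun i => ?_) (fun i j hij => ?_)
  · by_contra hij
    have := (hf' i j hij).1
    by_cases h1 : WW S (f i) <;> by_cases h2 : WW S (f j)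
    · exact this (E_F0 h1 h2)
    · rw [g1 i h1, g2 j h2] at e; exact h2 (Or.inl e.symm)
    · rw [g2 i h1, g1 j h2] at e; exact h1 (Or.inl e)
    · rw [g2 i h1, g2 j h2] at e; exact this (e ▸ E.refl _ _)
  · by_cases h1 : WW S (f i)
    · rw [g1 i h1]; trivial
    · rw [g2 i h1]; exact good_of_val (hf i)
  · obtain ⟨hne, h⟩ := hf' i j hij
    rw [← h]
    by_cases h1 : WW S (f i) <;> by_cases h2 : WW S (f j)
    · exact absurd (E_F0 h1 h2) hne
    · rw [g1 i h1, g2 j h2, QA_root hF hS hc h1 h2 (hf j)]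
    · rw [g2 i h1, g1 j h2]
      have := QA_root hF hS hc h2 h1 (hf i)
      exact ⟨fun q => (this.2 q.symm).symm fun _ _ => adx_symm,
        fun q => (this.1 (q.symm fun _ _ => adx_symm)).symm⟩
    · rw [g2 i h1, g2 j h2, QA_single (fun h => h1 (tch_F0 h)) (fun h => h2 (tch_F0 h)), adx,
        AdV_ne_root (fun e => h1 (Or.inl e)) (fun e => h2 (Or.inl e))]
      exact ⟨fun q => ⟨hf i, hf j, q⟩, fun q => q.2.2⟩

end Pool.Agent.Helper89.HF
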