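import Pool.Agent.Helper89.HF.U

/-! The gadget: from a solution to a dominating set, and the reduction. -/

namespace Pool.Agent.Helper89.HF

open Pool.Agent.H22.CT Pool.Agent.H38.NP Pool.Agent.H36.Par SimpleGraph Function

variable {m : ℕ}

theorem adx_ne {P : Par m} {x : GK} {a b : VX m} (h : adx P x a b) : a ≠ b := h.2.2.1

theorem tch_val {P : Par m} {x : GK} {F : List (VX m × VX m)}
    (h1 : ∀ p ∈ F, adx P x p.1 p.2) {a : VX m} (h : Tch F a) :
    Val P x.1 (4 * x.2.2 + 1) a := by
  obtain ⟨y, h | h⟩ := h
  · exact (h1 _ h).1
  · exact (h1 _ h).2.1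

theorem U_bwd {P : Par m} (hF : Fit P) {x : GK} {F : List (VX m × VX m)}
    (h1 : ∀ p ∈ F, adx P x p.1 p.2) (h2 : F.length ≤ 2 * x.2.2)
    (h3 : ¬ Cpy P.H (Val P x.1 (4 * x.2.2 + 1)) (adx P x) F) :
    ∃ S : Finset ℕ, S.card ≤ x.2.2 ∧ (∀ u ∈ S, u < x.1) ∧ ∀ v < x.1, ∃ u ∈ S, cov x u v = true := by
  classical
  set M := 4 * x.2.2 + 1 with hM
  have sy : ∀ a b, adx P x a b → adx P x b a := fun _ _ => adx_symm
  -- claim A
  have clA : ∀ d c, P.Dg d → ¬ H22.CT.E F (.root : VX m) (.cp d c) := by
    intro d c hd he
    have vc : Val P x.1 M (.cp d c) := tch_val h1 (he.symm.tch' (by simp))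
    obtain ⟨j, hj, hj'⟩ := avoid F h2 fun t : VX m => match t with
      | .att _ _ _ i => i
      | _ => M
    have ut : ∀ p, ¬ Tch F (.att d p c j) := fun p h => hj' _ h rfl
    refine h3 ⟨fun p => if p = P.x then .root else .att d p c j, fun p => ?_, fun p p' hp => ?_⟩
    · by_cases e : p = P.x
      · simp only [e, if_true]; trivial
      · simp only [e, if_false]; exact ⟨hd, e, vc.2.1, vc.2.2, by omega⟩
    · have key : ∀ p, p ≠ P.x → (¬ H22.CT.E F (.root : VX m) (.att d p c j) ∧
          (QA (adx P x) F (.root : VX m) (.att d p c j) ↔ P.H.Adj P.x p)) := fun p e => by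
        have vp : Val P x.1 M (.att d p c j) := ⟨hd, e, vc.2.1, vc.2.2, by omega⟩
        refine ⟨fun h => ut p (h.symm.tch' (by simp)), ?_⟩
        rw [QA_single' (ut p), hF.ns]
        constructor
        · rintro ⟨z, hz, -, -, -, h⟩
          cases z with
          | root => simp only [rel, or_false] at h; exact Or.inl h
          | mid t => simp [rel] at h
          | set t => simp [rel] at h
          | cp p' c' => simp only [rel, or_false] at h; exact Or.inr h.2.2
          | att d' p' c' i' =>
            exfalso
            have : i' = j ∧ d' = d ∧ c' = c := by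
              simp only [rel] at h
              rcases h with h | h
              · exact ⟨h.2.2.1, h.1, h.2.1⟩
              · exact ⟨h.2.2.1.symm, h.1.symm, h.2.1.symm⟩
            obtain ⟨rfl, rfl, rfl⟩ := this
            exact ut p' (hz.symm.tch' (by simp))
        · rintro (h | h)
          · exact ⟨.root, E.refl _ _, trivial, vp, by simp, Or.inl h⟩
          · exact ⟨.cp d c, he, vc, vp, by simp, Or.inl ⟨rfl, rfl, h⟩⟩
      by_cases e1 : p = P.x <;> by_cases e2 : p' = P.x <;> simp only [e1, e2, if_true, if_false]
      · exact absurd (e1.trans e2.symm) hp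
      · exact key p' e2
      · have := key p e1
        exact ⟨fun h => this.1 h.symm, fun h => (this.2.1 (h.symm sy)).symm,
          fun h => (this.2.2 h.symm).symm sy⟩
      · have hne : (.att d p c j : VX m) ≠ .att d p' c j := by simp [hp]
        refine ⟨fun h => ut p (h.tch' hne), ?_⟩
        rw [QA_single (ut _) (ut _)]
        constructor
        · rintro ⟨-, -, -, h | h⟩
          · exact h.2.2.2
          · exact h.2.2.2.symm
        · intro h
          exact ⟨⟨hd, e1, vc.2.1, vc.2.2, by omega⟩, ⟨hd, e2, vc.2.1, vc.2.2, by omega⟩, hne,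
            Or.inl ⟨rfl, rfl, rfl, h⟩⟩
  have clB : ∀ t, H22.CT.E F (.root : VX m) (.set t) → H22.CT.E F (.root : VX m) (.mid t) := by
    intro t he
    refine (he.closed (P := fun w => H22.CT.E F (.root : VX m) w ∧
      (w = .set t → H22.CT.E F (.root : VX m) (.mid t))) ⟨E.refl _ _, by simp⟩ ?_).2 rfl
    rintro a b ⟨ha, -⟩ hab
    refine ⟨ha.trans (E.one hab), ?_⟩
    rintro rfl
    have had : adx P x a (.set t) := hab.elim (h1 _) fun h => sy _ _ (h1 _ h)
    cases a with
    | root => simp [adx, AdV, rel] at had
    | mid t' =>
      have : t' = t := by simpa [rel] using had.2.2.2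
      exact this ▸ ha
    | set t' => simp [adx, AdV, rel] at had
    | cp p c =>
      have : p = P.q := by
        have := had.2.2.2
        simp only [rel, false_or] at this
        exact this.1
      exact absurd ha (clA p c (this ▸ hF.dq))
    | att d p c i => simp [adx, AdV, rel] at had
  obtain ⟨j, hj, hj'⟩ := avoid F h2 fun t : VX m => match t with
    | .cp _ c => c.2
    | .att _ _ c _ => c.2
    | _ => M
  refine ⟨(Finset.range x.1).filter fun t => H22.CT.E F (.root : VX m) (.set t), ?_,
    fun t ht => Finset.mem_range.1 (Finset.mem_filter.1 ht).1, fun v hv => ?_⟩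
  · set S := (Finset.range x.1).filter fun t => H22.CT.E F (.root : VX m) (.set t)
    have := class_card F {.root} (insert .root (S.image VX.set ∪ S.image VX.mid)) (by
      intro a ha
      refine ⟨_, Finset.mem_singleton_self _, ?_⟩
      rcases Finset.mem_insert.1 ha with rfl | ha
      · exact E.refl _ _
      rcases Finset.mem_union.1 ha with ha | ha <;> obtain ⟨t, ht, rfl⟩ := Finset.mem_image.1 ha
      · exact (Finset.mem_filter.1 ht).2
      · exact clB t (Finset.mem_filter.1 ht).2)
    rw [Finset.card_insert_of_notMem (by simp), Finset.card_union_of_disjoint (by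
        rw [Finset.disjoint_left]; simp),
      Finset.card_image_of_injective _ (fun a b h => by simpa using h),
      Finset.card_image_of_injective _ (fun a b h => by simpa using h),
      Finset.card_singleton] at this
    omega
  · by_contra hc
    have ut : ∀ p, ¬ Tch F (.cp p (v, j)) := fun p h => hj' _ h rfl
    have ut' : ∀ d p i, ¬ Tch F (.att d p (v, j) i) := fun d p i h => hj' _ h rfl
    have key : ∀ p, p ≠ P.u → (¬ H22.CT.E F (.root : VX m) (.cp p (v, j)) ∧
        (QA (adx P x) F (.root : VX m) (.cp p (v, j)) ↔ P.H.Adj P.u p)) := fun p e => by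
      have vp : Val P x.1 M (.cp p (v, j)) := ⟨e, hv, by simpa [hM] using by omega⟩
      refine ⟨fun h => ut p (h.symm.tch' (by simp)), ?_⟩
      rw [QA_single' (ut p)]
      constructor
      · rintro ⟨z, hz, vz, -, -, h⟩
        cases z with
        | root => simpa [rel] using h
        | mid t => simp [rel] at h
        | set t =>
          simp only [rel, or_false] at h
          exact absurd ⟨t, Finset.mem_filter.2 ⟨Finset.mem_range.2 vz, hz⟩, h.2⟩ hc
        | cp p' c' =>
          by_contra hn
          have : c' ≠ (v, j) := fun e => by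
            subst e
            exact ut p' (hz.symm.tch' (by simp))
          have hX : P.X p' p := by
            simp only [rel] at h
            rcases h with (h | h) | (h | h)
            · exact absurd h.1 this
            · exact h.2
            · exact absurd h.1.symm this
            · exact hF.xs _ _ h.2
          exact clA p' c' (hF.dg _ _ hX hn) hz
        | att d p' c' i =>
          simp only [rel, false_or] at h
          obtain ⟨rfl, -⟩ := h
          exact absurd (hz.symm.tch' (by simp)) (ut' d p' i)
      · intro h
        exact ⟨.root, E.refl _ _, trivial, vp, by simp, Or.inl (Or.inl h)⟩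
    refine h3 ⟨fun p => if p = P.u then .root else .cp p (v, j), fun p => ?_, fun p p' hp => ?_⟩
    · by_cases e : p = P.u
      · simp only [e, if_true]; trivial
      · simp only [e, if_false]; exact ⟨e, hv, by simpa [hM] using by omega⟩
    · by_cases e1 : p = P.u <;> by_cases e2 : p' = P.u <;> simp only [e1, e2, if_true, if_false]
      · exact absurd (e1.trans e2.symm) hp
      · exact key p' e2
      · have := key p e1
        exact ⟨fun h => this.1 h.symm, fun h => (this.2.1 (h.symm sy)).symm,
          fun h => (this.2.2 h.symm).symm sy⟩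
      · have hne : (.cp p (v, j) : VX m) ≠ .cp p' (v, j) := by simp [hp]
        refine ⟨fun h => ut p (h.tch' hne), ?_⟩
        rw [QA_single (ut _) (ut _)]
        constructor
        · rintro ⟨-, -, -, h | h⟩
          · simp only [rel] at h
            rcases h with h | h
            · exact h.2
            · exact absurd rfl h.1
          · simp only [rel] at h
            rcases h with h | h
            · exact h.2.symm
            · exact absurd rfl h.1
        · intro h
          exact ⟨⟨e1, hv, by simpa [hM] using by omega⟩, ⟨e2, hv, by simpa [hM] using by omega⟩,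
            hne, Or.inl (Or.inl ⟨rfl, h⟩)⟩

end Pool.Agent.Helper89.HF
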