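import Pool.Agent.Helper89.HF.U2

/-! The reduction to `H`-free contraction that belongs to the gadget. -/

namespace Pool.Agent.Helper89.HF

open Pool.Agent.H22.CT Pool.Agent.H38.NP Pool.Agent.H36.Par SimpleGraph Function

variable {m : ℕ}

abbrev T6 := ℕ × ℕ × ℕ × (ℕ × ℕ) × ℕ

def en : VX m → T6
  | .root => (0, 0, 0, (0, 0), 0)
  | .mid t => (1, 0, 0, (t, 0), 0)
  | .set t => (2, 0, 0, (t, 0), 0)
  | .cp p c => (3, 0, p, c, 0)
  | .att d p c i => (4, d, p, c, i)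

theorem en_inj : Injective (en (m := m)) := by
  intro a b h
  cases a <;> cases b <;> simp_all [en, Prod.ext_iff, Fin.ext_iff]

def ok6 (u x0 : ℕ) (Dl : List ℕ) (n : ℕ) (a : T6) : Bool :=
  (decide (a.1 = 0) && decide (a.2.1 = 0) && decide (a.2.2.1 = 0) && decide (a.2.2.2.1.1 = 0) &&
    decide (a.2.2.2.1.2 = 0) && decide (a.2.2.2.2 = 0)) ||
  ((decide (a.1 = 1) || decide (a.1 = 2)) && decide (a.2.1 = 0) && decide (a.2.2.1 = 0) &&
    decide (a.2.2.2.1.1 < n) && decide (a.2.2.2.1.2 = 0) && decide (a.2.2.2.2 = 0)) ||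
  (decide (a.1 = 3) && decide (a.2.1 = 0) && !decide (a.2.2.1 = u) &&
    decide (a.2.2.2.1.1 < n) && decide (a.2.2.2.2 = 0)) ||
  (decide (a.1 = 4) && decide (a.2.1 ∈ Dl) && !decide (a.2.2.1 = x0) &&
    decide (a.2.2.2.1.1 < n))

def L6 (m u x0 : ℕ) (Dl : List ℕ) (x : GK) : List T6 :=
  ((List.range 5).product ((List.range m).product ((List.range m).product
    (((List.range (x.1 + 1)).product (List.range (4 * x.2.2 + 1))).product
      (List.range (4 * x.2.2 + 1)))))).filter (ok6 u x0 Dl x.1)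

theorem mem_L6 {u x0 : ℕ} {Dl : List ℕ} {x : GK} {a : T6} : a ∈ L6 m u x0 Dl x ↔
    (a.1 < 5 ∧ a.2.1 < m ∧ a.2.2.1 < m ∧ a.2.2.2.1.1 < x.1 + 1 ∧ a.2.2.2.1.2 < 4 * x.2.2 + 1 ∧
      a.2.2.2.2 < 4 * x.2.2 + 1) ∧ ok6 u x0 Dl x.1 a = true := by
  obtain ⟨t, d, p, ⟨v, j⟩, i⟩ := a
  simp [L6, and_assoc]

def r6 (Lh Xl : Ed) (N1l N2l : List ℕ) (u q : ℕ) (x : GK) (a b : T6) : Bool :=
  (decide (a.1 = 0) && decide (b.1 = 1)) ||
  (decide (a.1 = 0) && decide (b.1 = 3) && decide ((u, b.2.2.1) ∈ Lh)) ||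
  (decide (a.1 = 0) && decide (b.1 = 4) && decide (b.2.2.1 ∈ N1l)) ||
  (decide (a.1 = 1) && decide (b.1 = 2) && decide (a.2.2.2.1.1 = b.2.2.2.1.1)) ||
  (decide (a.1 = 2) && decide (b.1 = 3) && decide (b.2.2.1 = q) &&
    cov x a.2.2.2.1.1 b.2.2.2.1.1) ||
  (decide (a.1 = 3) && decide (b.1 = 3) && decide (a.2.2.2.1 = b.2.2.2.1) &&
    decide ((a.2.2.1, b.2.2.1) ∈ Lh)) ||
  (decide (a.1 = 3) && decide (b.1 = 3) && !decide (a.2.2.2.1 = b.2.2.2.1) &&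
    decide ((a.2.2.1, b.2.2.1) ∈ Xl)) ||
  (decide (a.1 = 3) && decide (b.1 = 4) && decide (a.2.2.2.1 = b.2.2.2.1) &&
    decide (a.2.2.1 = b.2.1) && decide (b.2.2.1 ∈ N2l)) ||
  (decide (a.1 = 4) && decide (b.1 = 4) && decide (a.2.1 = b.2.1) &&
    decide (a.2.2.2.1 = b.2.2.2.1) && decide (a.2.2.2.2 = b.2.2.2.2) &&
    decide ((a.2.2.1, b.2.2.1) ∈ Lh))

def red6 (m : ℕ) (Lh Xl : Ed) (N1l N2l Dl : List ℕ) (u q x0 : ℕ) (x : GK) : GK :=
  ((dd (L6 m u x0 Dl x)).length,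
    tgE (dd (L6 m u x0 Dl x)) (r6 Lh Xl N1l N2l u q x) (0, 0, 0, (0, 0), 0), 2 * x.2.2)

theorem r6_iff {P : Par m} {Lh Xl : Ed} {N1l N2l : List ℕ}
    (hL : ∀ i j : Fin m, (i.val, j.val) ∈ Lh ↔ P.H.Adj i j)
    (hX : ∀ i j : Fin m, (i.val, j.val) ∈ Xl ↔ P.X i j)
    (h1 : ∀ i : Fin m, i.val ∈ N1l ↔ P.N1 i) (h2 : ∀ i : Fin m, i.val ∈ N2l ↔ P.N2 i)
    (x : GK) (a b : VX m) : r6 Lh Xl N1l N2l P.u P.q x (en a) (en b) = true ↔
      rel P False (incx x) a b := by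
  simp only [r6, Bool.or_eq_true, Bool.and_eq_true, decide_eq_true_eq, Bool.not_eq_true',
    decide_eq_false_iff_not]
  cases a <;> cases b <;>
    simp [en, rel, hL, hX, h1, h2, incx, Fin.ext_iff, and_assoc]

theorem U_red {P : Par m} (hF : Fit P) (ok : OKU P) {Lh Xl : Ed} {N1l N2l Dl : List ℕ}
    (hL : ∀ i j : Fin m, (i.val, j.val) ∈ Lh ↔ P.H.Adj i j)
    (hX : ∀ i j : Fin m, (i.val, j.val) ∈ Xl ↔ P.X i j)
    (h1 : ∀ i : Fin m, i.val ∈ N1l ↔ P.N1 i) (h2 : ∀ i : Fin m, i.val ∈ N2l ↔ P.N2 i)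
    (hD : ∀ i : Fin m, i.val ∈ Dl ↔ P.Dg i) (x : GK) :
    DomSet x ↔ Con₁ P.H (red6 m Lh Xl N1l N2l Dl P.u P.q P.x x) := by
  have hm : 0 < m := P.u.pos
  rw [red6, con_iff (L6 m P.u P.x Dl x) _ _ _ hm P.H en en_inj (Val P x.1 (4 * x.2.2 + 1))
    (fun a => ?_) (AdV P False (incx x)) (fun v v' _ _ => ?_), dom_iff]
  · constructor
    · rintro ⟨S, a1, a2, a3⟩
      refine ⟨F0 S, fun p hp => ?_, by rw [F0_len]; omega, U_fwd hF ok a2 a3⟩
      obtain ⟨s, hs, rfl | rfl⟩ := mem_F0.1 hp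
      · exact ⟨trivial, a2 s hs, by simp, Or.inl trivial⟩
      · exact ⟨a2 s hs, a2 s hs, by simp, Or.inl rfl⟩
    · rintro ⟨F, a1, a2, a3⟩
      exact U_bwd hF a1 a2 a3
  · rw [mem_L6]
    constructor
    · obtain ⟨t, d, p, ⟨v, j⟩, i⟩ := a
      rintro ⟨⟨b1, b2, b3, b4, b5, b6⟩, b7⟩
      simp only at b1 b2 b3 b4 b5 b6
      interval_cases t <;> simp only [ok6, decide_true, decide_false, Bool.true_and,
        Bool.false_and, Bool.or_false, Bool.false_or, Bool.and_eq_true, decide_eq_true_eq,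
        Bool.not_eq_true', decide_eq_false_iff_not, Bool.or_true, zero_ne_one,
        OfNat.ofNat_ne_zero, OfNat.zero_ne_ofNat, Nat.reduceEqDiff, OfNat.ofNat_ne_one,
        OfNat.one_ne_ofNat, one_ne_zero, and_assoc] at b7
      · obtain ⟨rfl, rfl, rfl, rfl, rfl⟩ := b7
        exact ⟨.root, trivial, rfl⟩
      · obtain ⟨rfl, rfl, h, rfl, rfl⟩ := b7
        exact ⟨.mid v, h, rfl⟩
      · obtain ⟨rfl, rfl, h, rfl, rfl⟩ := b7
        exact ⟨.set v, h, rfl⟩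
      · obtain ⟨rfl, h, h', rfl⟩ := b7
        exact ⟨.cp ⟨p, b3⟩ (v, j), ⟨fun e => h (congrArg Fin.val e), h', b5⟩, rfl⟩
      · obtain ⟨h, h', h''⟩ := b7
        exact ⟨.att ⟨d, b2⟩ ⟨p, b3⟩ (v, j) i, ⟨(hD _).1 h, fun e => h' (congrArg Fin.val e),
          h'', b5, b6⟩, rfl⟩
    · rintro ⟨v, hv, rfl⟩
      cases v with
      | root => simp [en, ok6, hm]
      | mid t => simp only [Val] at hv; simp [en, ok6, hm, hv]; omega
      | set t => simp only [Val] at hv; simp [en, ok6, hm, hv]; omega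
      | cp p c =>
        simp only [Val] at hv
        simp only [en, ok6]
        simp [hm, Fin.val_inj, hv.1, hv.2.1, hv.2.2, p.2]
        omega
      | att d p c i =>
        simp only [Val] at hv
        simp only [en, ok6]
        simp [Fin.val_inj, hv.2.1, hv.2.2.1, hv.2.2.2.1, hv.2.2.2.2, p.2, d.2, hD, hv.1]
        omega
  · simp only [TA, AdV, en_inj.ne_iff, r6_iff hL hX h1 h2]

theorem pt_red6 (m : ℕ) (Lh Xl : Ed) (N1l N2l Dl : List ℕ) (u q x0 : ℕ) :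
    PT (red6 m Lh Xl N1l N2l Dl u q x0) := by
  have h : PT fun x => dd (L6 m u x0 Dl x) := by unfold L6 ok6; fun_prop
  exact h.length.mk ((PT.tgE _ h (by unfold r6 cov; fun_prop)).mk (by fun_prop))

theorem U_hard {P : Par m} (hF : Fit P) (ok : OKU P) : W2Hard (Con₁ P.H) := by
  classical
  let Lh : Ed := (Finset.univ.filter fun q : Fin m × Fin m => P.H.Adj q.1 q.2).toList.map
    fun q => (q.1.val, q.2.val)
  let Xl : Ed := (Finset.univ.filter fun q : Fin m × Fin m => P.X q.1 q.2).toList.map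
    fun q => (q.1.val, q.2.val)
  let l1 : List ℕ := (Finset.univ.filter P.N1).toList.map Fin.val
  let l2 : List ℕ := (Finset.univ.filter P.N2).toList.map Fin.val
  let l3 : List ℕ := (Finset.univ.filter P.Dg).toList.map Fin.val
  refine freduces_of_ft_g (FT.of_pt (pt_red6 m Lh Xl l1 l2 l3 P.u P.q P.x)) (fun k => 2 * k)
    (Primrec.nat_mul.comp (Primrec.const 2) Primrec.id).to_comp fun x =>
      ⟨U_red hF ok (fun i j => by simp [Lh, Fin.val_inj]) (fun i j => by simp [Xl, Fin.val_inj])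
        (fun i => by simp [l1, Fin.val_inj]) (fun i => by simp [l2, Fin.val_inj])
        (fun i => by simp [l3, Fin.val_inj]) x, le_rfl⟩

end Pool.Agent.Helper89.HF
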